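import Mathlib.SetTheory.Cardinal.Regular
import Mathlib.SetTheory.Cardinal.Pigeonhole
import Mathlib.Order.Antichain
import Mathlib.Order.WellFoundedSet

/-!
Strongly rigid chains, the class `K`, and Suslin trees.
-/

universe u

namespace Pool.Agent.Work.MP_4eca4b_lc

open Cardinal Set

/-- An infinite chain is strongly rigid if every order-preserving injection of a subchain into
the chain moves fewer than `#C` points. -/
def StronglyRigid (C : Type u) [LinearOrder C] : Prop :=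
  ℵ₀ ≤ #C ∧ ∀ (S : Set C) (f : S → C), StrictMono f → #{x : S | f x ≠ x} < #C

/-- `κ ∈ K`: there is a strongly rigid chain of cardinality `κ`. -/
def InK (κ : Cardinal.{u}) : Prop :=
  ∃ (C : Type u) (_ : LinearOrder C), #C = κ ∧ StronglyRigid C

/-- There is a `κ`-Suslin tree: a partial order of size `κ` in which the predecessors of each
point are well ordered and all chains and antichains have size less than `κ`. -/
def SuslinTree (κ : Cardinal.{u}) : Prop :=
  ∃ (T : Type u) (_ : PartialOrder T), #T = κ ∧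
    (∀ t : T, IsChain (· ≤ ·) (Iio t) ∧ (Iio t).IsWF) ∧
    (∀ A : Set T, IsChain (· ≤ ·) A → #A < κ) ∧
    (∀ A : Set T, IsAntichain (· ≤ ·) A → #A < κ)

/-- An increasing relation without fixed points. -/
def Inc {C : Type u} [LinearOrder C] (R : Set (C × C)) : Prop :=
  (∀ p ∈ R, p.1 ≠ p.2) ∧ ∀ p ∈ R, ∀ q ∈ R, (p.1 < q.1 ↔ p.2 < q.2)

theorem Inc.eq_of_fst {C : Type u} [LinearOrder C] {R : Set (C × C)} (h : Inc R) {p q : C × C}
    (hp : p ∈ R) (hq : q ∈ R) (e : p.1 = q.1) : p = q := by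
  refine Prod.ext e (le_antisymm (not_lt.1 fun hh => ?_) (not_lt.1 fun hh => ?_))
  · exact ((h.2 q hq p hp).2 hh).ne e.symm
  · exact ((h.2 p hp q hq).2 hh).ne e

theorem Inc.eq_of_snd {C : Type u} [LinearOrder C] {R : Set (C × C)} (h : Inc R) {p q : C × C}
    (hp : p ∈ R) (hq : q ∈ R) (e : p.2 = q.2) : p = q := by
  refine Prod.ext (le_antisymm (not_lt.1 fun hh => ?_) (not_lt.1 fun hh => ?_)) e
  · exact ((h.2 q hq p hp).1 hh).ne e.symm
  · exact ((h.2 p hp q hq).1 hh).ne e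

theorem Inc.mono {C : Type u} [LinearOrder C] {R R' : Set (C × C)} (h : Inc R) (hs : R' ⊆ R) :
    Inc R' :=
  ⟨fun p hp => h.1 p (hs hp), fun p hp q hq => h.2 p (hs hp) q (hs hq)⟩

theorem Inc.swap {C : Type u} [LinearOrder C] {R : Set (C × C)} (h : Inc R) :
    Inc (Prod.swap ⁻¹' R) :=
  ⟨fun _ hp => (h.1 _ hp).symm, fun _ hp _ hq => (h.2 _ hp _ hq).symm⟩

theorem mk_swap {C : Type u} (R : Set (C × C)) : #(Prod.swap ⁻¹' R : Set (C × C)) = #R :=
  mk_preimage_of_injective_of_subset_range _ _ Prod.swap_injective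
    (by rw [Prod.swap_surjective.range_eq]; exact subset_univ _)

theorem stronglyRigid_iff {C : Type u} [LinearOrder C] :
    StronglyRigid C ↔ ℵ₀ ≤ #C ∧ ∀ R : Set (C × C), Inc R → #R < #C := by
  refine and_congr_right fun _ => ⟨fun h R hR => ?_, fun h S f hf => ?_⟩
  · have h1 : ∀ x : (Prod.fst '' R), ∃ y, (x.1, y) ∈ R := by
      rintro ⟨_, p, hp, rfl⟩
      exact ⟨p.2, hp⟩
    choose f hf using h1
    have h2 := h _ f fun x y hxy => (hR.2 _ (hf x) _ (hf y)).1 hxy
    have h3 : {x : (Prod.fst '' R) | f x ≠ x} = Set.univ :=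
      eq_univ_of_forall fun x => (hR.1 _ (hf x)).symm
    rw [h3, mk_univ, mk_image_eq_of_injOn _ _ fun p hp q hq e => hR.eq_of_fst hp hq e] at h2
    exact h2
  · have h1 := h ((fun x : S => (x.1, f x)) '' {x : S | f x ≠ x}) ⟨?_, ?_⟩
    · rwa [mk_image_eq_of_injOn] at h1
      exact fun p _ q _ e => Subtype.ext (congrArg Prod.fst e)
    · rintro _ ⟨x, hx, rfl⟩
      exact Ne.symm hx
    · rintro _ ⟨x, -, rfl⟩ _ ⟨y, -, rfl⟩
      exact (hf.lt_iff_lt).symm

/-- Pulling back along an injective map into a chain. -/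
theorem inK_of_injective {U L : Type u} [LinearOrder L] (e : U → L) (he : Function.Injective e)
    (h0 : ℵ₀ ≤ #U)
    (h : ∀ R : Set (U × U), (∀ p ∈ R, p.1 ≠ p.2) →
      (∀ p ∈ R, ∀ q ∈ R, (e p.1 < e q.1 ↔ e p.2 < e q.2)) → #R < #U) : InK #U := by
  let _ : LinearOrder U := LinearOrder.lift' e he
  exact ⟨U, _, rfl, stronglyRigid_iff.2 ⟨h0, fun R hR => h R hR.1 hR.2⟩⟩

end Pool.Agent.Work.MP_4eca4b_lc
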