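import Pool.Agent.Work.MP_4eca4b_lc.Defs
import Pool.Agent.Lib.ClubGuess.Basic
import Mathlib.Order.PiLex

/-!
Diagonal construction of strongly rigid chains inside a chain with a small dense subset.
-/

universe u

set_option linter.deprecated false

namespace Pool.Agent.Work.MP_4eca4b_lc

open Cardinal Set Pool.Agent.Lib.ClubGuess

theorem mk_iUnion_lt_of_cof {ι α : Type u} {θ : Cardinal.{u}} (hθ : ℵ₀ ≤ θ) (f : ι → Set α)
    (h1 : #ι < θ.ord.cof) (h2 : ∀ i, #(f i) < θ) : #(⋃ i, f i) < θ :=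
  (mk_iUnion_le f).trans_lt
    (mul_lt_of_lt hθ (h1.trans_le (Ordinal.cof_ord_le θ)) (iSup_lt_of_lt_cof_ord h1 h2))

theorem mk_Iic_toType_lt {c : Cardinal.{u}} (hc : ℵ₀ ≤ c) (i : c.ord.ToType) : #(Iic i) < c := by
  rw [← Iio_insert]
  exact mk_insert_le.trans_lt
    (add_lt_of_lt hc (mk_Iio_toType_ord_lt i) (one_lt_aleph0.trans_le hc))

theorem exists_stage {κ θ : Cardinal.{u}} (hθ : ℵ₀ ≤ θ) (hcof : κ.ord.cof = θ.ord.cof)
    {A : Type u} (hA : #A ≤ θ) : ∃ st : A → κ.ord.ToType, ∀ j, #{a | st a ≤ j} < θ := by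
  obtain ⟨e⟩ : Nonempty (A ↪ θ.ord.ToType) := by
    rw [← le_def, mk_ord_toType]; exact hA
  obtain ⟨Q, hQ1, hQ2⟩ := Ordinal.exists_ord_cof_eq κ.ord.ToType
  obtain ⟨P, hP1, hP2⟩ := Order.exists_cof_eq θ.ord.ToType
  rw [Ordinal.cof_toType] at hQ2 hP2
  have hQ3 : #Q = θ.ord.cof := by
    rw [← hcof, ← card_ord κ.ord.cof, ← hQ2, Ordinal.card_type]
  have h0 : ℵ₀ ≤ θ.ord.cof := Ordinal.aleph0_le_cof.2 (isSuccLimit_ord hθ)
  obtain ⟨φ⟩ : Nonempty (Q ≃ P) := Cardinal.eq.1 (hQ3.trans hP2.symm)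
  have h1 : ∀ a, ∃ q : Q, e a ≤ φ q := fun a => by
    obtain ⟨p, hp, h⟩ := hP1 (e a)
    exact ⟨φ.symm ⟨p, hp⟩, by simpa using h⟩
  choose q hq using h1
  refine ⟨fun a => q a, fun j => ?_⟩
  obtain ⟨q0, hq0, hj⟩ := hQ1 j
  have h2 : #(Iic (⟨q0, hq0⟩ : Q)) < θ.ord.cof := by
    rw [← Iio_insert]
    refine mk_insert_le.trans_lt (add_lt_of_lt h0 ?_ (one_lt_aleph0.trans_le h0))
    rw [← hQ3]
    exact mk_Iio_lt _ (by rw [hQ2, hQ3, hcof])
  refine (mk_le_mk_of_subset fun a ha => ?_).trans_lt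
    (mk_iUnion_lt_of_cof hθ (fun r : Iic (⟨q0, hq0⟩ : Q) => e ⁻¹' Iic (φ r).1) h2 fun r =>
      (mk_preimage_of_injective _ _ e.injective).trans_lt (mk_Iic_toType_lt hθ _))
  exact mem_iUnion.2 ⟨⟨q a, le_trans (α := κ.ord.ToType) ha hj⟩, hq a⟩

theorem inK_of_dense {L : Type u} [LinearOrder L] {D : Set L} {μ κ : Cardinal.{u}}
    (hμ : ℵ₀ ≤ μ) (hD : #D ≤ μ) (hsep : ∀ a b : L, a < b → ∃ d ∈ D, a ≤ d ∧ d ≤ b)
    (hL : (2 : Cardinal.{u}) ^ μ ≤ #L) (hκ : κ ≤ 2 ^ μ) (hcof : κ.ord.cof = (2 ^ μ : Cardinal.{u}).ord.cof) : InK κ := by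
  classical
  have hθ : μ < 2 ^ μ := cantor μ
  have hθ0 : ℵ₀ ≤ (2 : Cardinal.{u}) ^ μ := hμ.trans hθ.le
  have hμκ : μ < κ :=
    (lt_cof_ord_power hμ one_lt_two).trans_le (hcof ▸ Ordinal.cof_ord_le κ)
  have hκ0 : ℵ₀ ≤ κ := hμ.trans hμκ.le
  obtain ⟨st, hst⟩ := exists_stage hθ0 hcof (A := Set (D × D)) (by
    rw [mk_set, mk_prod, lift_id]
    exact power_le_power_left two_ne_zero ((mul_le_mul' hD hD).trans (mul_eq_self hμ).le))
  let cap : Set (D × D) → L → L → Prop := fun Λ x y =>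
    ∀ e : D, e.1 < y ↔ ∃ d : D, d.1 < x ∧ (d, e) ∈ Λ
  have h1 : ∀ Λ x, ∃ c, ∀ y, y ∉ D → cap Λ x y → y = c := by
    intro Λ x
    by_cases h : ∃ y, y ∉ D ∧ cap Λ x y
    · obtain ⟨c, hc1, hc2⟩ := h
      have key : ∀ y z, z ∉ D → cap Λ x y → cap Λ x z → ¬ y < z := by
        intro y z hz h1 h2 h
        obtain ⟨d, hd, hyd, hdz⟩ := hsep y z h
        exact ((h1 ⟨d, hd⟩).2 ((h2 ⟨d, hd⟩).1
          (hdz.lt_of_ne fun e => hz (e ▸ hd)))).not_ge hyd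
      exact ⟨c, fun y hy h => le_antisymm (not_lt.1 (key c y hy hc2 h))
        (not_lt.1 (key y c hc1 h hc2))⟩
    · exact ⟨x, fun y hy h' => (h ⟨y, hy, h'⟩).elim⟩
  choose c hc using h1
  let J := κ.ord.ToType
  have hJ : #J = κ := mk_ord_toType κ
  let F : J → (J → L) → Set L := fun j f =>
    (D ∪ range fun i : Iio j => f i) ∪ range fun p : Iio j × {Λ | st Λ ≤ j} => c p.2 (f p.1)
  have hF : ∀ j f, ∃ y, y ∉ F j f := by
    intro j f
    have a1 : #(Iio j) < 2 ^ μ := (mk_Iio_toType_ord_lt j).trans_le hκ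
    have a2 : #(F j f) < 2 ^ μ := by
      refine (mk_union_le _ _).trans_lt (add_lt_of_lt hθ0 ((mk_union_le _ _).trans_lt
        (add_lt_of_lt hθ0 (hD.trans_lt hθ) (mk_range_le.trans_lt a1))) (mk_range_le.trans_lt ?_))
      rw [mk_prod, lift_id, lift_id]
      exact mul_lt_of_lt hθ0 a1 (hst j)
    by_contra hh
    push Not at hh
    rw [eq_univ_of_forall hh, mk_univ] at a2
    exact a2.not_ge hL
  have : Nonempty L := mk_ne_zero_iff.1 (aleph0_pos.trans_le (hθ0.trans hL)).ne'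
  have : Inhabited L := Classical.inhabited_of_nonempty this
  obtain ⟨x, hx⟩ := exists_rec (S := J) (fun j f => Classical.epsilon fun y => y ∉ F j f)
    fun k f g h => by
      have : F k f = F k g := by
        simp only [F]
        congr 2
        · congr 1
          exact funext fun i => h _ i.2
        · exact funext fun p => by rw [h _ p.1.2]
      rw [this]
  have hx' : ∀ j, x j ∉ F j x := fun j => by
    rw [hx j]
    exact Classical.epsilon_spec (hF j x)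
  have hxD : ∀ j, x j ∉ D := fun j h => hx' j (Or.inl (Or.inl h))
  have hinj : Function.Injective x := by
    intro i j e
    rcases lt_trichotomy i j with h | h | h
    · exact absurd (Or.inl (Or.inr ⟨⟨i, h⟩, e⟩)) (hx' j)
    · exact h
    · exact absurd (Or.inl (Or.inr ⟨⟨j, h⟩, e.symm⟩)) (hx' i)
  have half : ∀ R : Set (J × J), (∀ p ∈ R, ∀ q ∈ R, (x p.1 < x q.1 ↔ x p.2 < x q.2)) →
      #{p ∈ R | p.1 < p.2} < κ := by
    intro R hR
    have b0 : ∀ p ∈ R, ∀ q ∈ R, p.2 = q.2 → p = q := by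
      intro p hp q hq e
      refine Prod.ext (hinj (le_antisymm (not_lt.1 fun h => ?_) (not_lt.1 fun h => ?_))) e
      · exact ((hR q hq p hp).1 h).ne (e ▸ rfl)
      · exact ((hR p hp q hq).1 h).ne (e ▸ rfl)
    let Λ : Set (D × D) := {de | ∃ p ∈ R, x p.1 ≤ de.1 ∧ de.2.1 ≤ x p.2}
    have b1 : #{p ∈ R | cap Λ (x p.1) (x p.2) ∧ p.1 < p.2} < κ := by
      refine (mk_le_of_injective (f := fun p => (⟨p.1.2, ?_⟩ : Iio (st Λ))) fun p q e =>
        Subtype.ext (b0 _ p.2.1 _ q.2.1 (congrArg Subtype.val e))).trans_lt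
        (mk_Iio_toType_ord_lt _)
      refine (not_le (a := st Λ)).1 fun h => hx' p.1.2 (Or.inr ⟨(⟨p.1.1, p.2.2.2⟩, ⟨Λ, h⟩), ?_⟩)
      exact (hc Λ _ _ (hxD _) p.2.2.1).symm
    have b2 : ∀ p : {p ∈ R | ¬ cap Λ (x p.1) (x p.2)},
        ∃ e : D, e.1 < x p.1.2 ∧ ∀ q ∈ R, x q.2 < x p.1.2 → x q.2 < e := by
      rintro ⟨p, hp, h⟩
      by_contra hh
      push Not at hh
      refine h fun e => ⟨fun he => ?_, ?_⟩
      · obtain ⟨q, hq, h1, h2⟩ := hh e he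
        obtain ⟨d, hd, h3, h4⟩ := hsep _ _ ((hR q hq p hp).2 h1)
        exact ⟨⟨d, hd⟩, h4.lt_of_ne fun e => hxD p.1 (e ▸ hd), q, hq, h3, h2⟩
      · rintro ⟨d, hd, q, hq, h1, h2⟩
        exact h2.trans_lt ((hR q hq p hp).1 (h1.trans_lt hd))
    choose e he1 he2 using b2
    have b3 : Function.Injective e := by
      intro p q h
      refine Subtype.ext (b0 _ p.2.1 _ q.2.1 (hinj (le_antisymm (not_lt.1 fun h' => ?_)
        (not_lt.1 fun h' => ?_))))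
      · exact (he2 p _ q.2.1 h').not_gt (h ▸ he1 q)
      · exact (he2 q _ p.2.1 h').not_gt (h ▸ he1 p)
    refine (mk_le_mk_of_subset fun p hp => ?_).trans_lt ((mk_union_le _ _).trans_lt
      (add_lt_of_lt hκ0 b1 ((mk_le_of_injective b3).trans_lt (hD.trans_lt hμκ))))
    by_cases h : cap Λ (x p.1) (x p.2)
    · exact Or.inl ⟨hp.1, h, hp.2⟩
    · exact Or.inr ⟨hp.1, h⟩
  rw [← hJ]
  refine inK_of_injective x hinj (hJ.symm ▸ hκ0) fun R h1 h2 => ?_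
  have a1 := half R h2
  have a2 := half (Prod.swap ⁻¹' R) fun p hp q hq => (h2 _ hp _ hq).symm
  rw [← mk_swap] at a2
  rw [hJ]
  refine (mk_le_mk_of_subset fun p hp => ?_).trans_lt ((mk_union_le _ _).trans_lt
    (add_lt_of_lt hκ0 a1 a2))
  rcases lt_or_gt_of_ne (h1 p hp) with h | h
  · exact Or.inl ⟨hp, h⟩
  · exact Or.inr ⟨hp, h⟩

theorem inK_of_pow {μ ν κ : Cardinal.{u}} (hν : ℵ₀ ≤ ν) (hνμ : ν ≤ μ)
    (h1 : ∀ α : ν.ord.ToType, 2 ^ #(Iic α) ≤ μ) (h2 : (2 : Cardinal.{u}) ^ μ ≤ 2 ^ ν) (hκ : κ ≤ 2 ^ μ)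
    (hcof : κ.ord.cof = (2 ^ μ : Cardinal.{u}).ord.cof) : InK κ := by
  classical
  have hμ := hν.trans hνμ
  let I := ν.ord.ToType
  let ex : (Σ α : I, (Iic α → Bool)) → Lex (I → Bool) := fun p =>
    toLex fun β => if h : β ≤ p.1 then p.2 ⟨β, h⟩ else false
  refine inK_of_dense (L := Lex (I → Bool)) (D := range ex) hμ (mk_range_le.trans ?_)
    (fun a b hab => ?_) ?_ hκ hcof
  · rw [mk_sigma]
    refine (sum_le_mk_mul_iSup _).trans ?_
    rw [mk_ord_toType, ← mul_eq_self hμ]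
    refine mul_le_mul' hνμ (ciSup_le' fun α => ?_)
    simpa using h1 α
  · obtain ⟨i, hi, hlt⟩ := hab
    refine ⟨_, ⟨⟨i, fun β => b β⟩, rfl⟩, le_of_lt ⟨i, fun j hj => ?_, ?_⟩, ?_⟩
    · simp [ex, hj.le, hi j hj]
    · simpa [ex] using hlt
    · refine Pi.toLex_monotone (a := ofLex (ex ⟨i, fun β => b β⟩)) (b := ofLex b) fun β => ?_
      by_cases h : β ≤ i <;> simp [ex, h]
  · refine h2.trans (le_of_eq ?_)
    change _ = #(I → Bool)
    simp [I]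

end Pool.Agent.Work.MP_4eca4b_lc
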