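import Pool.Agent.Work.MP_4eca4b_lc.Stat

/-!
General tools for the double successor theorem.
-/

universe u v

namespace Pool.Agent.Work.MP_4eca4b_lc.Ds

open Cardinal Set Order Function Pool.Agent.Lib.ClubGuess

theorem exists_rec_spec {I : Type u} {X : Type v} [LinearOrder I] [WellFoundedLT I] [Nonempty X]
    (P : I → (I → X) → X → Prop)
    (hc : ∀ i f g x, (∀ j < i, f j = g j) → P i f x → P i g x)
    (hs : ∀ i f, (∀ j < i, P j f (f j)) → ∃ x, P i f x) : ∃ f : I → X, ∀ i, P i f (f i) := by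
  classical
  let _ : Inhabited X := Classical.inhabited_of_nonempty inferInstance
  obtain ⟨f, hf⟩ := exists_rec (fun i f => Classical.epsilon (P i f)) (fun i f g h => by
    congr 1
    funext x
    exact propext ⟨hc i f g x h, hc i g f x fun j hj => (h j hj).symm⟩)
  refine ⟨f, fun i => ?_⟩
  induction i using WellFoundedLT.induction with
  | ind i ih =>
    rw [hf i]
    exact Classical.epsilon_spec (hs i f ih)

theorem greedy {I Y : Type u} {ν : Cardinal.{u}} (hI : #I ≤ ν) (P : I → Y → Prop)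
    (N : Y → Y → Prop) (hN : ∀ a b, N a b → N b a)
    (h : ∀ i (Z : Set Y), #Z < ν → ∃ y, P i y ∧ ∀ z ∈ Z, N y z) :
    ∃ f : I → Y, (∀ i, P i (f i)) ∧ ∀ i j, i ≠ j → N (f i) (f j) := by
  rcases isEmpty_or_nonempty I with hI0 | ⟨⟨i0⟩⟩
  · exact ⟨isEmptyElim, isEmptyElim, isEmptyElim⟩
  have hν : 0 < ν := (pos_iff_ne_zero.2 (mk_ne_zero_iff.2 ⟨i0⟩)).trans_le hI
  obtain ⟨y0, -⟩ := h i0 ∅ (by simpa using hν)
  have : Nonempty Y := ⟨y0⟩
  obtain ⟨e⟩ : Nonempty (I ≃ (#I).ord.ToType) := Cardinal.eq.1 (by simp)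
  obtain ⟨f, hf⟩ := exists_rec_spec (I := (#I).ord.ToType) (X := Y)
    (fun i f y => P (e.symm i) y ∧ ∀ j < i, N y (f j))
    (fun i f g x hfg hx => ⟨hx.1, fun j hj => hfg j hj ▸ hx.2 j hj⟩)
    (fun i f _ => by
      obtain ⟨y, hy, hy'⟩ := h (e.symm i) (f '' Iio i)
        ((mk_image_le.trans_lt (mk_Iio_toType_ord_lt i)).trans_le hI)
      exact ⟨y, hy, fun j hj => hy' _ ⟨j, hj, rfl⟩⟩)
  refine ⟨fun i => f (e i), fun i => by simpa using (hf (e i)).1, fun i j hij => ?_⟩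
  rcases lt_or_gt_of_ne (e.injective.ne hij) with h' | h'
  · exact hN _ _ ((hf _).2 _ h')
  · exact (hf _).2 _ h'

theorem exists_enum {M Y : Type u} (S : Set Y) (h : #S ≤ #M) (y0 : Y) :
    ∃ ψ : M → Y, (∀ s ∈ S, ∃ m, ψ m = s) ∧ ∀ m, ψ m ∈ S ∨ ψ m = y0 := by
  obtain ⟨e⟩ : Nonempty (S ↪ M) := (le_def _ _).1 h
  refine ⟨Function.extend e Subtype.val fun _ => y0, fun s hs => ⟨e ⟨s, hs⟩, ?_⟩, fun m => ?_⟩
  · exact e.injective.extend_apply _ _ _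
  · by_cases hm : ∃ s, e s = m
    · obtain ⟨s, rfl⟩ := hm
      rw [e.injective.extend_apply]
      exact Or.inl s.2
    · rw [Function.extend_apply' _ _ _ hm]
      exact Or.inr rfl

theorem exists_notMem_of_lt {X : Type u} {S T : Set X} (h : #S < #T) : ∃ x ∈ T, x ∉ S := by
  by_contra hh
  push Not at hh
  exact (mk_le_mk_of_subset hh).not_gt h

theorem exists_least {B : Type u} [LinearOrder B] [WellFoundedLT B] {P : B → Prop}
    (h : ∃ b, P b) : ∃ b, P b ∧ ∀ b', P b' → b ≤ b' := by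
  obtain ⟨b, hb, hmin⟩ := wellFounded_lt.has_min {b | P b} h
  exact ⟨b, hb, fun b' hb' => not_lt.1 (hmin b' hb')⟩

/-- `B` has the size of the successor of the infinite size of `A`. -/
class Sc (A B : Type u) : Prop where
  inf : ℵ₀ ≤ #A
  eq : #B = succ #A

/-- `2 ^ #A ≤ #B`. -/
class Pw (A B : Type u) : Prop where
  le : 2 ^ #A ≤ #B

section Sc

variable (A : Type u) {B : Type u} [Sc A B]
include A

theorem Sc.lt : #A < #B := by
  rw [Sc.eq (A := A) (B := B)]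
  exact lt_succ _

theorem Sc.unc : ℵ₀ < #B := (Sc.inf (A := A) (B := B)).trans_lt (Sc.lt A)

theorem Sc.le_of_lt {c : Cardinal.{u}} (h : c < #B) : c ≤ #A := by
  rwa [Sc.eq (A := A) (B := B), lt_succ_iff] at h

theorem Sc.le_of_gt {c : Cardinal.{u}} (h : #A < c) : #B ≤ c := by
  rwa [Sc.eq (A := A) (B := B), succ_le_iff]

theorem Sc.ne : Nonempty B := mk_ne_zero_iff.1 (aleph0_pos.trans (Sc.unc A)).ne'

theorem Sc.ne' (B : Type u) [Sc A B] : Nonempty A :=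
  mk_ne_zero_iff.1 (aleph0_pos.trans_le (Sc.inf (B := B))).ne'

variable [LinearOrder B] [WellFoundedLT B] [IsRegularCardinalOrder B]

theorem mk_Iic_le (b : B) : #(Iic b) ≤ #A := Sc.le_of_lt A (mk_Iic_lt (Sc.unc A).le b)

theorem mk_Iio_le (b : B) : #(Iio b) ≤ #A := Sc.le_of_lt A (mk_Iio_lt' b)

theorem bound {ι : Type u} (h : #ι ≤ #A) (G : ι → B) : ∃ b, ∀ i, G i < b :=
  bound_fun G (h.trans_lt (Sc.lt A))

theorem bound_set {ι : Type u} {S : Set ι} (h : #S ≤ #A) (G : ι → B) : ∃ b, ∀ i ∈ S, G i < b := by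
  obtain ⟨b, hb⟩ := bound A h fun i => G i
  exact ⟨b, fun i hi => hb ⟨i, hi⟩⟩

theorem pigeon {Y : Type u} (hY : #Y ≤ #A) (P : Y → B → Prop)
    (hm : ∀ y b b', b' ≤ b → P y b → P y b') (h : ∀ b, ∃ y, P y b) : ∃ y, ∀ b, P y b := by
  by_contra hc
  push Not at hc
  choose G hG using hc
  obtain ⟨b, hb⟩ := bound A hY G
  obtain ⟨y, hy⟩ := h b
  exact hG y (hm y b _ (hb y).le hy)

theorem exists_onto (b : B) : ∃ e : A → B, (∀ i, e i ≤ b) ∧ ∀ x ≤ b, ∃ i, e i = x := by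
  obtain ⟨e, h1, h2⟩ := exists_enum (Iic b) (mk_Iic_le A b) b
  exact ⟨e, fun i => (h2 i).elim id le_of_eq, h1⟩

end Sc

theorem le_prod {X Y : Type u} {c : Cardinal.{u}} (hc : ℵ₀ ≤ c) (h1 : #X ≤ c) (h2 : #Y ≤ c) :
    #(X × Y) ≤ c := by
  rw [mk_prod, lift_id, lift_id]
  exact (mul_le_mul' h1 h2).trans (mul_eq_self hc).le

theorem le_sum' {X Y : Type u} {c : Cardinal.{u}} (hc : ℵ₀ ≤ c) (h1 : #X ≤ c) (h2 : #Y ≤ c) :
    #(X ⊕ Y) ≤ c := by
  rw [mk_sum, lift_id, lift_id]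
  exact (add_le_add h1 h2).trans (add_eq_self hc).le

theorem le_union {X : Type u} {S T : Set X} {c : Cardinal.{u}} (hc : ℵ₀ ≤ c) (h1 : #S ≤ c)
    (h2 : #T ≤ c) : #(S ∪ T : Set X) ≤ c :=
  (mk_union_le S T).trans ((add_le_add h1 h2).trans (add_eq_self hc).le)

theorem le_iUnion {X ι : Type u} {S : ι → Set X} {c : Cardinal.{u}} (hc : ℵ₀ ≤ c) (h1 : #ι ≤ c)
    (h2 : ∀ i, #(S i) ≤ c) : #(⋃ i, S i : Set X) ≤ c :=
  (mk_iUnion_le S).trans ((mul_le_mul' h1 (ciSup_le' h2)).trans (mul_eq_self hc).le)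

theorem le_fun (M : Type u) {Θ X Y : Type u} [Sc M Θ] [Pw M Θ] (h1 : #X ≤ #M) (h2 : #Y ≤ #Θ) :
    #(X → Y) ≤ #Θ := by
  have h0 : ℵ₀ ≤ #M := Sc.inf (B := Θ)
  have h3 : #Θ ≤ 2 ^ #M := Sc.le_of_gt M (cantor _)
  rw [← power_def]
  calc #Y ^ #X ≤ (2 ^ #M) ^ #X := power_le_power_right (h2.trans h3)
    _ ≤ (2 ^ #M) ^ #M := power_le_power_left (power_ne_zero _ two_ne_zero) h1
    _ = 2 ^ #M := by rw [← power_mul, mul_eq_self h0]
    _ ≤ #Θ := Pw.le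

/-- `α` has a cofinal set of predecessors of size at most `#M`. -/
def Small (M : Type u) {K : Type u} [LinearOrder K] (α : K) : Prop :=
  ∃ C : Set K, #C ≤ #M ∧ (∀ c ∈ C, c < α) ∧ ∀ x < α, ∃ c ∈ C, x ≤ c

section Two

variable (M Θ : Type u) {K : Type u} [LinearOrder Θ] [WellFoundedLT Θ] [IsRegularCardinalOrder Θ]
  [LinearOrder K] [WellFoundedLT K] [IsRegularCardinalOrder K] [Sc M Θ] [Sc Θ K]
include Θ

theorem records (α : K) : ∃ C : Set K, (∀ c ∈ C, c < α) ∧ (∀ x < α, ∃ c ∈ C, x ≤ c) ∧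
    ∀ c ∈ C, #(C ∩ Iio c : Set K) ≤ #M := by
  obtain ⟨e, -, he⟩ := exists_onto Θ α
  refine ⟨{x | x < α ∧ ∃ j, e j = x ∧ ∀ i < j, e i < α → e i < x}, fun c hc => hc.1,
    fun x hx => ?_, ?_⟩
  · obtain ⟨j, hj⟩ := he x hx.le
    obtain ⟨i, hi, hmin⟩ := exists_least (P := fun i => x ≤ e i ∧ e i < α) ⟨j, hj.ge, hj ▸ hx⟩
    refine ⟨e i, ⟨hi.2, i, rfl, fun i' hi' h => ?_⟩, hi.1⟩
    by_contra hh
    exact (hmin i' ⟨hi.1.trans (not_lt.1 hh), h⟩).not_gt hi'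
  · rintro c ⟨hc, j, rfl, hj⟩
    refine (mk_le_mk_of_subset (t := e '' Iio j) ?_).trans (mk_image_le.trans (mk_Iio_le M j))
    rintro c' ⟨⟨-, j', rfl, hj'⟩, h⟩
    refine ⟨j', ?_, rfl⟩
    rcases lt_trichotomy j' j with h' | h' | h'
    · exact h'
    · exact absurd h (h' ▸ lt_irrefl _)
    · exact absurd (hj' j h' hc) (not_lt.2 (le_of_lt h))

theorem exists_big (F : K → K) (α0 : K) : ∃ α, α0 < α ∧ ¬ Small M α ∧ ∀ γ < α, F γ < α := by
  have h1 : ∀ x : K, ∃ y, ∀ i ≤ x, F i < y := fun x => bound_set Θ (mk_Iic_le Θ x) F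
  choose G hG using h1
  have := Sc.ne (B := K) Θ
  obtain ⟨a, ha⟩ := exists_rec_spec (I := Θ) (X := K)
    (fun i a x => α0 < x ∧ ∀ j < i, a j < x ∧ G (a j) < x)
    (fun i f g x hfg hx => ⟨hx.1, fun j hj => hfg j hj ▸ hx.2 j hj⟩)
    (fun i f _ => by
      obtain ⟨b, hb⟩ := bound_set Θ ((mk_Iio_le M i).trans (Sc.lt M).le)
        (fun j => max (f j) (G (f j)))
      obtain ⟨b', hb'⟩ := exists_gt' (Sc.unc Θ).le α0
      exact ⟨max b b', lt_max_of_lt_right hb', fun j hj =>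
        ⟨lt_max_of_lt_left ((le_max_left _ _).trans_lt (hb j hj)),
          lt_max_of_lt_left ((le_max_right _ _).trans_lt (hb j hj))⟩⟩)
  obtain ⟨b, hb⟩ := bound Θ le_rfl a
  obtain ⟨α, hα, hmin⟩ := exists_least (P := fun α => ∀ i, a i < α) ⟨b, hb⟩
  have h2 : ∀ x < α, ∃ i, x ≤ a i := fun x hx => by
    by_contra hh
    push Not at hh
    exact (hmin x hh).not_gt hx
  obtain ⟨i0⟩ := Sc.ne (B := Θ) M
  refine ⟨α, (ha i0).1.trans (hα i0), ?_, fun γ hγ => ?_⟩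
  · rintro ⟨C, hC1, hC2, hC3⟩
    have : Nonempty Θ := ⟨i0⟩
    choose! j hj using h2
    obtain ⟨i, hi⟩ := bound_set M hC1 j
    obtain ⟨c, hc, hc'⟩ := hC3 _ (hα i)
    exact (hc'.trans (hj c (hC2 c hc))).not_gt ((ha i).2 _ (hi c hc)).1
  · obtain ⟨i, hi⟩ := h2 γ hγ
    obtain ⟨i', hi'⟩ := exists_gt' (Sc.unc M).le i
    exact ((hG _ _ hi).trans ((ha i').2 i hi').2).trans (hα i')

end Two

end Pool.Agent.Work.MP_4eca4b_lc.Ds
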