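import Pool.Agent.Work.MP_4eca4b_lc.DsBasic

/-!
Levels of the labelled tree and the construction of branches through a limit level.
-/

universe u

namespace Pool.Agent.Work.MP_4eca4b_lc.Ds

open Cardinal Set Order Function Pool.Agent.Lib.ClubGuess

/-- Agreement below `α`. -/
def Agr {Θ K : Type u} [LinearOrder K] (α : K) (s t : K → Θ × Θ) : Prop := ∀ x < α, s x = t x

/-- A family of pairs with both coordinates injective. -/
def Valid {M Θ ι : Type u} (ρ : Θ × (M → ι × ι)) : Prop :=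
  Injective (fun m => (ρ.2 m).1) ∧ Injective fun m => (ρ.2 m).2

/-- Some pair of the family has the required label at `c`. -/
def Cov {M Θ K ι : Type u} (t : ι → K → Θ × Θ) (ρ : Θ × (M → ι × ι)) (c : K) : Prop :=
  ∃ m, (t (ρ.2 m).1 c).1 = ρ.1 ∧ (t (ρ.2 m).2 c).1 = ρ.1

/-- The extension property from level `β` to level `α`. -/
def EP (M : Type u) {Θ K : Type u} [LinearOrder Θ] [LinearOrder K] (X Y : Set (K → Θ × Θ))
    (β α : K) : Prop :=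
  ∀ (s : M → K → Θ × Θ) (η : Θ) (ρ : M → Θ × (M → M × M)), (∀ k, s k ∈ X) →
    ∃ t : M → K → Θ × Θ,
      (∀ k, t k ∈ Y ∧ Agr β (t k) (s k) ∧ ∀ x, β ≤ x → x < α → η ≤ (t k x).2) ∧
      ∀ j, Valid (ρ j) → ∀ c, β ≤ c → c < α → Cov t (ρ j) c

/-- What is required of level `α` of the tree. -/
structure Lev (M : Type u) {Θ K : Type u} [LinearOrder Θ] [LinearOrder K]
    (A : K → Set (K → Θ × Θ)) (α : K) (X : Set (K → Θ × Θ)) : Prop where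
  sat : ∀ t ∈ X, ∀ t', Agr α t t' → t' ∈ X
  down : ∀ β < α, X ⊆ A β
  lim : Small M α → ∀ t, (∀ β < α, t ∈ A β) → t ∈ X
  card : ∃ f : (K → Θ × Θ) → Θ, ∀ t ∈ X, ∀ t' ∈ X, f t = f t' → Agr α t t'
  fib : ∀ t ∈ X, ∀ η, #{x | x < α ∧ (t x).2 ≤ η} ≤ #M
  ep : ∀ β < α, EP M (A β) X β α
  at2 : ¬ Small M α → ∀ (ζ : Θ) (p : M → (K → Θ × Θ) × (K → Θ × Θ)),
    (∀ m, (p m).1 ∈ X ∧ (p m).2 ∈ X) →
    (∀ m m', m ≠ m' → ¬ Agr α (p m).1 (p m').1 ∧ ¬ Agr α (p m).2 (p m').2) →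
    ∃ γ < α, ∀ c, γ < c → c < α → ∃ m, ((p m).1 c).1 = ζ ∧ ((p m).2 c).1 = ζ

theorem label {M Θ ι Q : Type u} [Nonempty Θ] (hM : ℵ₀ ≤ #M) (J : Set Q) (hJ : #J ≤ #M)
    (ρ : Q → Θ × (M → ι × ι)) : ∃ v : ι → Θ, ∀ q ∈ J, Valid (ρ q) →
      ∃ m, v ((ρ q).2 m).1 = (ρ q).1 ∧ v ((ρ q).2 m).2 = (ρ q).1 := by
  classical
  obtain ⟨f, hf, hf'⟩ := greedy (I := {q // q ∈ J ∧ Valid (ρ q)}) (Y := ι × ι) (ν := #M)
    ((mk_le_mk_of_subset (s := {q | q ∈ J ∧ Valid (ρ q)}) fun q hq => hq.1).trans hJ)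
    (fun q y => ∃ m, (ρ q).2 m = y)
    (fun y z => y.1 ≠ z.1 ∧ y.1 ≠ z.2 ∧ y.2 ≠ z.1 ∧ y.2 ≠ z.2)
    (fun a b h => ⟨h.1.symm, h.2.2.1.symm, h.2.1.symm, h.2.2.2.symm⟩) (fun q Z hZ => by
      have h1 : #(Prod.fst '' Z ∪ Prod.snd '' Z : Set ι) < #M :=
        (mk_union_le _ _).trans_lt
          (add_lt_of_lt hM (mk_image_le.trans_lt hZ) (mk_image_le.trans_lt hZ))
      have h2 := (mk_union_le _ _).trans_lt (add_lt_of_lt hM
        ((mk_preimage_of_injective _ _ q.2.2.1).trans_lt h1)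
        ((mk_preimage_of_injective _ _ q.2.2.2).trans_lt h1))
      obtain ⟨m, -, hm⟩ := exists_notMem_of_lt (h2.trans_eq mk_univ.symm)
      simp only [mem_union, mem_preimage, mem_image, not_or, not_exists, not_and] at hm
      exact ⟨_, ⟨m, rfl⟩, fun z hz => ⟨fun e => hm.1.1 z hz e.symm, fun e => hm.1.2 z hz e.symm,
        fun e => hm.2.1 z hz e.symm, fun e => hm.2.2 z hz e.symm⟩⟩)
  have h3 : ∀ k, ∃ z : Θ, ∀ q, (k = (f q).1 ∨ k = (f q).2) → z = (ρ q).1 := by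
    intro k
    by_cases h : ∃ q, k = (f q).1 ∨ k = (f q).2
    · obtain ⟨q, hq⟩ := h
      refine ⟨(ρ q).1, fun q' hq' => ?_⟩
      by_contra hne
      have := hf' q q' fun e => hne (by rw [e])
      rcases hq with rfl | rfl <;> rcases hq' with h | h <;> tauto
    · exact ⟨Classical.arbitrary _, fun q hq => (h ⟨q, hq⟩).elim⟩
  choose v hv using h3
  refine ⟨v, fun q hq hq' => ?_⟩
  obtain ⟨m, hm⟩ := hf ⟨q, hq, hq'⟩
  exact ⟨m, hv _ ⟨q, hq, hq'⟩ (Or.inl (congrArg Prod.fst hm)),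
    hv _ ⟨q, hq, hq'⟩ (Or.inr (congrArg Prod.snd hm))⟩

variable {M Θ K : Type u} [LinearOrder Θ] [LinearOrder K] {A : K → Set (K → Θ × Θ)}

omit [LinearOrder Θ] in
theorem Agr.symm {α : K} {s t : K → Θ × Θ} (h : Agr α s t) : Agr α t s :=
  fun x hx => (h x hx).symm

omit [LinearOrder Θ] in
theorem Agr.trans {α : K} {s t w : K → Θ × Θ} (h : Agr α s t) (h' : Agr α t w) : Agr α s w :=
  fun x hx => (h x hx).trans (h' x hx)

theorem Lev.down' {β γ : K} (h : Lev M A γ (A γ)) (hβ : β ≤ γ) : A γ ⊆ A β := by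
  rcases hβ.eq_or_lt with rfl | h'
  · exact Subset.rfl
  · exact h.down β h'

theorem Lev.congr {A' : K → Set (K → Θ × Θ)} {α : K} {X : Set (K → Θ × Θ)}
    (h : ∀ β < α, A β = A' β) (hL : Lev M A α X) : Lev M A' α X :=
  ⟨hL.sat, fun β hβ => h β hβ ▸ hL.down β hβ,
    fun hs t ht => hL.lim hs t fun β hβ => (h β hβ).symm ▸ ht β hβ, hL.card, hL.fib,
    fun β hβ => h β hβ ▸ hL.ep β hβ, hL.at2⟩

theorem ext_closed [Sc M Θ] {β γ : K} (hβγ : β ≤ γ) (hγ : Lev M A γ (A γ)) {ι Q : Type u}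
    (I : Set ι) (J : Set Q) (hI : #I ≤ #M) (hJ : #J ≤ #M) (s : ι → K → Θ × Θ)
    (hs : ∀ k ∈ I, s k ∈ A β) (η : Θ) (ρ : Q → Θ × (M → ι × ι))
    (hρ : ∀ q ∈ J, ∀ m, ((ρ q).2 m).1 ∈ I ∧ ((ρ q).2 m).2 ∈ I) :
    ∃ t : ι → K → Θ × Θ,
      (∀ k ∈ I, t k ∈ A γ ∧ Agr β (t k) (s k) ∧ ∀ x, β ≤ x → x ≤ γ → η ≤ (t k x).2) ∧
      ∀ q ∈ J, Valid (ρ q) → ∀ c, β ≤ c → c ≤ γ → Cov t (ρ q) c := by
  classical
  obtain ⟨m0⟩ := Sc.ne' M Θ
  have : Nonempty Θ := ⟨η⟩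
  have : Nonempty M := ⟨m0⟩
  rcases I.eq_empty_or_nonempty with rfl | ⟨k0, hk0⟩
  · exact ⟨s, fun k hk => hk.elim, fun q hq => (hρ q hq m0).1.elim⟩
  have hE : EP M (A β) (A γ) β γ := by
    rcases hβγ.eq_or_lt with rfl | h
    · exact fun s η ρ hs => ⟨s, fun k => ⟨hs k, fun _ _ => rfl,
        fun x h1 h2 => (h2.not_ge h1).elim⟩, fun j _ c h1 h2 => (h2.not_ge h1).elim⟩
    · exact hγ.ep β h
  obtain ⟨π, h1, h2⟩ := exists_enum I hI k0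
  choose! σ hσ using h1
  obtain ⟨ψ, h3, -⟩ := exists_enum (M := M)
    ((fun q => ((ρ q).1, fun m => (σ ((ρ q).2 m).1, σ ((ρ q).2 m).2))) '' J)
    (mk_image_le.trans hJ) (η, fun _ => (m0, m0))
  obtain ⟨t, ht1, ht2⟩ := hE (fun m => s (π m)) η ψ
    (fun m => hs _ ((h2 m).elim id fun e => e ▸ hk0))
  obtain ⟨v, hv⟩ := label (Sc.inf (B := Θ)) J hJ ρ
  refine ⟨fun k => update (t (σ k)) γ (v k, η), fun k hk => ⟨?_, fun x hx => ?_,
    fun x hx hx' => ?_⟩, fun q hq hq' c hc hc' => ?_⟩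
  · exact hγ.sat _ (ht1 _).1 _ fun x hx => (update_of_ne hx.ne _ _).symm
  · beta_reduce
    rw [update_of_ne (hx.trans_le hβγ).ne, (ht1 _).2.1 x hx, hσ k hk]
  · rcases hx'.eq_or_lt with rfl | h
    · simp
    · beta_reduce
      rw [update_of_ne h.ne]
      exact (ht1 _).2.2 x hx h
  · rcases hc'.eq_or_lt with rfl | h
    · obtain ⟨m, hm⟩ := hv q hq hq'
      exact ⟨m, by simpa using hm⟩
    · obtain ⟨j, hj⟩ := h3 _ ⟨q, hq, rfl⟩
      have hv' : Valid (ψ j) := by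
        rw [hj]
        refine ⟨fun m m' e => hq'.1 ?_, fun m m' e => hq'.2 ?_⟩
        · exact (hσ _ (hρ q hq m).1).symm.trans ((congrArg π e).trans (hσ _ (hρ q hq m').1))
        · exact (hσ _ (hρ q hq m).2).symm.trans ((congrArg π e).trans (hσ _ (hρ q hq m').2))
      obtain ⟨m, hm⟩ := ht2 j hv' c hc h
      rw [hj] at hm
      exact ⟨m, by simpa only [update_of_ne h.ne] using hm⟩

variable [WellFoundedLT Θ] [IsRegularCardinalOrder Θ] [WellFoundedLT K] [Sc M Θ]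

theorem build {α : K} (hA : ∀ γ < α, Lev M A γ (A γ)) {C : Set K} (hC1 : ∀ c ∈ C, c < α)
    (hC2 : ∀ x < α, ∃ c ∈ C, x ≤ c) (hC3 : ∀ c ∈ C, #(C ∩ Iio c : Set K) ≤ #M)
    {ι Q : Type u} (en : ι → K) (hen : ∀ k, en k ∈ C) (hen' : ∀ c ∈ C, #{k | en k < c} ≤ #M)
    (s : ι → K → Θ × Θ) (hs : ∀ k, s k ∈ A (en k)) (H : K → Θ) (ρ : Q → Θ × (M → ι × ι))
    (st : Q → K) (hst' : ∀ c ∈ C, #{q | st q < c} ≤ #M)
    (hρ : ∀ q m, en ((ρ q).2 m).1 ≤ st q ∧ en ((ρ q).2 m).2 ≤ st q) :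
    ∃ t : ι → K → Θ × Θ, (∀ k, (∀ γ < α, t k ∈ A γ) ∧ (∀ x ≤ en k, t k x = s k x) ∧
      ∀ c ∈ C, en k ≤ c → ∀ x, c < x → x < α → H c ≤ (t k x).2) ∧
      ∀ q, Valid (ρ q) → ∀ x, st q < x → x < α → Cov t (ρ q) x := by
  classical
  have h1 : ∀ c : K, ∃ b, (∀ c' ∈ C, c' < c → c' < b) ∧
      ∀ b', (∀ c' ∈ C, c' < c → c' < b') → b ≤ b' := fun c => exists_least ⟨c, fun _ _ h => h⟩
  choose b hb1 hb2 using h1
  have hb3 : ∀ c, b c ≤ c := fun c => hb2 c c fun _ _ h => h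
  have hb4 : ∀ c, ∀ x < b c, ∃ c' ∈ C, c' < c ∧ x ≤ c' := fun c x hx => by
    by_contra hh
    push Not at hh
    exact (hb2 c x hh).not_gt hx
  have h2 : ∀ x : K, ∃ c, x < α → (c ∈ C ∧ x ≤ c) ∧ ∀ c', c' ∈ C ∧ x ≤ c' → c ≤ c' := by
    intro x
    by_cases hx : x < α
    · obtain ⟨c, hc⟩ := exists_least (hC2 x hx)
      exact ⟨c, fun _ => hc⟩
    · exact ⟨x, fun h => (hx h).elim⟩
  choose sg hsg using h2
  have hsg1 : ∀ c ∈ C, ∀ x ≤ c, sg x ≤ c := fun c hc x hx =>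
    (hsg x (hx.trans_lt (hC1 c hc))).2 c ⟨hc, hx⟩
  have hsg2 : ∀ c, ∀ x < b c, sg x < c := fun c x hx => by
    obtain ⟨c', h1, h2, h3⟩ := hb4 c x hx
    exact (hsg1 c' h1 x h3).trans_lt h2
  have hsg3 : ∀ x < α, b (sg x) ≤ x := fun x hx => not_lt.1 fun h => (hsg2 _ x h).false
  have h3 : ∀ c : K, ∃ η, c ∈ C → ∀ c' ∈ C, c' < c → H c' ≤ η := by
    intro c
    by_cases hc : c ∈ C
    · obtain ⟨η, hη⟩ := bound_set M (hC3 c hc) H
      exact ⟨η, fun _ c' h1 h2 => (hη c' ⟨h1, h2⟩).le⟩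
    · exact ⟨H c, fun h => (hc h).elim⟩
  choose H2 hH2 using h3
  let P : K → (K → ι → K → Θ × Θ) → (ι → K → Θ × Θ) → Prop := fun c T X => c ∈ C →
    (∀ k, en k < c → X k ∈ A c ∧ (∀ x < b c, X k x = T (sg x) k x) ∧
      ∀ x, b c ≤ x → x ≤ c → H2 c ≤ (X k x).2) ∧ (∀ k, ¬ en k < c → X k = s k) ∧
    ∀ q, st q < c → Valid (ρ q) → ∀ x, b c ≤ x → x ≤ c → Cov X (ρ q) x
  have key : ∀ T, ∀ c ∈ C, (∀ j ≤ c, P j T (T j)) → ∀ k, en k ≤ c →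
      (fun x => T (sg x) k x) ∈ A c := by
    intro T c hc hP k hk
    have h4 : T c k ∈ A c := by
      rcases hk.eq_or_lt with e | h
      · rw [(hP c le_rfl hc).2.1 k e.not_lt, ← e]
        exact hs k
      · exact ((hP c le_rfl hc).1 k h).1
    refine (hA c (hC1 c hc)).sat _ h4 _ fun x hx => ?_
    have h5 := hsg x (hx.trans (hC1 c hc))
    have h6 := hsg1 c hc x hx.le
    rcases hk.eq_or_lt with e | h
    · rw [(hP c le_rfl hc).2.1 k e.not_lt, (hP _ h6 h5.1.1).2.1 k (not_lt.2 (h6.trans e.ge))]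
    · rcases lt_or_ge x (b c) with h7 | h7
      · exact ((hP c le_rfl hc).1 k h).2.1 x h7
      · rcases h6.eq_or_lt with e | h8
        · rw [e]
        · exact absurd (hb1 c _ h5.1.1 h8) (not_lt.2 (h7.trans h5.1.2))
  have hmax : ∀ c ∈ C, ∀ c' ∈ C, max c c' ∈ C := fun c hc c' hc' => by
    rcases le_total c c' with h | h
    · rwa [max_eq_right h]
    · rwa [max_eq_left h]
  have : Nonempty (ι → K → Θ × Θ) := ⟨s⟩
  obtain ⟨T, hT⟩ := exists_rec_spec P (fun c T T' X hTT hP hc => ⟨fun k hk =>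
    ⟨((hP hc).1 k hk).1, fun x hx => hTT _ (hsg2 c x hx) ▸ ((hP hc).1 k hk).2.1 x hx,
      ((hP hc).1 k hk).2.2⟩, (hP hc).2⟩) (fun c T hP => by
    by_cases hc : c ∈ C
    swap
    · exact ⟨s, fun h => (hc h).elim⟩
    obtain ⟨t, ht1, ht2⟩ := ext_closed (hb3 c) (hA c (hC1 c hc)) {k | en k < c} {q | st q < c}
      (hen' c hc) (hst' c hc) (fun k x => T (sg x) k x) (fun k hk => by
        refine (hA _ ((hb3 c).trans_lt (hC1 c hc))).lim ⟨C ∩ Iio c, hC3 c hc,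
          fun c' hc' => hb1 c c' hc'.1 hc'.2, fun x hx => ?_⟩ _ fun β hβ => ?_
        · obtain ⟨c', h1, h2, h3⟩ := hb4 c x hx
          exact ⟨c', ⟨h1, h2⟩, h3⟩
        · obtain ⟨c', h1, h2, h3⟩ := hb4 c β hβ
          have h4 := hmax c' h1 _ (hen k)
          have h5 : max c' (en k) < c := max_lt h2 hk
          exact (hA _ (hC1 _ h4)).down' (h3.trans (le_max_left _ _))
            (key T _ h4 (fun j hj => hP j (hj.trans_lt h5)) k (le_max_right _ _))) (H2 c) ρ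
      (fun q hq m => ⟨(hρ q m).1.trans_lt hq, (hρ q m).2.trans_lt hq⟩)
    refine ⟨fun k => if en k < c then t k else s k, fun _ => ⟨fun k hk => ?_, fun k hk => ?_,
      fun q hq hq' x h1 h2 => ?_⟩⟩
    · simp only [if_pos hk]
      exact ht1 k hk
    · simp only [if_neg hk]
    · obtain ⟨m, hm⟩ := ht2 q hq hq' x h1 h2
      refine ⟨m, ?_⟩
      simp only [if_pos ((hρ q m).1.trans_lt hq), if_pos ((hρ q m).2.trans_lt hq)]
      exact hm)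
  refine ⟨fun k x => T (sg x) k x, fun k => ⟨fun γ hγ => ?_, fun x hx => ?_,
    fun c hc hk x h1 h2 => ?_⟩, fun q hq x h1 h2 => ?_⟩
  · obtain ⟨c, hc, hc'⟩ := hC2 γ hγ
    have h4 := hmax c hc _ (hen k)
    exact (hA _ (hC1 _ h4)).down' (hc'.trans (le_max_left _ _))
      (key T _ h4 (fun j _ => hT j) k (le_max_right _ _))
  · have h5 := hsg x (hx.trans_lt (hC1 _ (hen k)))
    change T (sg x) k x = _
    rw [(hT _ h5.1.1).2.1 k (not_lt.2 (hsg1 _ (hen k) x hx))]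
  · have h5 := hsg x h2
    exact (hH2 _ h5.1.1 c hc (h1.trans_le h5.1.2)).trans
      (((hT _ h5.1.1).1 k (hk.trans_lt (h1.trans_le h5.1.2))).2.2 x (hsg3 x h2) h5.1.2)
  · have h5 := hsg x h2
    exact (hT _ h5.1.1).2.2 q (h1.trans_le h5.1.2) hq x (hsg3 x h2) h5.1.2

end Pool.Agent.Work.MP_4eca4b_lc.Ds
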