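import Pool.Agent.Work.MP_4eca4b_lc.DsOrder
import Pool.Agent.Work.MP_4eca4b_lc.Diag

/-!
Double successors.
-/

universe u

namespace Pool.Agent.Work.MP_4eca4b_lc.Ds

open Cardinal Set Order Function Pool.Agent.Lib.ClubGuess

theorem inK_of_two_pow_le {μ : Cardinal.{u}} (hμ : ℵ₀ ≤ μ) (h : 2 ^ μ ≤ succ μ) :
    InK (succ (succ μ)) := by
  have h1 := isRegularCardinalOrder_toType (isRegular_succ hμ)
  have h2 := isRegularCardinalOrder_toType (isRegular_succ (hμ.trans (le_succ μ)))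
  have h3 : Sc μ.ord.ToType (succ μ).ord.ToType := ⟨by simpa, by simp⟩
  have h4 : Pw μ.ord.ToType (succ μ).ord.ToType := ⟨by simpa⟩
  have h5 : Sc (succ μ).ord.ToType (succ (succ μ)).ord.ToType :=
    ⟨by simpa using hμ.trans (le_succ μ), by simp⟩
  simpa using inK_main μ.ord.ToType (succ μ).ord.ToType (succ (succ μ)).ord.ToType

theorem inK_of_two_pow_eq {μ : Cardinal.{u}} (hμ : ℵ₀ ≤ μ) (h : 2 ^ μ = succ (succ μ)) :
    InK (succ (succ μ)) := by
  classical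
  obtain ⟨ν, ⟨hν1, hν2⟩, hmin⟩ := wellFounded_lt.has_min {ν | ν ≤ μ ∧ succ (succ μ) ≤ 2 ^ ν}
    ⟨μ, le_rfl, h.ge⟩
  have hθ : ℵ₀ ≤ succ μ := hμ.trans (le_succ μ)
  have hν : ℵ₀ ≤ ν := not_lt.1 fun hh => ((hθ.trans (le_succ _)).trans hν2).not_gt
    (power_lt_aleph0 (natCast_lt_aleph0 (n := 2)) hh)
  have h1 := isRegularCardinalOrder_toType (isRegular_succ hμ)
  have h3 : Sc μ.ord.ToType (succ μ).ord.ToType := ⟨by simpa, by simp⟩
  let I := ν.ord.ToType
  let Nd := Σ α : I, (Iic α → Bool)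
  have hN : #Nd ≤ #(succ μ).ord.ToType := by
    rw [mk_sigma, mk_ord_toType]
    refine (sum_le_mk_mul_iSup _).trans ?_
    rw [mk_ord_toType, ← mul_eq_self hθ]
    refine mul_le_mul' (hν1.trans (le_succ μ)) (ciSup_le' fun α => ?_)
    have h4 := mk_Iic_toType_lt hν α
    have h5 : 2 ^ #(Iic α) < succ (succ μ) := not_le.1 fun hh => hmin _ ⟨h4.le.trans hν1, hh⟩ h4
    simpa using h5
  obtain ⟨cd⟩ : Nonempty (Nd ↪ (succ μ).ord.ToType) := (le_def _ _).1 hN
  let ex : Nd → Lex (I → Bool) := fun p =>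
    toLex fun β => if h : β ≤ p.1 then p.2 ⟨β, h⟩ else false
  choose b hb using fun x : I → Bool => bound μ.ord.ToType (ι := I) (by simpa [I] using hν1)
    fun α => cd ⟨α, fun β => x β⟩
  have hI : #(I → Bool) = succ (succ μ) := by
    refine le_antisymm ?_ (hν2.trans (by simp [I]))
    rw [← h]
    simpa [I] using power_le_power_left two_ne_zero hν1
  obtain ⟨η, hη⟩ := infinite_pigeonhole b (by rw [hI]; exact hθ.trans (le_succ _)) (by
    rw [hI, (isRegular_succ hθ).cof_ord, mk_ord_toType]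
    exact lt_succ _)
  let D : Set (Lex (I → Bool)) := ex '' (cd ⁻¹' Iio η)
  let L : Set (Lex (I → Bool)) := D ∪ toLex '' (b ⁻¹' {η})
  refine inK_of_dense (L := L) (D := Subtype.val ⁻¹' D) hμ ?_ (fun x y hxy => ?_) ?_ h.ge
    (by rw [h])
  · refine (mk_preimage_of_injective _ _ Subtype.val_injective).trans (mk_image_le.trans
      ((mk_preimage_of_injective _ _ cd.injective).trans ?_))
    simpa using mk_Iio_le μ.ord.ToType η
  · obtain ⟨y, hy | ⟨y, hy, rfl⟩⟩ := y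
    · exact ⟨_, hy, hxy.le, le_rfl⟩
    obtain ⟨i, hi, hlt⟩ := hxy
    have h4 : ex ⟨i, fun β => y β⟩ ∈ D := ⟨_, (hb y i).trans_eq hy, rfl⟩
    refine ⟨⟨_, Or.inl h4⟩, h4, le_of_lt ⟨i, fun j hj => ?_, ?_⟩, ?_⟩
    · simpa [ex, hj.le] using hi j hj
    · simpa [ex] using hlt
    · refine Pi.toLex_monotone (a := ofLex (ex ⟨i, fun β => y β⟩)) (b := y) fun β => ?_
      by_cases h : β ≤ i <;> simp [ex, h]
  · rw [h, ← hI, ← hη, ← mk_image_eq toLex.injective]
    exact mk_le_mk_of_subset subset_union_right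

theorem inK_succ_succ {μ : Cardinal.{u}} (hμ : ℵ₀ ≤ μ) (h : 2 ^ μ ≤ succ (succ μ)) :
    InK (succ (succ μ)) := by
  rcases h.eq_or_lt with h' | h'
  · exact inK_of_two_pow_eq hμ h'
  · exact inK_of_two_pow_le hμ (lt_succ_iff.1 h')

end Pool.Agent.Work.MP_4eca4b_lc.Ds
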