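import Pool.Agent.Work.MP_4eca4b_lc.DsTree
import Pool.Agent.Work.MP_4eca4b_lc.Defs
import Mathlib.Order.Extension.Linear

/-!
The coded lexicographic order.
-/

universe u

namespace Pool.Agent.Work.MP_4eca4b_lc.Ds

open Cardinal Set Order Function Pool.Agent.Lib.ClubGuess

/-- The data from which the order is built. -/
structure Dat (Θ K : Type u) where
  e : K → Θ → K
  idx : K → K → Θ
  sg : K → K → Bool
  r : K → Θ → Bool

/-- A fixed linear order or its reverse. -/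
def tw {X : Type u} (b : Bool) (A B : X) : Prop :=
  cond b (WellOrderingRel A B) (WellOrderingRel B A)

theorem tw_irrefl {X : Type u} (b : Bool) (A : X) : ¬ tw b A A := by
  cases b <;> exact irrefl_of WellOrderingRel A

theorem tw_trans {X : Type u} {b : Bool} {A B C : X} (h : tw b A B) (h' : tw b B C) :
    tw b A C := by
  cases b
  · exact trans_of WellOrderingRel h' h
  · exact trans_of WellOrderingRel h h'

theorem tw_total {X : Type u} (b : Bool) {A B : X} (h : A ≠ B) : tw b A B ∨ tw b B A := by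
  rcases trichotomous_of WellOrderingRel A B with h' | h' | h'
  · cases b
    · exact Or.inr h'
    · exact Or.inl h'
  · exact (h h').elim
  · cases b
    · exact Or.inl h'
    · exact Or.inr h'

theorem tw_ne {X : Type u} {b b' : Bool} (h : b ≠ b') {A B : X} (h' : tw b A B) : tw b' B A := by
  cases b <;> cases b' <;> first | exact (h rfl).elim | exact h'

namespace Dat

variable {Θ K : Type u} (D : Dat Θ K)

/-- Evaluation of an address. -/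
def ev : K → List Θ → K
  | β, [] => β
  | β, i :: l => ev (D.e β i) l

theorem ev_append (β : K) (l l' : List Θ) : D.ev β (l ++ l') = D.ev (D.ev β l) l' := by
  induction l generalizing β with
  | nil => rfl
  | cons i l ih => exact ih _

variable [LinearOrder K]

theorem ev_le (h : ∀ β i, D.e β i ≤ β) (β : K) (l : List Θ) : D.ev β l ≤ β := by
  induction l generalizing β with
  | nil => exact le_rfl
  | cons i l ih => exact (ih _).trans (h β i)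

/-- The structures generated by `y` and `y'` with addresses in `P` agree. -/
def Ag (P : Set Θ) (y y' : K) : Prop :=
  ∀ l l' : List Θ, (∀ a ∈ l, a ∈ P) → (∀ a ∈ l', a ∈ P) →
    ((D.ev y l < D.ev y l' ↔ D.ev y' l < D.ev y' l') ∧
      D.idx (D.ev y l) (D.ev y l') = D.idx (D.ev y' l) (D.ev y' l') ∧
      D.sg (D.ev y l) (D.ev y l') = D.sg (D.ev y' l) (D.ev y' l')) ∧
    ∀ i ∈ P, D.r (D.ev y l) i = D.r (D.ev y' l) i

variable {D}

theorem Ag.rfl {P : Set Θ} {y : K} : D.Ag P y y :=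
  fun _ _ _ _ => ⟨⟨Iff.rfl, Eq.refl _, Eq.refl _⟩, fun _ _ => Eq.refl _⟩

theorem Ag.symm {P : Set Θ} {y y' : K} (h : D.Ag P y y') : D.Ag P y' y := fun l l' h1 h2 =>
  let ⟨⟨a, b, c⟩, d⟩ := h l l' h1 h2
  ⟨⟨a.symm, b.symm, c.symm⟩, fun i hi => (d i hi).symm⟩

theorem Ag.trans {P : Set Θ} {x y z : K} (h : D.Ag P x y) (h' : D.Ag P y z) : D.Ag P x z :=
  fun l l' h1 h2 =>
  let ⟨⟨a, b, c⟩, d⟩ := h l l' h1 h2
  let ⟨⟨a', b', c'⟩, d'⟩ := h' l l' h1 h2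
  ⟨⟨a.trans a', b.trans b', c.trans c'⟩, fun i hi => (d i hi).trans (d' i hi)⟩

theorem Ag.mono {P P' : Set Θ} {y y' : K} (h : D.Ag P y y') (hP : P' ⊆ P) : D.Ag P' y y' :=
  fun l l' h1 h2 =>
  let ⟨a, d⟩ := h l l' (fun a ha => hP (h1 a ha)) fun a ha => hP (h2 a ha)
  ⟨a, fun i hi => d i (hP hi)⟩

theorem Ag.shift {P : Set Θ} {y y' : K} (h : D.Ag P y y') {l : List Θ} (hl : ∀ a ∈ l, a ∈ P) :
    D.Ag P (D.ev y l) (D.ev y' l) := fun l1 l2 h1 h2 => by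
  have := h (l ++ l1) (l ++ l2) (List.forall_mem_append.2 ⟨hl, h1⟩)
    (List.forall_mem_append.2 ⟨hl, h2⟩)
  simpa only [ev_append] using this

theorem Ag.lt_iff {P : Set Θ} {y y' : K} (h : D.Ag P y y') {l l' : List Θ}
    (hl : ∀ a ∈ l, a ∈ P) (hl' : ∀ a ∈ l', a ∈ P) :
    D.ev y l < D.ev y l' ↔ D.ev y' l < D.ev y' l' := (h l l' hl hl').1.1

theorem Ag.sg_eq {P : Set Θ} {y y' : K} (h : D.Ag P y y') {l : List Θ} (hl : ∀ a ∈ l, a ∈ P) :
    D.sg (D.ev y l) y = D.sg (D.ev y' l) y' := (h l [] hl (by simp)).1.2.2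

variable [LinearOrder Θ] (D)

/-- The class of `c` at level `η`. -/
def cls (η : Θ) (c : K) : Set K := {c' | D.Ag (Iic η) c c'}

/-- The strict order. -/
def Lt (y y' : K) : Prop :=
  ∃ η l, (∀ a ∈ l, a ∈ Iio η) ∧ D.Ag (Iio η) y y' ∧
    (∀ l', (∀ a ∈ l', a ∈ Iio η) → D.ev y l' < D.ev y l →
      D.Ag (Iic η) (D.ev y l') (D.ev y' l')) ∧
    tw (D.sg (D.ev y l) y) (D.cls η (D.ev y l)) (D.cls η (D.ev y' l))

variable {D}

theorem Ag.cls_eq {η : Θ} {c c' : K} (h : D.Ag (Iic η) c c') : D.cls η c = D.cls η c' :=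
  Set.ext fun _ => ⟨fun h' => h.symm.trans h', fun h' => h.trans h'⟩

theorem ag_of_cls_eq {η : Θ} {c c' : K} (h : D.cls η c = D.cls η c') : D.Ag (Iic η) c c' := by
  have : c' ∈ D.cls η c' := Ag.rfl
  rwa [← h] at this

theorem lt_of_tw {y y' : K} {η : Θ} {l : List Θ} (hl : ∀ a ∈ l, a ∈ Iio η)
    (h : D.Ag (Iio η) y y') (hm : ∀ l', (∀ a ∈ l', a ∈ Iio η) → D.ev y l' < D.ev y l →
      D.Ag (Iic η) (D.ev y l') (D.ev y' l'))
    (ht : tw (D.sg (D.ev y l) y) (D.cls η (D.ev y' l)) (D.cls η (D.ev y l))) : D.Lt y' y :=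
  ⟨η, l, hl, h.symm, fun l' hl' h' => (hm l' hl' ((h.lt_iff hl' hl).2 h')).symm,
    h.sg_eq hl ▸ ht⟩

theorem Lt.trans {x y z : K} (h : D.Lt x y) (h' : D.Lt y z) : D.Lt x z := by
  obtain ⟨η, l, hl, h1, h2, h3⟩ := h
  obtain ⟨η', l', hl', h1', h2', h3'⟩ := h'
  rcases lt_trichotomy η η' with h | rfl | h
  · have h4 : D.Ag (Iic η) y z := h1'.mono fun a ha => lt_of_le_of_lt ha h
    refine ⟨η, l, hl, h1.trans (h4.mono Iio_subset_Iic_self), fun l0 hl0 h5 =>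
      (h2 l0 hl0 h5).trans (h4.shift fun a ha => le_of_lt (hl0 a ha)), ?_⟩
    rwa [← (h4.shift fun a ha => le_of_lt (hl a ha)).cls_eq]
  · rcases lt_trichotomy (D.ev y l) (D.ev y l') with h | h | h
    · refine ⟨η, l, hl, h1.trans h1', fun l0 hl0 h5 =>
        (h2 l0 hl0 h5).trans (h2' l0 hl0 (((h1.lt_iff hl0 hl).1 h5).trans h)), ?_⟩
      rwa [← (h2' l hl h).cls_eq]
    · have h4 : D.ev z l = D.ev z l' := le_antisymm
        (not_lt.1 fun h5 => ((h1'.lt_iff hl' hl).2 h5).ne' h)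
        (not_lt.1 fun h5 => ((h1'.lt_iff hl hl').2 h5).ne h)
      refine ⟨η, l, hl, h1.trans h1', fun l0 hl0 h5 =>
        (h2 l0 hl0 h5).trans (h2' l0 hl0 (((h1.lt_iff hl0 hl).1 h5).trans_eq h)), ?_⟩
      rw [← h, ← h4, ← h1.sg_eq hl] at h3'
      exact tw_trans h3 h3'
    · have h4 := (h1.lt_iff hl' hl).2 h
      refine ⟨η, l', hl', h1.trans h1', fun l0 hl0 h5 =>
        (h2 l0 hl0 (h5.trans h4)).trans (h2' l0 hl0 ((h1.lt_iff hl0 hl').1 h5)), ?_⟩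
      rwa [(h2 l' hl' h4).cls_eq, h1.sg_eq hl']
  · have h4 : D.Ag (Iic η') x y := h1.mono fun a ha => lt_of_le_of_lt ha h
    have h6 := h4.mono Iio_subset_Iic_self
    refine ⟨η', l', hl', h6.trans h1', fun l0 hl0 h5 =>
      (h4.shift fun a ha => le_of_lt (hl0 a ha)).trans (h2' l0 hl0 ((h6.lt_iff hl0 hl').1 h5)), ?_⟩
    rwa [(h4.shift fun a ha => le_of_lt (hl' a ha)).cls_eq, h6.sg_eq hl']

instance : IsStrictOrder K D.Lt where
  irrefl _ := fun ⟨_, _, _, _, _, h⟩ => tw_irrefl _ _ h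
  trans _ _ _ := Lt.trans

theorem ag_Iio {η0 η : Θ} (h0 : η0 < η) {y y' : K} (h : ∀ ξ < η, D.Ag (Iic ξ) y y') :
    D.Ag (Iio η) y y' := by
  have key : ∀ l : List Θ, (∀ a ∈ l, a ∈ Iio η) → ∃ ξ < η, ∀ a ∈ l, a ≤ ξ := by
    intro l hl
    induction l with
    | nil => exact ⟨η0, h0, by simp⟩
    | cons i l ih =>
      obtain ⟨ξ, h1, h2⟩ := ih fun a ha => hl a (List.mem_cons_of_mem _ ha)
      refine ⟨max i ξ, max_lt (hl i List.mem_cons_self) h1, fun a ha => ?_⟩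
      rcases List.mem_cons.1 ha with rfl | ha
      · exact le_max_left _ _
      · exact (h2 a ha).trans (le_max_right _ _)
  intro l l' h1 h2
  obtain ⟨ξ, h3, h4⟩ := key (l ++ l') (List.forall_mem_append.2 ⟨h1, h2⟩)
  rw [List.forall_mem_append] at h4
  refine ⟨(h ξ h3 l l' h4.1 h4.2).1, fun i hi => ?_⟩
  exact (h (max i ξ) (max_lt hi h3) l [] (fun a ha => (h4.1 a ha).trans (le_max_right _ _))
    (by simp)).2 i (le_max_left i ξ)

variable (M : Type u) [WellFoundedLT Θ] [IsRegularCardinalOrder Θ] [Sc M Θ] [Pw M Θ] (D)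

include M in
theorem exists_code (η : Θ) : ∃ cd : K → Θ, ∀ y y', cd y = cd y' → D.Ag (Iic η) y y' := by
  have hM : ℵ₀ ≤ #M := Sc.inf (B := Θ)
  have hΘ : ℵ₀ ≤ #Θ := (Sc.unc M).le
  have h1 : #(List (Iic η)) ≤ #M :=
    (mk_list_le_max _).trans (max_le hM (mk_Iic_le M η))
  obtain ⟨f⟩ : Nonempty ((List (Iic η) × List (Iic η) × Iic η →
      Θ × ULift.{u} (Prop × Bool × Bool)) ↪ Θ) := (le_def _ _).1
    (le_fun M (le_prod hM h1 (le_prod hM h1 (mk_Iic_le M η)))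
      (le_prod hΘ le_rfl (mk_le_aleph0.trans hΘ)))
  refine ⟨fun y => f fun p => (D.idx (D.ev y (p.1.map (↑))) (D.ev y (p.2.1.map (↑))),
    ⟨D.ev y (p.1.map (↑)) < D.ev y (p.2.1.map (↑)),
      D.sg (D.ev y (p.1.map (↑))) (D.ev y (p.2.1.map (↑))), D.r (D.ev y (p.1.map (↑))) p.2.2⟩),
    fun y y' h l l' hl hl' => ?_⟩
  lift l to List (Iic η) using hl
  lift l' to List (Iic η) using hl'
  have h2 := fun i => congrFun (f.injective h) (l, l', i)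
  simp only [Prod.mk.injEq, ULift.up.injEq, eq_iff_iff] at h2
  exact ⟨⟨(h2 ⟨η, le_rfl⟩).2.1, (h2 ⟨η, le_rfl⟩).1, (h2 ⟨η, le_rfl⟩).2.2.1⟩,
    fun i hi => (h2 ⟨i, hi⟩).2.2.2⟩

variable [WellFoundedLT K] [IsRegularCardinalOrder K] [Sc Θ K]

theorem cross (he : ∀ β i, D.e β i ≤ β) (hi : ∀ c β, c ≤ β → D.e β (D.idx c β) = c)
    (hr : Injective D.r) {R : Set (K × K)} {γ : K} (g : K → M → K × K)
    (hg1 : ∀ δ m, g δ m ∈ R ∧ δ ≤ (g δ m).1 ∧ δ ≤ (g δ m).2)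
    (hg2 : ∀ δ c, γ < c → c < δ → ∃ m, D.sg c (g δ m).1 ≠ D.sg c (g δ m).2) :
    ∃ p ∈ R, ∃ q ∈ R, D.Lt p.1 q.1 ∧ D.Lt q.2 p.2 := by
  have hM : ℵ₀ ≤ #M := Sc.inf (B := Θ)
  have hΘ : ℵ₀ ≤ #Θ := (Sc.unc M).le
  have hMΘ : #M ≤ #Θ := (Sc.lt M).le
  obtain ⟨m0⟩ := Sc.ne' M Θ
  choose G hG using fun δ => bound Θ hMΘ fun m => max (g δ m).1 (g δ m).2
  let d : K → ℕ → K := fun δ k => G^[k] (max δ γ)
  have hd : ∀ δ k, d δ (k + 1) = G (d δ k) := fun δ k => iterate_succ_apply' _ _ _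
  let N := M × ULift.{u} (ℕ × Bool)
  have hN : #N ≤ #M := le_prod hM le_rfl (mk_le_aleph0.trans hM)
  let x : K → N → K := fun δ n =>
    cond n.2.down.2 (g (d δ n.2.down.1) n.1).1 (g (d δ n.2.down.1) n.1).2
  have hx1 : ∀ δ n, d δ n.2.down.1 ≤ x δ n := by
    rintro δ ⟨m, k, _ | _⟩
    · exact (hg1 _ _).2.2
    · exact (hg1 _ _).2.1
  have hx2 : ∀ δ n, x δ n < d δ (n.2.down.1 + 1) := by
    rintro δ ⟨m, k, _ | _⟩ <;> rw [hd]
    · exact (le_max_right _ _).trans_lt (hG _ _)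
    · exact (le_max_left _ _).trans_lt (hG _ _)
  have hx3 : ∀ δ n, max δ γ ≤ x δ n := fun δ n =>
    (monotone_nat_of_le_succ (f := d δ) (fun k => (hx1 δ (m0, ⟨k, true⟩)).trans (hx2 δ _).le)
      (Nat.zero_le _)).trans (hx1 δ n)
  choose η0 hη0 using fun δ => bound M (le_prod hM hN hN)
    fun p : N × N => max (D.idx (x δ p.1) (x δ p.2)) (D.idx γ (x δ p.1))
  choose cd hcd using D.exists_code M
  obtain ⟨y, hy⟩ := pigeon Θ (B := K) (Y := Θ × (N × N → Θ × Θ × Θ))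
    (le_prod hΘ le_rfl (le_fun M (le_prod hM hN hN) (le_prod hΘ le_rfl (le_prod hΘ le_rfl le_rfl))))
    (fun y b => ∃ δ, b ≤ δ ∧ (η0 δ, fun p : N × N => (cd (η0 δ) (x δ p.1),
      D.idx (x δ p.1) (x δ p.2), D.idx γ (x δ p.1))) = y)
    (fun y b b' h ⟨δ, h1, h2⟩ => ⟨δ, h.trans h1, h2⟩) fun b => ⟨_, b, le_rfl, rfl⟩
  obtain ⟨δ, -, hδ⟩ := hy γ
  obtain ⟨b, hb⟩ := bound Θ (hN.trans hMΘ) (x δ)
  obtain ⟨δ', hδ1, hδ'⟩ := hy b
  obtain ⟨h1, h2⟩ := Prod.ext_iff.1 (hδ.trans hδ'.symm)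
  have h3 := fun n n' => congrFun h2 (n, n')
  simp only [Prod.mk.injEq] at h1 h3
  rw [← h1] at h3
  have h4 : ∃ η, ∃ n, ¬ D.Ag (Iic η) (x δ n) (x δ' n) := by
    let n : N := (m0, ⟨0, true⟩)
    have h5 : x δ n ≠ x δ' n := ((hb n).trans_le (hδ1.trans ((le_max_left _ _).trans (hx3 _ _)))).ne
    obtain ⟨η, hη⟩ := ne_iff.1 (hr.ne h5)
    exact ⟨η, n, fun h => hη ((h [] [] (by simp) (by simp)).2 η le_rfl)⟩
  obtain ⟨η, ⟨n0, hn0⟩, hη⟩ := exists_least h4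
  have h5 : η0 δ < η := not_le.1 fun h => hn0 ((hcd _ _ _ (h3 n0 n0).1).mono (Iic_subset_Iic.2 h))
  have h6 : ∀ n, D.Ag (Iio η) (x δ n) (x δ' n) := fun n => ag_Iio h5 fun ξ hξ => by
    by_contra hh
    exact (hη ξ ⟨n, hh⟩).not_gt hξ
  obtain ⟨_, ⟨n, l, hl, rfl, h7⟩, h8⟩ := exists_least (P := fun c => ∃ n l,
    (∀ a ∈ l, a ∈ Iio η) ∧ D.ev (x δ n) l = c ∧ ¬ D.Ag (Iic η) c (D.ev (x δ' n) l))
    ⟨_, n0, [], by simp, rfl, hn0⟩
  have h9 : γ < D.ev (x δ n) l := by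
    by_contra hh
    have e1 : D.ev (x δ n) [D.idx γ (x δ n)] = γ := hi _ _ ((le_max_right _ _).trans (hx3 _ _))
    have e2 : D.ev (x δ' n) [D.idx γ (x δ n)] = γ := by
      rw [(h3 n n).2.2]
      exact hi _ _ ((le_max_right _ _).trans (hx3 _ _))
    have hl' : ∀ a ∈ [D.idx γ (x δ n)], a ∈ Iio η := by
      simpa using ((le_max_right _ _).trans_lt (hη0 δ (n, n))).trans h5
    have h10 := (h6 n).lt_iff hl' hl
    have h11 := (h6 n l _ hl hl').1.2.1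
    rw [e1, e2] at h10 h11
    have h12 := hi _ _ (not_lt.1 hh)
    rw [h11, hi _ _ (not_lt.1 fun h => hh (h10.2 h))] at h12
    exact h7 (h12 ▸ Ag.rfl)
  obtain ⟨m, hm⟩ := hg2 _ _ h9 ((D.ev_le he _ _).trans_lt (hx2 δ n))
  have key : ∀ n' : N, n'.2.down.1 = n.2.down.1 + 1 →
      (tw (D.sg (D.ev (x δ n) l) (x δ n')) (D.cls η (D.ev (x δ n) l)) (D.cls η (D.ev (x δ' n) l)) →
        D.Lt (x δ n') (x δ' n')) ∧
      (tw (D.sg (D.ev (x δ n) l) (x δ n')) (D.cls η (D.ev (x δ' n) l)) (D.cls η (D.ev (x δ n) l)) →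
        D.Lt (x δ' n') (x δ n')) := by
    intro n' hn'
    have e0 : ∀ δ, D.ev (x δ n') (D.idx (x δ n) (x δ n') :: l) = D.ev (x δ n) l := fun δ =>
      congrArg (D.ev · l) (hi _ _ ((hx2 δ n).le.trans (hn' ▸ hx1 δ n')))
    have e1 := e0 δ
    have e2 := e0 δ'
    rw [← (h3 n n').2.1] at e2
    have hl' : ∀ a ∈ D.idx (x δ n) (x δ n') :: l, a ∈ Iio η := List.forall_mem_cons.2
      ⟨((le_max_left _ _).trans_lt (hη0 δ (n, n'))).trans h5, hl⟩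
    have h10 : ∀ l', (∀ a ∈ l', a ∈ Iio η) →
        D.ev (x δ n') l' < D.ev (x δ n') (D.idx (x δ n) (x δ n') :: l) →
        D.Ag (Iic η) (D.ev (x δ n') l') (D.ev (x δ' n') l') := fun l' h h' => by
      by_contra hh
      exact (h8 _ ⟨n', l', h, rfl, hh⟩).not_gt (e1 ▸ h')
    rw [← e1, ← e2]
    exact ⟨fun h => ⟨η, _, hl', h6 n', h10, h⟩, lt_of_tw hl' (h6 n') h10⟩
  have k1 := key (m, ⟨n.2.down.1 + 1, true⟩) rfl
  have k2 := key (m, ⟨n.2.down.1 + 1, false⟩) rfl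
  rcases tw_total _ (fun h => h7 (ag_of_cls_eq h)) with h | h
  · exact ⟨_, (hg1 _ m).1, _, (hg1 _ m).1, k1.1 h, k2.2 (tw_ne hm h)⟩
  · exact ⟨_, (hg1 _ m).1, _, (hg1 _ m).1, k1.2 h, k2.1 (tw_ne hm h)⟩

end Dat

/-- The carrier of the strict order. -/
def Wr {Θ K : Type u} (_ : Dat Θ K) : Type u := K

instance {Θ K : Type u} [LinearOrder Θ] [LinearOrder K] (D : Dat Θ K) : PartialOrder (Wr D) :=
  partialOrderOfSO (α := K) D.Lt

theorem inK_main (M Θ K : Type u) [LinearOrder Θ] [WellFoundedLT Θ] [IsRegularCardinalOrder Θ]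
    [LinearOrder K] [WellFoundedLT K] [IsRegularCardinalOrder K] [Sc M Θ] [Pw M Θ] [Sc Θ K] :
    InK #K := by
  have hΘ : ℵ₀ ≤ #Θ := (Sc.unc M).le
  obtain ⟨ℓ, hℓ⟩ := exists_label M Θ K
  obtain ⟨r0⟩ : Nonempty (K ↪ Set Θ) := by
    rw [← le_def, mk_set]
    exact Sc.le_of_gt Θ (cantor _)
  classical
  let r : K → Θ → Bool := fun β i => decide (i ∈ r0 β)
  have hr : Injective r := fun a b h => r0.injective (Set.ext fun i => by
    simpa [r] using congrFun h i)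
  have := Sc.ne (B := Θ) M
  choose e he1 he2 using fun β : K => exists_onto Θ β
  choose! idx hidx using he2
  let D : Dat Θ K := ⟨e, fun c β => idx β c, fun c β => r β (ℓ β c), r⟩
  have hmono : StrictMono (toLinearExtension (α := Wr D)) :=
    toLinearExtension.monotone.strictMono_of_injective fun _ _ h => h
  refine inK_of_injective (L := LinearExtension (Wr D)) (fun a => toLinearExtension (α := Wr D) a)
    (fun _ _ h => h) (Sc.unc Θ).le fun R h1 h2 => not_le.1 fun hR => ?_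
  have hinc : Inc (C := LinearExtension (Wr D)) R := ⟨h1, h2⟩
  have h3 : ∀ δ, ∃ p ∈ R, δ ≤ p.1 ∧ δ ≤ p.2 := by
    intro δ
    have h4 : #(R ∩ Prod.fst ⁻¹' Iio δ ∪ R ∩ Prod.snd ⁻¹' Iio δ : Set (K × K)) ≤ #Θ :=
      le_union hΘ
        ((mk_le_of_injective (f := fun p : (R ∩ Prod.fst ⁻¹' Iio δ : Set (K × K)) =>
          (⟨p.1.1, p.2.2⟩ : Iio δ)) fun p q h => Subtype.ext
            (hinc.eq_of_fst p.2.1 q.2.1 (congrArg Subtype.val h))).trans (mk_Iio_le Θ δ))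
        ((mk_le_of_injective (f := fun p : (R ∩ Prod.snd ⁻¹' Iio δ : Set (K × K)) =>
          (⟨p.1.2, p.2.2⟩ : Iio δ)) fun p q h => Subtype.ext
            (hinc.eq_of_snd p.2.1 q.2.1 (congrArg Subtype.val h))).trans (mk_Iio_le Θ δ))
    obtain ⟨p, hp, hp'⟩ := exists_notMem_of_lt ((h4.trans_lt (Sc.lt Θ)).trans_le hR)
    exact ⟨p, hp, not_lt.1 fun h => hp' (Or.inl ⟨hp, h⟩), not_lt.1 fun h => hp' (Or.inr ⟨hp, h⟩)⟩
  obtain ⟨ζ, hζ⟩ := pigeon Θ (B := K) (le_refl #Θ)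
    (fun ζ δ => ∃ p ∈ {p ∈ R | r p.1 ζ ≠ r p.2 ζ}, δ ≤ p.1 ∧ δ ≤ p.2)
    (fun ζ b b' h ⟨p, h1, h2, h3⟩ => ⟨p, h1, h.trans h2, h.trans h3⟩) fun δ => by
      obtain ⟨p, hp, hp'⟩ := h3 δ
      obtain ⟨ζ, hζ⟩ := ne_iff.1 (hr.ne (h1 p hp))
      exact ⟨ζ, p, ⟨hp, hζ⟩, hp'⟩
  obtain ⟨γ, hγ⟩ := hℓ _ hζ ζ
  choose g hg1 hg2 using hγ
  obtain ⟨p, hp, q, hq, h4, h5⟩ := D.cross M he1 (fun c β h => hidx β c h) hr g hg1
    fun δ c h4 h5 => by
      obtain ⟨m, h6, h7⟩ := hg2 δ c h4 h5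
      refine ⟨m, ?_⟩
      change r _ (ℓ _ _) ≠ r _ (ℓ _ _)
      rw [h6, h7]
      exact (hg1 δ m).1.2
  exact ((h2 p hp.1 q hq.1).1 (hmono h4)).not_gt (hmono h5)

end Pool.Agent.Work.MP_4eca4b_lc.Ds
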