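import Pool.Agent.Work.MP_4eca4b_lc.DsBuild

/-!
The labelled tree and the covering property of its labels.
-/

universe u

namespace Pool.Agent.Work.MP_4eca4b_lc.Ds

open Cardinal Set Order Function Pool.Agent.Lib.ClubGuess

theorem le_insert {X : Type u} {S : Set X} {c : Cardinal.{u}} (hc : ℵ₀ ≤ c) (h : #S ≤ c) (x : X) :
    #(insert x S : Set X) ≤ c :=
  mk_insert_le.trans ((add_le_add h (one_le_aleph0.trans hc)).trans (add_eq_self hc).le)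

theorem le_fst {X Y : Type u} {c : Cardinal.{u}} (hc : ℵ₀ ≤ c) (P : X → Prop)
    (h1 : #{x | P x} ≤ c) (h2 : #Y ≤ c) : #{k : X × Y | P k.1} ≤ c := by
  refine (mk_le_of_injective (f := fun k : {k : X × Y | P k.1} =>
    ((⟨k.1.1, k.2⟩ : {x | P x}), k.1.2)) ?_).trans (le_prod hc h1 h2)
  rintro ⟨⟨a, b⟩, h⟩ ⟨⟨a', b'⟩, h'⟩ e
  simpa using e

variable {M Θ K : Type u} [LinearOrder Θ] [LinearOrder K] {A : K → Set (K → Θ × Θ)}
  [WellFoundedLT Θ] [IsRegularCardinalOrder Θ] [WellFoundedLT K] [Sc M Θ] [Pw M Θ]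

theorem lev_small {α : K} (hA : ∀ γ < α, Lev M A γ (A γ)) (hα : Small M α) :
    Lev M A α {t | ∀ β < α, t ∈ A β} := by
  have hM : ℵ₀ ≤ #M := Sc.inf (B := Θ)
  have hΘ : ℵ₀ ≤ #Θ := (Sc.unc M).le
  refine ⟨fun t ht t' h β hβ => (hA β hβ).sat t (ht β hβ) t' fun x hx => h x (hx.trans hβ),
    fun β hβ t ht => ht β hβ, fun _ t ht => ht, ?_, fun t ht η => ?_, fun β hβ s η ρ hs => ?_,
    fun h => (h hα).elim⟩
  all_goals obtain ⟨C, hC0, hC1, hC2⟩ := hα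
  · choose f hf using fun c : C => (hA c (hC1 c c.2)).card
    obtain ⟨e⟩ : Nonempty ((C → Θ × Θ × Θ) ↪ Θ) :=
      (le_def _ _).1 (le_fun M hC0 (le_prod hΘ le_rfl (le_prod hΘ le_rfl le_rfl)))
    refine ⟨fun t => e fun c => (f c t, t c), fun t ht t' ht' h x hx => ?_⟩
    obtain ⟨c, hc, hxc⟩ := hC2 x hx
    have := congrFun (e.injective h) ⟨c, hc⟩
    rcases hxc.eq_or_lt with rfl | h'
    · exact congrArg Prod.snd this
    · exact hf ⟨c, hc⟩ t (ht c (hC1 c hc)) t' (ht' c (hC1 c hc)) (congrArg Prod.fst this) x h'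
  · refine (mk_le_mk_of_subset (t := ⋃ c : C, insert c.1 {x | x < c.1 ∧ (t x).2 ≤ η}) ?_).trans
      (le_iUnion hM hC0 fun c => le_insert hM ((hA c (hC1 c c.2)).fib t (ht c (hC1 c c.2)) η) _)
    rintro x ⟨h1, h2⟩
    obtain ⟨c, hc, hxc⟩ := hC2 x h1
    exact mem_iUnion.2 ⟨⟨c, hc⟩, hxc.eq_or_lt.imp id fun h => ⟨h, h2⟩⟩
  · obtain ⟨c0, hc0, hβc⟩ := hC2 β hβ
    obtain ⟨s', h1, h2⟩ := ext_closed hβc (hA c0 (hC1 c0 hc0)) univ univ mk_univ.le mk_univ.le s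
      (fun k _ => hs k) η ρ (fun _ _ _ => ⟨trivial, trivial⟩)
    obtain ⟨t, h3, h4⟩ := build hA hC1 hC2
      (fun c _ => (mk_le_mk_of_subset inter_subset_left).trans hC0) (fun _ : M => c0)
      (fun _ => hc0) (fun c _ => mk_set_le _) s' (fun k => (h1 k trivial).1) (fun _ => η) ρ
      (fun _ => c0) (fun c _ => mk_set_le _) (fun _ _ => ⟨le_rfl, le_rfl⟩)
    refine ⟨t, fun k => ⟨(h3 k).1, fun x hx => ((h3 k).2.1 x (hx.le.trans hβc)).trans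
      ((h1 k trivial).2.1 x hx), fun x hx hx' => ?_⟩, fun j hj c hc hc' => ?_⟩
    · rcases le_or_gt x c0 with h | h
      · rw [(h3 k).2.1 x h]
        exact (h1 k trivial).2.2 x hx h
      · exact (h3 k).2.2 c0 hc0 le_rfl x h hx'
    · rcases le_or_gt c c0 with h | h
      · obtain ⟨m, hm⟩ := h2 j trivial hj c hc h
        exact ⟨m, by rw [(h3 _).2.1 c h, (h3 _).2.1 c h]; exact hm⟩
      · exact h4 j hj c h hc'

variable [IsRegularCardinalOrder K] [Sc Θ K]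

theorem lev_big {α : K} (hA : ∀ γ < α, Lev M A γ (A γ)) (hα : ¬ Small M α) :
    ∃ X, Lev M A α X := by
  classical
  have hM : ℵ₀ ≤ #M := Sc.inf (B := Θ)
  have hΘ : ℵ₀ ≤ #Θ := (Sc.unc M).le
  have hMΘ : #M ≤ #Θ := (Sc.lt M).le
  have := Sc.ne (B := Θ) M
  obtain ⟨C, hC1, hC2, hC3⟩ := records M Θ α
  have hCθ : #Θ ≤ #C := Sc.le_of_gt M (not_le.1 fun h => hα ⟨C, h, hC1, hC2⟩)
  have hbd : ∀ G : M → K, (∀ i, G i < α) → ∃ c < α, ∀ i, G i < c := by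
    intro G hG
    by_contra hh
    push Not at hh
    refine hα ⟨range G, mk_range_le, forall_mem_range.2 hG, fun x hx => ?_⟩
    obtain ⟨i, hi⟩ := hh x hx
    exact ⟨_, ⟨i, rfl⟩, hi⟩
  have stage : ∀ (Z : Type u) (g : Z → K), #Z ≤ #Θ → (∀ z, g z < α) → ∃ en : Z → K,
      (∀ z, en z ∈ C ∧ g z ≤ en z) ∧ ∀ c ∈ C, #{z | en z ≤ c} ≤ #M := by
    intro Z g hZ hg
    obtain ⟨e⟩ : Nonempty (Z ↪ C) := (le_def _ _).1 (hZ.trans hCθ)
    choose en h1 h2 using fun z => hC2 (max (g z) (e z)) (max_lt (hg z) (hC1 _ (e z).2))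
    refine ⟨en, fun z => ⟨h1 z, (le_max_left _ _).trans (h2 z)⟩, fun c hc => ?_⟩
    refine (mk_le_mk_of_subset (t := (fun z => (e z).1) ⁻¹' insert c (C ∩ Iio c)) ?_).trans
      ((mk_preimage_of_injective _ _ (Subtype.val_injective.comp e.injective)).trans
        (le_insert hM (hC3 c hc) _))
    intro z hz
    exact (((le_max_right _ _).trans (h2 z)).trans hz).eq_or_lt.imp id fun h => ⟨(e z).2, h⟩
  obtain ⟨c0⟩ : Nonempty C := mk_ne_zero_iff.1 (aleph0_pos.trans_le (hΘ.trans hCθ)).ne'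
  obtain ⟨en2, h21, h22⟩ := stage Θ (fun _ => c0) le_rfl fun _ => hC1 _ c0.2
  choose! H hH using fun c hc => bound_set M (h22 c hc) id
  choose! f hf using fun β hβ => (hA β hβ).card
  let I := {p : Iio α × (M → Θ) × Θ × (M → Θ × (M → M × M)) //
    ∀ k, ∃ t ∈ A p.1, f p.1 t = p.2.1 k}
  have hI : #I ≤ #Θ := (mk_subtype_le _).trans (le_prod hΘ (mk_Iio_le Θ α)
    (le_prod hΘ (le_fun M le_rfl le_rfl) (le_prod hΘ le_rfl (le_fun M le_rfl
      (le_prod hΘ le_rfl (le_fun M le_rfl (le_prod hΘ hMΘ hMΘ)))))))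
  have hι : #(I × M) ≤ #Θ := le_prod hΘ hI hMΘ
  obtain ⟨en0, h01, h02⟩ := stage I (fun i => max i.1.1.1 (en2 i.1.2.2.1)) hI
    fun i => max_lt i.1.1.2 (hC1 _ (h21 _).1)
  choose s0 hs0 hs0' using fun i : I => i.2
  choose s1 hs1 hs1' using fun i : I => ext_closed ((le_max_left _ _).trans (h01 i).2)
    (hA _ (hC1 _ (h01 i).1)) univ univ mk_univ.le mk_univ.le (s0 i) (fun k _ => hs0 i k)
    i.1.2.2.1 i.1.2.2.2 (fun _ _ _ => ⟨trivial, trivial⟩)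
  choose g hg hg' using fun q : Θ × (M → (I × M) × (I × M)) =>
    hbd (fun m => max (en0 (q.2 m).1.1) (en0 (q.2 m).2.1))
      fun m => max_lt (hC1 _ (h01 _).1) (hC1 _ (h01 _).1)
  obtain ⟨en1, h11, h12⟩ := stage _ g
    (le_prod hΘ le_rfl (le_fun M le_rfl (le_prod hΘ hι hι))) hg
  have h03 : ∀ c ∈ C, #{k : I × M | en0 k.1 < c} ≤ #M := fun c hc =>
    le_fst hM (fun i => en0 i < c)
      ((mk_le_mk_of_subset fun i hi => le_of_lt hi).trans (h02 c hc)) le_rfl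
  obtain ⟨T, hT1, hT2⟩ := build hA hC1 hC2 hC3 (fun k : I × M => en0 k.1) (fun k => (h01 _).1)
    h03 (fun k => s1 k.1 k.2) (fun k => (hs1 k.1 k.2 trivial).1) H
    (Q := (I × M) ⊕ (Θ × (M → (I × M) × (I × M))))
    (Sum.elim (fun k => ((k.1.1.2.2.2 k.2).1, fun m =>
      ((k.1, ((k.1.1.2.2.2 k.2).2 m).1), (k.1, ((k.1.1.2.2.2 k.2).2 m).2)))) id)
    (Sum.elim (fun k => en0 k.1) en1) (fun c hc => by
      refine (mk_le_mk_of_subset (t := Sum.inl '' {k : I × M | en0 k.1 < c} ∪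
        Sum.inr '' {q | en1 q ≤ c}) ?_).trans
        (le_union hM (mk_image_le.trans (h03 c hc)) (mk_image_le.trans (h12 c hc)))
      rintro (k | q) h
      · exact Or.inl ⟨k, h, rfl⟩
      · exact Or.inr ⟨q, le_of_lt h, rfl⟩) (by
      rintro (k | q) m
      · exact ⟨le_rfl, le_rfl⟩
      · exact ⟨((le_max_left _ _).trans (hg' q m).le).trans (h11 q).2,
          ((le_max_right _ _).trans (hg' q m).le).trans (h11 q).2⟩)
  refine ⟨{t | ∃ k, Agr α (T k) t}, fun t ⟨k, hk⟩ t' h => ⟨k, hk.trans h⟩,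
    fun β hβ t ⟨k, hk⟩ => (hA β hβ).sat _ ((hT1 k).1 β hβ) t fun x hx => hk x (hx.trans hβ),
    fun h => (hα h).elim, ?_, fun t ⟨k, hk⟩ η => ?_, fun β hβ s η ρ hs => ?_,
    fun _ ζ p hp hp' => ?_⟩
  · obtain ⟨e⟩ : Nonempty (I × M ↪ Θ) := (le_def _ _).1 hι
    refine ⟨fun t => if h : ∃ k, Agr α (T k) t then e h.choose else Classical.arbitrary _,
      fun t ht t' ht' h => ?_⟩
    have ht0 : ∃ k, Agr α (T k) t := ht
    have ht0' : ∃ k, Agr α (T k) t' := ht'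
    simp only [dif_pos ht0, dif_pos ht0'] at h
    exact ht0.choose_spec.symm.trans (e.injective h ▸ ht0'.choose_spec)
  · obtain ⟨c, hc, hc'⟩ := hC2 (max (en0 k.1) (en2 η))
      (max_lt (hC1 _ (h01 _).1) (hC1 _ (h21 _).1))
    refine (mk_le_mk_of_subset (t := insert c {x | x < c ∧ (T k x).2 ≤ η}) ?_).trans
      (le_insert hM ((hA c (hC1 c hc)).fib _ ((hT1 k).1 c (hC1 c hc)) η) _)
    rintro x ⟨h1, h2⟩
    rw [← hk x h1] at h2
    rcases lt_trichotomy x c with h | h | h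
    · exact Or.inr ⟨h, h2⟩
    · exact Or.inl h
    · exact absurd (((hT1 k).2.2 c hc ((le_max_left _ _).trans hc') x h h1).trans h2)
        (not_le.2 (hH c hc η ((le_max_right _ _).trans hc')))
  · let i : I := ⟨(⟨β, hβ⟩, fun k => f β (s k), η, ρ), fun k => ⟨s k, hs k, rfl⟩⟩
    have hi1 : β ≤ en0 i := (le_max_left _ _).trans (h01 i).2
    have hi2 : en2 η ≤ en0 i := (le_max_right _ _).trans (h01 i).2
    refine ⟨fun k => T (i, k), fun k => ⟨⟨_, fun _ _ => rfl⟩, fun x hx => ?_, fun x hx hx' => ?_⟩,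
      fun j hj c hc hc' => ?_⟩
    · exact (((hT1 (i, k)).2.1 x (hx.le.trans hi1)).trans ((hs1 i k trivial).2.1 x hx)).trans
        (hf β hβ _ (hs0 i k) _ (hs k) (hs0' i k) x hx)
    · rcases le_or_gt x (en0 i) with h | h
      · beta_reduce
        rw [(hT1 (i, k)).2.1 x h]
        exact (hs1 i k trivial).2.2 x hx h
      · exact (hH _ (h01 i).1 η hi2).le.trans ((hT1 (i, k)).2.2 _ (h01 i).1 le_rfl x h hx')
    · rcases le_or_gt c (en0 i) with h | h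
      · obtain ⟨m, hm⟩ := hs1' i j trivial hj c hc h
        refine ⟨m, ?_⟩
        beta_reduce
        rw [(hT1 (i, _)).2.1 c h, (hT1 (i, _)).2.1 c h]
        exact hm
      · exact hT2 (Sum.inl (i, j)) ⟨fun m m' e => hj.1 (congrArg (Prod.snd : I × M → M) e :),
          fun m m' e => hj.2 (congrArg (Prod.snd : I × M → M) e :)⟩ c h hc'
  · choose k hk using fun m => (hp m).1
    choose k' hk' using fun m => (hp m).2
    refine ⟨en1 (ζ, fun m => (k m, k' m)), hC1 _ (h11 _).1, fun c hc hc' => ?_⟩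
    obtain ⟨m, hm⟩ := hT2 (Sum.inr (ζ, fun m => (k m, k' m))) ⟨fun m m' e => by
      by_contra hne
      have e' : k m = k m' := e
      exact (hp' m m' hne).1 ((hk m).symm.trans (e' ▸ hk m')), fun m m' e => by
      by_contra hne
      have e' : k' m = k' m' := e
      exact (hp' m m' hne).2 ((hk' m).symm.trans (e' ▸ hk' m'))⟩ c hc hc'
    exact ⟨m, hk m c hc' ▸ hm.1, hk' m c hc' ▸ hm.2⟩

variable (M Θ K) in
theorem exists_tree : ∃ A : K → Set (K → Θ × Θ), ∀ α, Lev M A α (A α) :=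
  exists_rec_spec (fun α A X => Lev M A α X) (fun _ _ _ _ h hL => hL.congr h) fun α A hA => by
    by_cases hα : Small M α
    · exact ⟨_, lev_small hA hα⟩
    · exact lev_big hA hα

variable (M Θ K) in
/-- The covering property. -/
theorem exists_label : ∃ ℓ : K → K → Θ, ∀ R : Set (K × K),
    (∀ δ, ∃ p ∈ R, δ ≤ p.1 ∧ δ ≤ p.2) → ∀ ζ, ∃ γ, ∀ δ, ∃ p : M → K × K,
      (∀ m, p m ∈ R ∧ δ ≤ (p m).1 ∧ δ ≤ (p m).2) ∧
      ∀ c, γ < c → c < δ → ∃ m, ℓ (p m).1 c = ζ ∧ ℓ (p m).2 c = ζ := by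
  have hM : ℵ₀ ≤ #M := Sc.inf (B := Θ)
  have hΘ : ℵ₀ ≤ #Θ := (Sc.unc M).le
  obtain ⟨A, hA⟩ := exists_tree M Θ K
  obtain ⟨η0⟩ := Sc.ne (B := Θ) M
  obtain ⟨m0⟩ := Sc.ne' M Θ
  obtain ⟨k0⟩ := Sc.ne (B := K) Θ
  have h0 : ∀ α, ∃ t, t ∈ A α := by
    intro α
    obtain ⟨z, -, hz⟩ := exists_least (P := fun _ : K => True) ⟨k0, trivial⟩
    have h1 : ∀ t, t ∈ A z := fun t => (hA z).lim ⟨∅, by simp, by simp,
      fun x hx => absurd (hz x trivial) (not_le.2 hx)⟩ t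
      fun x hx => absurd (hz x trivial) (not_le.2 hx)
    rcases (hz α trivial).eq_or_lt with rfl | h
    · exact ⟨fun _ => (η0, η0), h1 _⟩
    · obtain ⟨t, ht, -⟩ := (hA α).ep z h (fun _ _ => (η0, η0)) η0
        (fun _ => (η0, fun _ => (m0, m0))) fun _ => h1 _
      exact ⟨t m0, (ht m0).1⟩
  choose τ hτ using h0
  refine ⟨fun β c => (τ β c).1, fun R hR ζ => ?_⟩
  by_contra hcon
  push Not at hcon
  choose F hF using hcon
  choose f hf using fun β => (hA β).card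
  have h1 : ∀ c : K, ∃ y : (Θ × Θ × Θ) × (Θ × Θ × Θ), ∀ δ, ∃ p ∈ R, δ ≤ p.1 ∧ δ ≤ p.2 ∧
      (f c (τ p.1), τ p.1 c) = y.1 ∧ (f c (τ p.2), τ p.2 c) = y.2 := by
    intro c
    have h3 : #(Θ × Θ × Θ) ≤ #Θ := le_prod hΘ le_rfl (le_prod hΘ le_rfl le_rfl)
    refine pigeon Θ (le_prod hΘ h3 h3) _ ?_ fun δ => ?_
    · rintro y b b' h ⟨p, h1, h2, h3, h4⟩
      exact ⟨p, h1, h.trans h2, h.trans h3, h4⟩
    · obtain ⟨p, h1, h2, h3⟩ := hR δ
      exact ⟨(_, _), p, h1, h2, h3, rfl, rfl⟩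
  choose y hy using h1
  obtain ⟨w, hw⟩ := pigeon Θ (le_prod hΘ (le_refl #Θ) (le_refl #Θ))
    (fun w (δ : K) => ∃ c, δ ≤ c ∧ ((y c).1.2.2, (y c).2.2.2) = w)
    (fun w b b' h ⟨c, h1, h2⟩ => ⟨c, h.trans h1, h2⟩) fun δ => ⟨_, δ, le_rfl, rfl⟩
  have h2 : #{c | ((y c).1.2.2, (y c).2.2.2) = w} = #K :=
    mk_of_unbounded fun δ => let ⟨c, h1, h2⟩ := hw δ; ⟨c, h2, h1⟩
  obtain ⟨E, hE1, hE2⟩ := le_mk_iff_exists_subset.1 ((Sc.lt Θ).le.trans h2.ge)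
  obtain ⟨α0, hα0⟩ := bound_set Θ hE2.le id
  obtain ⟨α, h3, h4, h5⟩ := exists_big M Θ F α0
  choose p hp1 hp2 hp3 hp4 hp5 using fun c => hy c α
  have h6 : ∀ c ∈ E, (τ (p c).1 c).2 = w.1 ∧ (τ (p c).2 c).2 = w.2 := fun c hc =>
    ⟨(congrArg (fun z => z.2.2) (hp4 c)).trans (congrArg Prod.fst (hE1 hc)),
      (congrArg (fun z => z.2.2) (hp5 c)).trans (congrArg Prod.snd (hE1 hc))⟩
  have h7 : ∀ c, τ (p c).1 ∈ A α ∧ τ (p c).2 ∈ A α := fun c =>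
    ⟨(hA _).down' (hp2 c) (hτ _), (hA _).down' (hp3 c) (hτ _)⟩
  obtain ⟨g, hg1, hg2⟩ := greedy (I := M) (Y := K) (ν := #M) le_rfl (fun _ c => c ∈ E)
    (fun c c' => ¬ Agr α (τ (p c).1) (τ (p c').1) ∧ ¬ Agr α (τ (p c).2) (τ (p c').2))
    (fun a b h => ⟨fun h' => h.1 h'.symm, fun h' => h.2 h'.symm⟩) (fun _ Z hZ => by
      obtain ⟨c, hc, hc'⟩ := exists_notMem_of_lt (T := E) ((le_iUnion hM hZ.le fun z : Z =>
        le_union hM ((hA α).fib _ (h7 z).1 w.1) ((hA α).fib _ (h7 z).2 w.2)).trans_lt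
          ((Sc.lt M).trans_eq hE2.symm))
      have hcα : c < α := (hα0 c hc).trans h3
      refine ⟨c, hc, fun z hz => ⟨fun h => hc' ?_, fun h => hc' ?_⟩⟩
      · exact mem_iUnion.2 ⟨⟨z, hz⟩, Or.inl ⟨hcα, h c hcα ▸ (h6 c hc).1.le⟩⟩
      · exact mem_iUnion.2 ⟨⟨z, hz⟩, Or.inr ⟨hcα, h c hcα ▸ (h6 c hc).2.le⟩⟩)
  obtain ⟨γ, h8, h9⟩ := (hA α).at2 h4 ζ (fun m => (τ (p (g m)).1, τ (p (g m)).2))
    (fun m => h7 _) hg2
  obtain ⟨c, hc1, hc2, hc3⟩ := hF γ (fun m => p (g m)) fun m =>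
    ⟨hp1 _, (h5 γ h8).le.trans (hp2 _), (h5 γ h8).le.trans (hp3 _)⟩
  obtain ⟨m, hm⟩ := h9 c hc1 (hc2.trans (h5 γ h8))
  exact hc3 m hm.1 hm.2

end Pool.Agent.Work.MP_4eca4b_lc.Ds
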