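import Pool.Agent.Work.MP_4eca4b_lc.Rigid
import Mathlib.Data.Set.Pairwise.Chain

/-!
From a Suslin tree to a level system.
-/

universe u

namespace Pool.Agent.Work.MP_4eca4b_lc

open Cardinal Set Pool.Agent.Lib.ClubGuess

/-- The working hypotheses on a Suslin tree. -/
structure Sus (κ : Cardinal.{u}) (T : Type u) [PartialOrder T] : Prop where
  comp : ∀ {a b t : T}, a ≤ t → b ≤ t → a ≤ b ∨ b ≤ a
  wf : WellFounded ((· < ·) : T → T → Prop)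
  chain : ∀ A : Set T, IsChain (· ≤ ·) A → #A < κ
  anti : ∀ A : Set T, IsAntichain (· ≤ ·) A → #A < κ

variable {T : Type u} [PartialOrder T] {κ : Cardinal.{u}}

theorem Sus.exists_min (H : Sus κ T) {N : Set T} {t : T} (ht : t ∈ N) :
    ∃ m, m ≤ t ∧ m ∈ {m ∈ N | ∀ s ∈ N, s ≤ m → s = m} := by
  obtain ⟨m, ⟨h1, h2⟩, h⟩ := H.wf.has_min (N ∩ Iic t) ⟨t, ht, le_rfl⟩
  exact ⟨m, h2, h1, fun s hs hsm => hsm.eq_of_not_lt (h s ⟨hs, hsm.trans h2⟩)⟩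

theorem min_anti (N : Set T) : IsAntichain (· ≤ ·) {m ∈ N | ∀ s ∈ N, s ≤ m → s = m} :=
  fun a ha _ hb hne h => hne (hb.2 a ha.1 h)

theorem Sus.Iic_small (H : Sus κ T) (t : T) : #(Iic t) < κ :=
  H.chain _ fun _ ha _ hb _ => H.comp ha hb

theorem exists_maxAnti {B P : Set T} (hB : IsAntichain (· ≤ ·) B) (hP : B ⊆ P) :
    ∃ A, B ⊆ A ∧ A ⊆ P ∧ IsAntichain (· ≤ ·) A ∧ ∀ t ∈ P, ∃ a ∈ A, a ≤ t ∨ t ≤ a := by
  obtain ⟨A, h1, h2⟩ := zorn_subset_nonempty {A | A ⊆ P ∧ IsAntichain (· ≤ ·) A}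
    (fun c hc hch _ => ⟨⋃₀ c, ⟨sUnion_subset fun s hs => (hc hs).1,
      hch.pairwise_sUnion.2 fun s hs => (hc hs).2⟩, fun s hs => subset_sUnion_of_mem hs⟩)
    B ⟨hP, hB⟩
  refine ⟨A, h1, h2.prop.1, h2.prop.2, fun t ht => ?_⟩
  by_contra hc
  push Not at hc
  have h3 : insert t A ⊆ A := h2.le_of_ge ⟨insert_subset ht h2.prop.1,
    h2.prop.2.insert (fun b hb _ => (hc b hb).1) fun b hb _ => (hc b hb).2⟩ (subset_insert _ _)
  exact (hc t (h3 (mem_insert _ _))).1 le_rfl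

theorem Sus.step (H : Sus κ T) (hκ : κ.IsRegular) (hbig : ∀ t : T, κ ≤ #(Ici t))
    {ν : Cardinal.{u}} (hν : ∀ m : T, ∃ B ⊆ Ici m, IsAntichain (· ≤ ·) B ∧ ν ≤ #B)
    {X : Set T} (hX : #X < κ) :
    ∃ A : Set T, IsAntichain (· ≤ ·) A ∧ (∀ t, ∃ a ∈ A, a ≤ t ∨ t ≤ a) ∧
      (∀ u ∈ A, ∀ x ∈ X, ¬ u ≤ x) ∧ ∀ u ∈ A, ν ≤ #{u' ∈ A | ∀ v ∈ X, v < u' ↔ v < u} := by
  let N := {t | ∀ x ∈ X, ¬ t ≤ x}
  let M := {m ∈ N | ∀ s ∈ N, s ≤ m → s = m}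
  have h1 : ∀ t, ∃ s ∈ N, t ≤ s := by
    intro t
    by_contra hc
    push Not at hc
    have h2 : #(⋃ x : X, Iic x.1) < κ :=
      (card_iUnion_lt_iff_forall_of_isRegular hκ hX).2 fun x => H.Iic_small _
    refine ((hbig t).trans (mk_le_mk_of_subset fun s hs => ?_)).not_gt h2
    by_contra hh
    exact hc s (fun x hx h => hh (mem_iUnion.2 ⟨⟨x, hx⟩, h⟩)) hs
  have h2 : ∀ m : T, ∃ A, A ⊆ Ici m ∧ IsAntichain (· ≤ ·) A ∧ ν ≤ #A ∧
      ∀ t ∈ Ici m, ∃ a ∈ A, a ≤ t ∨ t ≤ a := by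
    intro m
    obtain ⟨B, hB1, hB2, hB3⟩ := hν m
    obtain ⟨A, a1, a2, a3, a4⟩ := exists_maxAnti hB2 hB1
    exact ⟨A, a2, a3, hB3.trans (mk_le_mk_of_subset a1), a4⟩
  choose A a1 a2 a3 a4 using h2
  have h3 : ∀ m ∈ M, ∀ u ∈ A m, ∀ v ∈ X, v < u ↔ v < m := by
    intro m hm u hu v hv
    refine ⟨fun h => ?_, fun h => h.trans_le (a1 m hu)⟩
    rcases H.comp h.le (a1 m hu) with h' | h'
    · exact h'.lt_of_ne fun e => hm.1 v hv e.ge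
    · exact absurd h' (hm.1 v hv)
  refine ⟨{u | ∃ m ∈ M, u ∈ A m}, ?_, fun t => ?_, ?_, ?_⟩
  · rintro u ⟨m, hm, hu⟩ v ⟨m', hm', hv⟩ hne h
    have : m = m' := by
      rcases H.comp ((a1 m hu).trans h) (a1 m' hv) with h' | h'
      · exact hm'.2 m hm.1 h'
      · exact (hm.2 m' hm'.1 h').symm
    subst this
    exact a2 m hu hv hne h
  · obtain ⟨s, hs, hts⟩ := h1 t
    obtain ⟨m, hms, hm⟩ := H.exists_min hs
    obtain ⟨a, ha, h⟩ := a4 m s hms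
    refine ⟨a, ⟨m, hm, ha⟩, ?_⟩
    rcases h with h | h
    · exact H.comp h hts
    · exact Or.inr (hts.trans h)
  · rintro u ⟨m, hm, hu⟩ x hx h
    exact hm.1 x hx ((a1 m hu).trans h)
  · rintro u ⟨m, hm, hu⟩
    exact (a3 m).trans (mk_le_mk_of_subset fun u' hu' =>
      ⟨⟨m, hm, hu'⟩, fun v hv => (h3 m hm u' hu' v hv).trans (h3 m hm u hu v hv).symm⟩)

variable {I : Type u} [LinearOrder I]

/-- A sequence of maximal antichains, each refining the earlier ones with `ν` siblings. -/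
structure Lev (ν : Cardinal.{u}) (A : I → Set T) : Prop where
  anti : ∀ α, IsAntichain (· ≤ ·) (A α)
  pre : ∀ α t, ∃ a ∈ A α, a ≤ t ∨ t ≤ a
  new : ∀ {α β}, β < α → ∀ u ∈ A α, ∀ v ∈ A β, ¬ u ≤ v
  sib : ∀ α, ∀ u ∈ A α, ν ≤ #{u' ∈ A α | ∀ β < α, ∀ v ∈ A β, v < u' ↔ v < u}

theorem Lev.down {ν : Cardinal.{u}} {A : I → Set T} (L : Lev ν A) {α β : I} (h : β ≤ α) {u : T}
    (hu : u ∈ A α) : ∃ v ∈ A β, v ≤ u := by
  rcases h.eq_or_lt with rfl | h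
  · exact ⟨u, hu, le_rfl⟩
  · obtain ⟨a, ha, h'⟩ := L.pre β u
    exact ⟨a, ha, h'.resolve_right (L.new h u hu a ha)⟩

theorem Lev.up {ν : Cardinal.{u}} {A : I → Set T} (L : Lev ν A) {α β : I} (h : β ≤ α) {u : T}
    (hu : u ∈ A β) : ∃ v ∈ A α, u ≤ v := by
  rcases h.eq_or_lt with rfl | h
  · exact ⟨u, hu, le_rfl⟩
  · obtain ⟨a, ha, h'⟩ := L.pre α u
    exact ⟨a, ha, h'.resolve_left (L.new h a ha u hu)⟩

theorem Lev.uniq {ν : Cardinal.{u}} {A : I → Set T} (L : Lev ν A) (H : Sus κ T) {α : I}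
    {a b u : T} (ha : a ∈ A α) (hb : b ∈ A α) (h1 : a ≤ u) (h2 : b ≤ u) : a = b := by
  rcases H.comp h1 h2 with h | h
  · exact (L.anti α).eq ha hb h
  · exact ((L.anti α).eq hb ha h).symm

theorem Lev.lt {ν : Cardinal.{u}} {A : I → Set T} (L : Lev ν A) (H : Sus κ T) {α β : I}
    (h : β < α) {a b u : T} (ha : a ∈ A α) (hb : b ∈ A β) (h1 : a ≤ u) (h2 : b ≤ u) : b < a :=
  ((H.comp h1 h2).resolve_left (L.new h a ha b hb)).lt_of_ne fun e => L.new h a ha b hb e.ge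

variable [WellFoundedLT I] [IsRegularCardinalOrder I]

theorem Sus.exists_lev (hI : ℵ₀ < #I) (H : Sus #I T) (hbig : ∀ t : T, #I ≤ #(Ici t))
    {ν : Cardinal.{u}} (hν : ∀ m : T, ∃ B ⊆ Ici m, IsAntichain (· ≤ ·) B ∧ ν ≤ #B) :
    ∃ A : I → Set T, Lev ν A := by
  have hκ := Sys.isRegular_I hI
  have h0 : ∀ X : Set T, ∃ A : Set T, IsAntichain (· ≤ ·) A ∧ (#X < #I →
      (∀ t, ∃ a ∈ A, a ≤ t ∨ t ≤ a) ∧ (∀ u ∈ A, ∀ x ∈ X, ¬ u ≤ x) ∧
        ∀ u ∈ A, ν ≤ #{u' ∈ A | ∀ v ∈ X, v < u' ↔ v < u}) := by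
    intro X
    by_cases hX : #X < #I
    · obtain ⟨A, h1, h2⟩ := H.step hκ hbig hν hX
      exact ⟨A, h1, fun _ => h2⟩
    · exact ⟨∅, IsAntichain.empty, fun h => (hX h).elim⟩
  choose G hG1 hG2 using h0
  obtain ⟨A, hA⟩ := exists_rec (S := I) (fun α (f : I → Set T) => G (⋃ β : Iio α, f β))
    fun k f g h => by
      congr 1
      exact iUnion_congr fun β => h _ β.2
  have h1 : ∀ α, IsAntichain (· ≤ ·) (A α) := fun α => by rw [hA]; exact hG1 _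
  have h2 : ∀ α, #(⋃ β : Iio α, A β) < #I := fun α =>
    (card_iUnion_lt_iff_forall_of_isRegular hκ (mk_Iio_lt' α)).2 fun β => H.anti _ (h1 β)
  have h3 := fun α => hG2 _ (h2 α)
  simp only [← hA] at h3
  refine ⟨A, h1, fun α => (h3 α).1, fun {α β} h u hu v hv =>
    (h3 α).2.1 u hu v (mem_iUnion.2 ⟨⟨β, h⟩, hv⟩), fun α u hu => ?_⟩
  exact ((h3 α).2.2 u hu).trans (mk_le_mk_of_subset fun u' hu' =>
    ⟨hu'.1, fun β hβ v hv => hu'.2 v (mem_iUnion.2 ⟨⟨β, hβ⟩, hv⟩)⟩)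

theorem Sus.unc (hI : ℵ₁ < #I) (H : Sus #I T) (hbig : ∀ t : T, #I ≤ #(Ici t)) (s : T) :
    ∃ B ⊆ Ici s, IsAntichain (· ≤ ·) B ∧ ℵ₁ ≤ #B := by
  have hI' : ℵ₀ < #I := aleph0_lt_aleph_one.trans hI
  obtain ⟨A, L⟩ := H.exists_lev hI' hbig (ν := 2) fun m => by
    have h1 : ¬ IsChain (· ≤ ·) (Ici m) := fun h => (H.chain _ h).not_ge (hbig m)
    simp only [IsChain, Set.Pairwise, not_forall, not_or] at h1
    obtain ⟨a, ha, b, hb, hne, h1, h2⟩ := h1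
    refine ⟨{a, b}, insert_subset ha (singleton_subset_iff.2 hb), ?_, ?_⟩
    · exact IsAntichain.singleton.insert (by rintro _ rfl _; exact h2) (by rintro _ rfl _; exact h1)
    · exact two_le_iff.2 ⟨⟨a, by simp⟩, ⟨b, by simp⟩, by simpa using hne⟩
  obtain ⟨β, a, ha, hsa⟩ : ∃ β, ∃ a ∈ A β, s ≤ a := by
    by_contra hc
    push Not at hc
    choose a ha h using fun β => L.pre β s
    have h' : ∀ β, a β ≤ s := fun β => (h β).resolve_right (hc β _ (ha β))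
    refine (mk_le_of_injective (f := fun β => (⟨a β, h' β⟩ : Iic s)) fun β γ e => ?_).not_gt
      (H.Iic_small s)
    have e' : a β = a γ := congrArg Subtype.val e
    rcases lt_trichotomy β γ with hh | hh | hh
    · exact absurd e'.ge (L.new hh _ (ha γ) _ (ha β))
    · exact hh
    · exact absurd e'.le (L.new hh _ (ha β) _ (ha γ))
  have h1 : #(Ioi β) = #I := mk_of_unbounded fun γ => by
    obtain ⟨x, hx⟩ := exists_gt' hI'.le (max β γ)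
    exact ⟨x, (le_max_left _ _).trans_lt hx, (le_max_right _ _).trans hx.le⟩
  obtain ⟨Ξ, hΞ1, hΞ2⟩ := le_mk_iff_exists_subset.1 (hI.le.trans h1.ge)
  obtain ⟨γ, hγ⟩ := exists_gt_of_mk_lt (s := Ξ) (hΞ2 ▸ hI)
  have hne : Ξ.Nonempty := nonempty_coe_sort.1 (mk_ne_zero_iff.1 (hΞ2 ▸ (aleph_pos 1).ne'))
  obtain ⟨u, hu, hau⟩ := L.up ((hΞ1 hne.some_mem).trans (hγ _ hne.some_mem)).le ha
  choose v hv hvu using fun ξ : Ξ => L.down (hγ _ ξ.2).le hu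
  have h2 : ∀ ξ : Ξ, ∃ w ∈ A ξ, w ≠ v ξ ∧ ∀ β < ξ.1, ∀ x ∈ A β, x < w ↔ x < v ξ := by
    intro ξ
    obtain ⟨w, hw⟩ := (two_le_iff' ⟨v ξ, hv ξ, fun _ _ _ _ => Iff.rfl⟩).1 (L.sib _ _ (hv ξ))
    exact ⟨w, w.2.1, fun e => hw (Subtype.ext e), w.2.2⟩
  choose w hw1 hw2 hw3 using h2
  have h3 : ∀ ξ η : Ξ, ξ ≠ η → ¬ w ξ ≤ w η := by
    intro ξ η hne h
    rcases lt_or_gt_of_ne hne with hh | hh
    · exact hw2 ξ (L.uniq H (hw1 ξ) (hv ξ) h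
        ((hw3 η _ hh _ (hv ξ)).2 (L.lt H hh (hv η) (hv ξ) (hvu η) (hvu ξ))).le)
    · exact L.new hh _ (hw1 ξ) _ (hw1 η) h
  refine ⟨range w, ?_, ?_, ?_⟩
  · rintro _ ⟨ξ, rfl⟩
    exact hsa.trans ((hw3 ξ _ (hΞ1 ξ.2) _ ha).2 (L.lt H (hΞ1 ξ.2) (hv ξ) ha (hvu ξ) hau)).le
  · rintro _ ⟨ξ, rfl⟩ _ ⟨η, rfl⟩ hne
    exact h3 ξ η fun e => hne (e ▸ rfl)
  · rw [mk_range_eq _ fun ξ η e => by_contra fun hne => h3 ξ η hne e.le, hΞ2]

theorem Sus.inK_of_big (hI : ℵ₁ < #I) (H : Sus #I T) [Nonempty T]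
    (hbig : ∀ t : T, #I ≤ #(Ici t)) : InK #I := by
  classical
  have hI' : ℵ₀ < #I := aleph0_lt_aleph_one.trans hI
  obtain ⟨A, L⟩ := H.exists_lev hI' hbig (H.unc hI hbig)
  let U := {p : I × T // p.2 ∈ A p.1}
  have h0 : ∀ (u : U) (β : I), ∃ v : U, β ≤ u.1.1 → v.1.1 = β ∧ v.1.2 ≤ u.1.2 := by
    intro u β
    by_cases h : β ≤ u.1.1
    · obtain ⟨v, hv, hvu⟩ := L.down h u.2
      exact ⟨⟨(β, v), hv⟩, fun _ => ⟨rfl, hvu⟩⟩
    · exact ⟨u, fun h' => (h h').elim⟩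
  choose res hres using h0
  have h1 : ∀ (u v : U) {w : T}, u.1.1 = v.1.1 → u.1.2 ≤ w → v.1.2 ≤ w → u = v := by
    intro u v w e h h'
    exact Subtype.ext (Prod.ext e (L.uniq H (e ▸ u.2) v.2 h h'))
  have h2 : ∀ u v : U, u.1.1 ≤ v.1.1 → u.1.2 ≤ v.1.2 → res v u.1.1 = u := fun u v h h' =>
    h1 _ _ (hres v _ h).1 (hres v _ h).2 h'
  refine Sys.inK (U := U) ⟨fun u => u.1.1, res, fun u β h => (hres u β h).1,
    fun u β γ h h' => ?_, fun u => h2 u u le_rfl le_rfl, fun u α h => ?_, fun α => ?_,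
    fun B hB => ?_, fun u => ?_⟩ hI'
  · have a1 := hres u β h'
    have a2 := hres (res u β) γ (h.trans a1.1.ge)
    have a3 := hres u γ (h.trans h')
    exact h1 _ _ (a2.1.trans a3.1.symm) (a2.2.trans a1.2) a3.2
  · obtain ⟨v, hv, huv⟩ := L.up h u.2
    exact ⟨⟨(α, v), hv⟩, rfl, h2 u ⟨(α, v), hv⟩ h huv⟩
  · obtain ⟨a, ha, -⟩ := L.pre α (Classical.arbitrary T)
    exact ⟨⟨(α, a), ha⟩, rfl⟩
  · have a1 : ∀ u ∈ B, ∀ v ∈ B, u.1.2 ≤ v.1.2 → u = v := by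
      intro u hu v hv h
      have : u.1.1 ≤ v.1.1 := not_lt.1 fun hh => L.new hh _ u.2 _ v.2 h
      exact hB u hu v hv this (h2 u v this h)
    rw [← mk_image_eq_of_injOn (fun u : U => u.1.2) B fun u hu v hv e => a1 u hu v hv (le_of_eq e)]
    refine H.anti _ ?_
    rintro _ ⟨u, hu, rfl⟩ _ ⟨v, hv, rfl⟩ hne h
    exact hne (a1 u hu v hv h ▸ rfl)
  · refine (L.sib _ _ u.2).trans (mk_le_of_injective
      (f := fun w => ⟨⟨(u.1.1, w.1), w.2.1⟩, rfl, fun β hβ => ?_⟩) fun w w' e => ?_)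
    · have a1 := hres u β hβ.le
      have a2 := hres ⟨(u.1.1, w.1), w.2.1⟩ β hβ.le
      have a3 : (res u β).1.2 ∈ A β := by
        have := (res u β).2
        rwa [a1.1] at this
      exact h1 _ _ (a2.1.trans a1.1.symm) a2.2
        ((w.2.2 β hβ _ a3).2 (L.lt H hβ u.2 a3 le_rfl a1.2)).le
    · exact Subtype.ext (congrArg (fun x => x.1.1.2) e)

omit [LinearOrder I] [WellFoundedLT I] [IsRegularCardinalOrder I] in
theorem inK_of_suslinTree (hκ : κ.IsRegular) (h1 : ℵ₁ < κ) (h : SuslinTree κ) : InK κ := by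
  obtain ⟨T, _, hT, ht, hc, ha⟩ := h
  have H : Sus κ T := by
    refine ⟨fun {a b t} h h' => ?_, WellFounded.wellFounded_iff_has_min.2 fun s ⟨t, hs⟩ => ?_,
      hc, ha⟩
    · rcases h.eq_or_lt with rfl | h
      · exact Or.inr h'
      rcases h'.eq_or_lt with rfl | h'
      · exact Or.inl h.le
      exact (ht t).1.total h h'
    · by_cases hh : (s ∩ Iio t).Nonempty
      · have hw := (ht t).2.mono (inter_subset_right (s := s))
        exact ⟨_, (hw.min_mem hh).1, fun x hx h =>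
          hw.not_lt_min hh ⟨hx, h.trans (hw.min_mem hh).2⟩ h⟩
      · exact ⟨t, hs, fun x hx h => hh ⟨x, hx, h⟩⟩
  let N := {t : T | #(Ici t) < κ}
  have hN : #N < κ := by
    have a1 := H.anti _ (min_anti N)
    refine (mk_le_mk_of_subset fun t ht => ?_).trans_lt
      ((card_iUnion_lt_iff_forall_of_isRegular 
        (t := fun m : {m ∈ N | ∀ s ∈ N, s ≤ m → s = m} => Ici m.1) hκ a1).2 fun m => m.2.1)
    obtain ⟨m, hmt, hm⟩ := H.exists_min ht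
    exact mem_iUnion.2 ⟨⟨m, hm⟩, hmt⟩
  have hne : Nonempty (Nᶜ : Set T) := by
    rw [nonempty_coe_sort, nonempty_compl]
    intro e
    rw [e, mk_univ, hT] at hN
    exact lt_irrefl _ hN
  have := isRegularCardinalOrder_toType hκ
  have hI : #κ.ord.ToType = κ := mk_ord_toType κ
  rw [← hI]
  refine Sus.inK_of_big (T := (Nᶜ : Set T)) (hI.symm ▸ h1) ?_ fun t => ?_
  · rw [hI]
    refine ⟨fun h h' => H.comp h h', InvImage.wf Subtype.val H.wf, fun A hA => ?_, fun A hA => ?_⟩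
    · rw [← mk_image_eq Subtype.val_injective]
      refine hc _ ?_
      rintro _ ⟨a, ha, rfl⟩ _ ⟨b, hb, rfl⟩ hne
      exact hA ha hb fun e => hne (e ▸ rfl)
    · rw [← mk_image_eq Subtype.val_injective]
      exact ha _ (hA.image _ fun _ _ h => h)
  · rw [hI]
    refine not_lt.1 fun hh => t.2 ?_
    rw [← mk_image_eq Subtype.val_injective] at hh
    refine (mk_le_mk_of_subset fun s hs => ?_).trans_lt
      ((mk_union_le _ _).trans_lt (add_lt_of_lt hκ.aleph0_le hh hN))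
    by_cases h : s ∈ N
    · exact Or.inr h
    · exact Or.inl ⟨⟨s, h⟩, hs, rfl⟩

end Pool.Agent.Work.MP_4eca4b_lc
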