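import Pool.Agent.Work.MP_4eca4b_lc.Nec
import Pool.Agent.Work.MP_4eca4b_lc.Tree

/-!
The class `K` on cardinals with `2 ^ μ ≤ κ` for all `μ < κ`.
-/

universe u

namespace Pool.Agent.Work.MP_4eca4b_lc

open Cardinal Set

theorem inK_of_not_isStrongLimit {κ : Cardinal.{u}} (h : ∀ μ < κ, 2 ^ μ ≤ κ) (h0 : ℵ₀ < κ)
    (hs : ¬ κ.IsStrongLimit) : InK κ := by
  have h1 : ∃ ν, ν < κ ∧ κ ≤ 2 ^ ν :=
    not_isStrongPrelimit_iff.1 fun hh => hs ⟨(aleph0_pos.trans h0).ne', hh⟩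
  obtain ⟨ν, ⟨hν1, hν2⟩, hmin⟩ := wellFounded_lt.has_min {ν | ν < κ ∧ κ ≤ 2 ^ ν} h1
  have hν : ℵ₀ ≤ ν := not_lt.1 fun hh =>
    (h0.trans_le hν2).not_gt (power_lt_aleph0 (natCast_lt_aleph0 (n := 2)) hh)
  have h2 : ∀ μ, ν ≤ μ → μ < κ → 2 ^ μ = κ := fun μ a b =>
    le_antisymm (h μ b) (hν2.trans (power_le_power_left two_ne_zero a))
  have h3 : ν < κ.ord.cof := by
    have := lt_cof_ord_power (b := 2) hν Cardinal.one_lt_two
    rwa [h2 ν le_rfl hν1] at this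
  have h4 : max ν (⨆ α : ν.ord.ToType, 2 ^ #(Iic α)) < κ := by
    refine max_lt hν1 (iSup_lt_of_lt_cof_ord (by rwa [mk_ord_toType]) fun α => ?_)
    have := mk_Iic_toType_lt hν α
    exact not_le.1 fun hh => hmin _ ⟨this.trans hν1, hh⟩ this
  have h5 := h2 _ (le_max_left _ _) h4
  refine inK_of_pow hν (le_max_left _ (⨆ α : ν.ord.ToType, 2 ^ #(Iic α)))
    (fun α => le_trans ?_ (le_max_right _ _)) (h5.trans_le hν2) h5.ge (by rw [h5])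
  exact le_ciSup (f := fun α : ν.ord.ToType => (2 : Cardinal.{u}) ^ #(Iic α))
    bddAbove_of_small α

theorem inK_iff {κ : Cardinal.{u}} (h : ∀ μ < κ, 2 ^ μ ≤ κ) :
    InK κ ↔ ℵ₀ < κ ∧ (¬ κ.IsStrongLimit ∨ (κ.IsRegular ∧ SuslinTree κ)) := by
  constructor
  · rintro ⟨C, _, rfl, hC⟩
    obtain ⟨h0, hR⟩ := stronglyRigid_iff.1 hC
    refine ⟨Rig.aleph0_lt hR h0, ?_⟩
    by_cases hs : (#C).IsStrongLimit
    · exact Or.inr ⟨Rig.isRegular hR h0 hs, Rig.suslinTree hR h0 hs⟩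
    · exact Or.inl hs
  · rintro ⟨h0, h1⟩
    by_cases hs : κ.IsStrongLimit
    · obtain ⟨hr, ht⟩ := h1.resolve_left (not_not.2 hs)
      refine inK_of_suslinTree hr ?_ ht
      rw [← succ_aleph0]
      exact hs.isSuccLimit.succ_lt h0
    · exact inK_of_not_isStrongLimit h h0 hs

end Pool.Agent.Work.MP_4eca4b_lc
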