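import Pool.Agent.Work.MP_4eca4b_lc.Diag

/-!
Necessary conditions for membership in `K`.
-/

universe u

set_option linter.deprecated false

namespace Pool.Agent.Work.MP_4eca4b_lc

open Cardinal Set Pool.Agent.Lib.ClubGuess

/-- Relational form of strong rigidity. -/
def Rig (C : Type u) [LinearOrder C] : Prop := ∀ R : Set (C × C), Inc R → #R < #C

variable {C : Type u} [LinearOrder C]

theorem Rig.dual (h : Rig C) : Rig Cᵒᵈ :=
  fun R hR => h R ⟨hR.1, fun p hp q hq => hR.2 q hq p hp⟩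

/-- Covering pairs of a subset. -/
def cov (Y : Set C) : Set (C × C) :=
  {p | p.1 ∈ Y ∧ p.2 ∈ Y ∧ p.1 < p.2 ∧ ∀ c ∈ Y, p.1 < c → p.2 ≤ c}

theorem inc_cov (Y : Set C) : Inc (cov Y) := by
  refine ⟨fun p hp => hp.2.2.1.ne, fun p hp q hq => ⟨fun h => ?_, fun h => not_le.1 fun h' => ?_⟩⟩
  · exact (hp.2.2.2 _ hq.1 h).trans_lt hq.2.2.1
  · exact (hq.2.2.2 _ hp.2.1 (h'.trans_lt hp.2.2.1)).not_gt h

theorem mk_le_cov {Y : Set C} (hY : Y.IsWF) : #Y ≤ #(cov Y) + 1 := by
  have h1 : #{y ∈ Y | ∀ c ∈ Y, c ≤ y} ≤ 1 :=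
    mk_le_one_iff_set_subsingleton.2 fun a ha b hb => le_antisymm (hb.2 a ha.1) (ha.2 b hb.1)
  refine (mk_le_mk_of_subset fun y hy => ?_).trans ((mk_union_le (Prod.fst '' cov Y) _).trans
    (add_le_add mk_image_le h1))
  by_cases h : (Y ∩ Ioi y).Nonempty
  · have hw := hY.mono (inter_subset_left (t := Ioi y))
    exact Or.inl ⟨(y, hw.min h), ⟨hy, (hw.min_mem h).1, (hw.min_mem h).2,
      fun c hc hyc => hw.min_le h ⟨hc, hyc⟩⟩, rfl⟩
  · exact Or.inr ⟨hy, fun c hc => not_lt.1 fun hh => h ⟨c, hc, hh⟩⟩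

theorem Rig.wf_lt (h : Rig C) (h0 : ℵ₀ ≤ #C) {Y : Set C} (hY : Y.IsWF) : #Y < #C :=
  (mk_le_cov hY).trans_lt (add_lt_of_lt h0 (h _ (inc_cov Y)) (one_lt_aleph0.trans_le h0))

theorem isWF_image {I : Type*} [LinearOrder I] [WellFoundedLT I] {S : Set I} {d : I → C}
    (hd : MonotoneOn d S) : (d '' S).IsWF :=
  ((IsWF.of_wellFoundedLT S).isPWO.image_of_monotoneOn hd).isWF

theorem Rig.aleph0_lt (h : Rig C) (h0 : ℵ₀ ≤ #C) : ℵ₀ < #C := by
  have : Infinite C := infinite_iff.2 h0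
  have key : ∀ {C : Type u} [LinearOrder C], Rig C → ℵ₀ ≤ #C → ∀ d : ℕ → C, StrictMono d →
      ℵ₀ < #C := by
    intro C _ h h0 d hd
    refine lt_of_le_of_lt ?_ (h.wf_lt h0 (isWF_image (hd.monotone.monotoneOn Set.univ)))
    rw [image_univ]
    exact infinite_iff.1 (infinite_range_of_injective hd.injective).to_subtype
  let f := Infinite.natEmbedding C
  obtain ⟨g, hg | hg⟩ := exists_increasing_or_nonincreasing_subseq (· < ·) f
  · exact key h h0 (f ∘ g) fun m n hmn => hg m n hmn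
  · exact key (C := Cᵒᵈ) h.dual h0 (OrderDual.toDual ∘ f ∘ g) fun m n hmn =>
      (not_lt.1 (hg m n hmn)).lt_of_ne fun e => hmn.ne' (g.injective (f.injective e))

/-- A well-ordered subset of order type `l`. -/
def UpSeq (l : Cardinal.{u}) (X : Set C) : Prop :=
  X.IsWF ∧ #X = l ∧ ∀ x ∈ X, #(X ∩ Iic x : Set C) < l

theorem upSeq_image {l : Cardinal.{u}} (hl : ℵ₀ ≤ l) {S : Set l.ord.ToType} (hS : #S = l)
    {d : l.ord.ToType → C} (hd : StrictMonoOn d S) : UpSeq l (d '' S) := by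
  refine ⟨isWF_image hd.monotoneOn, (mk_image_eq_of_injOn _ _ hd.injOn).trans hS, ?_⟩
  rintro _ ⟨s, hs, rfl⟩
  refine (mk_le_mk_of_subset ?_).trans_lt
    ((mk_image_le (f := d)).trans_lt (mk_Iic_toType_lt hl s))
  rintro _ ⟨⟨t, ht, rfl⟩, h⟩
  exact ⟨t, (hd.le_iff_le ht hs).1 h, rfl⟩

theorem erdos_rado {l : Cardinal.{u}} (hl : ℵ₀ ≤ l) (hC : 2 ^ l < #C) :
    (∃ X : Set C, UpSeq l X) ∨ ∃ X : Set Cᵒᵈ, UpSeq l X := by
  classical
  let I := l.ord.ToType
  have hI : #I = l := mk_ord_toType l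
  have : Nonempty C := mk_ne_zero_iff.1 (zero_le.trans_lt hC).ne'
  have : Inhabited C := Classical.inhabited_of_nonempty this
  have h1 : ∀ c : I → Bool, ∃ G : I → C, ∀ α, G α =
      Classical.epsilon fun y => ∀ β < α, if c β then G β < y else y < G β := fun c =>
    exists_rec (S := I)
      (fun α G => Classical.epsilon fun y => ∀ β < α, if c β then G β < y else y < G β)
      fun k f g h => by
        congr 1
        exact funext fun y => propext (forall₂_congr fun β hβ => by rw [h β hβ])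
  choose G hG using h1
  obtain ⟨x, hx⟩ : ∃ x, ∀ c α, G c α ≠ x := by
    by_contra hc
    push Not at hc
    refine (mk_le_of_surjective (f := fun p : (I → Bool) × I => G p.1 p.2) fun x => ?_).not_gt
      (lt_of_le_of_lt ?_ hC)
    · obtain ⟨c, α, h⟩ := hc x
      exact ⟨(c, α), h⟩
    · simp only [mk_prod, lift_id, mk_pi, mk_fintype, Fintype.card_bool, Nat.cast_ofNat,
        prod_const, hI, lift_ofNat, lift_uzero]
      exact (mul_le_mul_right (cantor l).le _).trans (mul_eq_self (hl.trans (cantor l).le)).le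
  obtain ⟨d, hd⟩ := exists_rec (S := I)
    (fun α (d : I → C) => Classical.epsilon fun y => ∀ β < α,
      if decide (d β < x) then d β < y else y < d β)
    fun k f g h => by
      congr 1
      exact funext fun y => propext (forall₂_congr fun β hβ => by rw [h β hβ])
  have h2 : ∀ α, G (fun β => decide (d β < x)) α = d α := by
    intro α
    induction α using WellFoundedLT.induction with
    | ind α ih =>
      rw [hG, hd]
      congr 1
      exact funext fun y => propext (forall₂_congr fun β hβ => by rw [ih β hβ])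
  have h3 : ∀ α, d α ≠ x := fun α => h2 α ▸ hx _ α
  have h4 : ∀ α, ∀ β < α, if decide (d β < x) then d β < d α else d α < d β := by
    intro α
    rw [hd α]
    refine Classical.epsilon_spec
      (p := fun y => ∀ β < α, if decide (d β < x) then d β < y else y < d β) ⟨x, fun β _ => ?_⟩
    by_cases h : d β < x
    · simp [h]
    · simpa [h] using (not_lt.1 h).lt_of_ne (h3 β).symm
  have h5 : #{α | d α < x} = l ∨ #{α | ¬ d α < x} = l := by
    by_contra hc
    push Not at hc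
    have a1 := ((mk_set_le _).trans hI.le).lt_of_ne hc.1
    have a2 := ((mk_set_le {α | x ≤ d α}).trans hI.le).lt_of_ne hc.2
    refine (hI.ge.trans (mk_univ.ge.trans ((mk_le_mk_of_subset fun α _ => ?_).trans
      (mk_union_le _ _)))).not_gt (add_lt_of_lt hl a1 a2)
    exact lt_or_ge (d α) x
  rcases h5 with h | h
  · refine Or.inl ⟨_, upSeq_image hl h (d := d) fun β hβ α _ hlt => ?_⟩
    simpa [show d β < x from hβ] using h4 α β hlt
  · refine Or.inr ⟨_, upSeq_image hl h (d := OrderDual.toDual ∘ d) fun β hβ α _ hlt => ?_⟩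
    simpa [show ¬ d β < x from hβ] using h4 α β hlt

theorem UpSeq.bound {l : Cardinal.{u}} (hl : l.IsRegular) {X : Set C} (h : UpSeq l X)
    {ι : Type u} (hι : #ι < l) (g : ι → C) (hg : ∀ i, g i ∈ X) : ∃ x ∈ X, ∀ i, g i < x := by
  by_contra hc
  push Not at hc
  refine (h.2.1.ge.trans (mk_le_mk_of_subset fun x hx => ?_)).not_gt
    ((card_iUnion_lt_iff_forall_of_isRegular (t := fun i => X ∩ Iic (g i)) hl hι).2
      fun i => h.2.2 _ (hg i))
  obtain ⟨i, hi⟩ := hc x hx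
  exact mem_iUnion.2 ⟨i, hx, hi⟩

theorem Rig.up_bdd (h : Rig C) (h0 : ℵ₀ ≤ #C) {ι : Type u} (l : ι → Cardinal.{u})
    (hl : ∀ i, (l i).IsRegular) (hι : ∀ i, #ι < l i) (hX : ∀ i, ∃ X : Set C, UpSeq (l i) X) :
    ∃ σ < #C, ∀ i, l i ≤ σ := by
  have h1 : ∀ c : Cardinal.{u}, ∃ X : Set C, (∃ X : Set C, UpSeq c X) → UpSeq c X := by
    intro c
    by_cases hc : ∃ X : Set C, UpSeq c X
    · obtain ⟨X, hX⟩ := hc
      exact ⟨X, fun _ => hX⟩
    · exact ⟨∅, fun h' => (hc h').elim⟩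
  choose X hX' using h1
  have hU : ∀ i, UpSeq (l i) (X (l i)) := fun i => hX' _ (hX i)
  have : Nonempty C := mk_ne_zero_iff.1 (aleph0_pos.trans_le h0).ne'
  have h2 : ∀ c : Cardinal.{u}, ∃ z : C, ∀ i, l i = c → z ∈ X c ∧
      ∀ j, (∃ x ∈ X c, ∀ y ∈ X (l j), y < x) → ∀ y ∈ X (l j), y < z := by
    intro c
    by_cases hc : ∃ i, l i = c
    · obtain ⟨i, rfl⟩ := hc
      choose g hg1 hg2 using fun j : {j | ∃ x ∈ X (l i), ∀ y ∈ X (l j), y < x} => j.2
      obtain ⟨z, hz1, hz2⟩ := (hU i).bound (hl i) ((mk_set_le _).trans_lt (hι i)) g hg1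
      exact ⟨z, fun _ _ => ⟨hz1, fun j hj y hy => (hg2 ⟨j, hj⟩ y hy).trans (hz2 _)⟩⟩
    · exact ⟨Classical.arbitrary C, fun i hi => (hc ⟨i, hi⟩).elim⟩
  choose z hz using h2
  let T : ι → Set C := fun i => X (l i) ∩ Ici (z (l i))
  have h3 : ∀ i j, l j < l i → (∀ a ∈ T i, ∀ b ∈ T j, a < b) ∨ ∀ a ∈ T i, ∀ b ∈ T j, b < a := by
    intro i j hij
    by_cases c1 : ∃ x ∈ X (l j), ∀ y ∈ X (l i), y < x
    · exact Or.inl fun a ha b hb => ((hz _ j rfl).2 i c1 a ha.1).trans_le hb.2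
    · push Not at c1
      choose g hg1 hg2 using fun y : X (l j) => c1 y y.2
      obtain ⟨x, hx1, hx2⟩ := (hU i).bound (hl i) ((hU j).2.1.trans_lt hij) g hg1
      exact Or.inr fun a ha b hb => ((hz _ i rfl).2 j
        ⟨x, hx1, fun y hy => (hg2 ⟨y, hy⟩).trans_lt (hx2 _)⟩ b hb.1).trans_le ha.2
  have h4 : Inc (⋃ i, cov (T i)) := by
    refine ⟨fun p hp => ?_, fun p hp q hq => ?_⟩
    · obtain ⟨i, hi⟩ := mem_iUnion.1 hp
      exact hi.2.2.1.ne
    · obtain ⟨i, hi⟩ := mem_iUnion.1 hp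
      obtain ⟨j, hj⟩ := mem_iUnion.1 hq
      rcases lt_trichotomy (l i) (l j) with hh | hh | hh
      · rcases h3 j i hh with a | a
        · exact iff_of_false (a _ hj.1 _ hi.1).not_gt (a _ hj.2.1 _ hi.2.1).not_gt
        · exact iff_of_true (a _ hj.1 _ hi.1) (a _ hj.2.1 _ hi.2.1)
      · have : T i = T j := by simp only [T, hh]
        exact (inc_cov (T j)).2 p (this ▸ hi) q hj
      · rcases h3 i j hh with a | a
        · exact iff_of_true (a _ hi.1 _ hj.1) (a _ hi.2.1 _ hj.2.1)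
        · exact iff_of_false (a _ hi.1 _ hj.1).not_gt (a _ hi.2.1 _ hj.2.1).not_gt
  refine ⟨_, add_lt_of_lt h0 (h _ h4) (one_lt_aleph0.trans_le h0), fun i => ?_⟩
  refine le_trans ?_ ((mk_le_cov ((hU i).1.mono (inter_subset_left (t := Ici (z (l i)))))).trans
    (add_le_add_left (mk_le_mk_of_subset (subset_iUnion (fun i => cov (T i)) i)) _))
  refine not_lt.1 fun hh => ?_
  refine ((hU i).2.1.ge.trans ((mk_le_mk_of_subset fun x hx => ?_).trans
    (mk_union_le _ _))).not_gt (add_lt_of_lt (hl i).aleph0_le hh ((hU i).2.2 _ (hz _ i rfl).1))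
  exact (le_total (z (l i)) x).imp (fun h => ⟨hx, h⟩) fun h => ⟨hx, h⟩

theorem Rig.isRegular (h : Rig C) (h0 : ℵ₀ ≤ #C) (hs : (#C).IsStrongLimit) :
    (#C).IsRegular := by
  by_contra hr
  have hρ := (IsSingular.of_not_isRegular h0 hr).cof_ord_lt
  have h1 := h.aleph0_lt h0
  obtain ⟨P, hP1, hP2⟩ := Order.exists_cof_eq (#C).ord.ToType
  rw [Ordinal.cof_toType] at hP2
  rw [← hP2] at hρ
  let l : P → Cardinal.{u} := fun p => Order.succ (max (max #P ℵ₀) #(Iic p.1))
  have a0 : ∀ p : P, ℵ₀ ≤ max (max #P ℵ₀) #(Iic p.1) := fun p =>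
    (le_max_right _ _).trans (le_max_left _ _)
  have a1 : ∀ p, (l p).IsRegular := fun p => isRegular_succ (a0 p)
  have a2 : ∀ p, #P < l p := fun p =>
    Order.lt_succ_of_le ((le_max_left _ _).trans (le_max_left _ _))
  have a3 : ∀ p, l p < #C := fun p =>
    hs.isSuccLimit.succ_lt (max_lt (max_lt hρ h1) (mk_Iic_toType_lt h0 _))
  obtain ⟨σ1, b1, c1⟩ := h.up_bdd h0 (fun p : {p | ∃ X : Set C, UpSeq (l p) X} => l p)
    (fun p => a1 p) (fun p => (mk_set_le _).trans_lt (a2 p)) fun p => p.2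
  obtain ⟨σ2, b2, c2⟩ := h.dual.up_bdd h0 (fun p : {p | ∃ X : Set Cᵒᵈ, UpSeq (l p) X} => l p)
    (fun p => a1 p) (fun p => (mk_set_le _).trans_lt (a2 p)) fun p => p.2
  have a4 : ∀ p : P, #(Iic p.1) ≤ max σ1 σ2 := fun p => by
    refine le_trans (b := l p) ((le_max_right _ _).trans (Order.le_succ _)) ?_
    rcases erdos_rado (C := C) (a1 p).aleph0_le (hs.isStrongPrelimit (a3 p)) with h' | h'
    · exact (c1 ⟨p, h'⟩).trans (le_max_left _ _)
    · exact (c2 ⟨p, h'⟩).trans (le_max_right _ _)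
  have a5 : (⋃ p : P, Iic p.1) = Set.univ := by
    rw [← isCofinal_iff_iUnion_Iic_eq_univ.1 hP1, iUnion_coe_set]
  have a6 := mk_iUnion_le fun p : P => Iic p.1
  rw [a5, mk_univ, mk_ord_toType] at a6
  exact a6.not_gt (mul_lt_of_lt h0 hρ ((ciSup_le' a4).trans_lt (max_lt b1 b2)))

theorem mk_le_of_sep {D : Set C} (hsep : ∀ a b : C, a < b → ∃ d ∈ D, a ≤ d ∧ d ≤ b) :
    #C ≤ 2 ^ #D * 2 ^ #D := by
  have : Function.Injective fun x : C => (({d | d.1 ≤ x}, {d | d.1 < x}) : Set D × Set D) := by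
    have key : ∀ a b : C, a < b → ({d : D | d.1 ≤ a}, {d : D | d.1 < a}) ≠
        ({d : D | d.1 ≤ b}, {d : D | d.1 < b}) := by
      intro a b h e
      obtain ⟨d, hd, h1, h2⟩ := hsep a b h
      have e1 : d ≤ a ↔ d ≤ b := Set.ext_iff.1 (congrArg Prod.fst e) ⟨d, hd⟩
      have e2 : d < a ↔ d < b := Set.ext_iff.1 (congrArg Prod.snd e) ⟨d, hd⟩
      exact (e2.2 ((e1.2 h2).trans_lt h)).not_ge h1
    intro a b e
    rcases lt_trichotomy a b with h | h | h
    · exact absurd e (key a b h)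
    · exact h
    · exact absurd e.symm (key b a h)
  simpa using mk_le_of_injective this

theorem Rig.suslinTree (h : Rig C) (h0 : ℵ₀ ≤ #C) (hs : (#C).IsStrongLimit) :
    SuslinTree #C := by
  let J := (#C).ord.ToType
  have hJ : #J = #C := mk_ord_toType _
  have : Nonempty C := mk_ne_zero_iff.1 (aleph0_pos.trans_le h0).ne'
  have : Inhabited C := Classical.inhabited_of_nonempty this
  let P : J → (J → C × C) → C × C → Prop := fun α f p => p.1 < p.2 ∧
    ∀ β < α, ((f β).1 < p.1 ∨ p.2 < (f β).1) ∧ ((f β).2 < p.1 ∨ p.2 < (f β).2)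
  obtain ⟨f, hf⟩ := exists_rec (S := J) (fun α f => Classical.epsilon (P α f)) fun k f g h => by
    congr 1
    exact funext fun y => propext (and_congr_right fun _ =>
      forall₂_congr fun β hβ => by rw [h β hβ])
  have h1 : ∀ α, P α f (f α) := by
    intro α
    rw [hf α]
    refine Classical.epsilon_spec (p := P α f) ?_
    by_contra hc
    let D : Set C := range (fun β : Iio α => (f β).1) ∪ range fun β : Iio α => (f β).2
    have a1 : #D < #C := (mk_union_le _ _).trans_lt (add_lt_of_lt h0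
      (mk_range_le.trans_lt (mk_Iio_toType_ord_lt α))
      (mk_range_le.trans_lt (mk_Iio_toType_ord_lt α)))
    refine (mk_le_of_sep (D := D) fun a b hab => ?_).not_gt
      (mul_lt_of_lt h0 (hs.isStrongPrelimit a1) (hs.isStrongPrelimit a1))
    by_contra hh
    push Not at hh
    exact hc ⟨(a, b), hab, fun β hβ =>
      ⟨(lt_or_ge _ a).imp_right (hh _ (Or.inl ⟨⟨β, hβ⟩, rfl⟩)),
        (lt_or_ge _ a).imp_right (hh _ (Or.inr ⟨⟨β, hβ⟩, rfl⟩))⟩⟩
  let r : J → J → Prop := fun β α => β < α ∧ (f β).1 < (f α).1 ∧ (f α).2 < (f β).2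
  have : IsStrictOrder J r :=
    { irrefl := fun a h => lt_irrefl _ h.1
      trans := fun a b c h h' => ⟨h.1.trans h'.1, h.2.1.trans h'.2.1, h'.2.2.trans h.2.2⟩ }
  have h2 : ∀ α, ∀ β < α, r β α ∨ (f β).2 < (f α).1 ∨ (f α).2 < (f β).1 := by
    intro α β hβ
    obtain ⟨a | a, b | b⟩ := (h1 α).2 β hβ
    · exact Or.inr (Or.inl b)
    · exact Or.inl ⟨hβ, a, b⟩
    · exact Or.inr (Or.inl b)
    · exact Or.inr (Or.inr a)
  refine ⟨J, partialOrderOfSO r, hJ, fun t => ⟨?_, ?_⟩, fun A hA => ?_, fun A hA => ?_⟩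
  · have key : ∀ β γ, r β t → r γ t → β < γ → r β γ := by
      intro β γ a b hlt
      rcases h2 γ β hlt with c | c | c
      · exact c
      · exact absurd (c.trans (b.2.1.trans ((h1 t).1.trans a.2.2))) (lt_irrefl _)
      · exact absurd (c.trans (a.2.1.trans ((h1 t).1.trans b.2.2))) (lt_irrefl _)
    intro β hβ γ hγ hne
    rcases lt_or_gt_of_ne hne with hlt | hlt
    · exact Or.inl (Or.inr (key β γ hβ hγ hlt))
    · exact Or.inr (Or.inr (key γ β hγ hβ hlt))
  · exact Subrelation.wf (r := InvImage (· < ·) Subtype.val) (fun h => h.1)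
      (InvImage.wf _ wellFounded_lt)
  · have a1 : StrictMonoOn (fun α => (f α).1) A := by
      intro β hβ γ hγ hlt
      rcases hA hβ hγ hlt.ne with (c | c) | (c | c)
      · exact absurd c hlt.ne
      · exact c.2.1
      · exact absurd c hlt.ne'
      · exact absurd c.1 hlt.not_gt
    rw [← mk_image_eq_of_injOn _ _ a1.injOn]
    exact h.wf_lt h0 (isWF_image a1.monotoneOn)
  · have a1 : ∀ β ∈ A, ∀ γ ∈ A, β ≠ γ → (f β).2 < (f γ).1 ∨ (f γ).2 < (f β).1 := by
      intro β hβ γ hγ hne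
      rcases lt_or_gt_of_ne hne with hlt | hlt
      · exact (h2 γ β hlt).resolve_left fun c => hA hβ hγ hne (Or.inr c)
      · exact ((h2 β γ hlt).resolve_left fun c => hA hγ hβ hne.symm (Or.inr c)).symm
    rw [← mk_image_eq_of_injOn f A fun β hβ γ hγ e => by_contra fun hne => ?_]
    · refine h _ ⟨?_, ?_⟩
      · rintro _ ⟨β, -, rfl⟩
        exact (h1 β).1.ne
      · rintro _ ⟨β, hβ, rfl⟩ _ ⟨γ, hγ, rfl⟩
        by_cases hne : β = γ
        · simp [hne]
        · rcases a1 β hβ γ hγ hne with c | c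
          · exact iff_of_true ((h1 β).1.trans c) (c.trans (h1 γ).1)
          · exact iff_of_false ((h1 γ).1.trans c).not_gt (c.trans (h1 β).1).not_gt
    · rcases a1 β hβ γ hγ hne with c | c <;> rw [e] at c <;> exact c.not_gt (h1 γ).1

end Pool.Agent.Work.MP_4eca4b_lc
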