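import Pool.Agent.Work.MP_4eca4b_lc.Sys
import Pool.Agent.Work.MP_4eca4b_lc.Defs

/-!
A level system carries a strongly rigid lexicographic order.
-/

universe u

namespace Pool.Agent.Work.MP_4eca4b_lc

open Cardinal Set Pool.Agent.Lib.ClubGuess

namespace Sys

variable {I U : Type u} [LinearOrder I] [WellFoundedLT I] [IsRegularCardinalOrder I]
  {S : Sys I U}

theorem isRegular_I (hI : ℵ₀ < #I) : (#I).IsRegular := by
  refine ⟨hI.le, ?_⟩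
  rw [ord_cardinalMk, Ordinal.cof_type, Order.cof_eq_cardinalMk]

omit [WellFoundedLT I] [IsRegularCardinalOrder I] in
theorem level_small (α : I) : #{u | S.lev u = α} < #I := by
  refine S.anti _ fun u hu v hv _ h => ?_
  have h1 : S.lev u = S.lev v := hu.trans hv.symm
  rw [← h, h1, S.res_self]

theorem below_small (hI : ℵ₀ < #I) (γ : I) : #{u | S.lev u ≤ γ} < #I := by
  have : {u | S.lev u ≤ γ} = ⋃ α : Iic γ, {u | S.lev u = α} := by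
    ext u; simp
  rw [this]
  exact (card_iUnion_lt_iff_forall_of_isRegular (isRegular_I hI) (mk_Iic_lt hI.le γ)).2
    fun α => level_small _

omit [WellFoundedLT I] [IsRegularCardinalOrder I] in
theorem mk_U (S : Sys I U) (hI : ℵ₀ < #I) : #U = #I := by
  refine le_antisymm ?_ (mk_le_of_surjective (f := S.lev) S.surj)
  have : (Set.univ : Set U) = ⋃ α : I, {u | S.lev u = α} := by
    ext u; simp
  rw [← mk_univ, this]
  refine (mk_iUnion_le _).trans ?_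
  have : Nonempty I := mk_ne_zero_iff.1 (aleph0_pos.trans hI).ne'
  calc #I * ⨆ α : I, #{u | S.lev u = α} ≤ #I * #I := by
        gcongr
        exact ciSup_le fun α => (level_small α).le
    _ = #I := mul_eq_self hI.le

theorem big_of_unbounded {Y : Type u} {X : Set Y} (f : Y → U)
    (h : ∀ γ, ∃ x ∈ X, γ ≤ S.lev (f x)) : #I ≤ #X := by
  have := mk_of_unbounded (Γ := (fun x => S.lev (f x)) '' X) fun γ => by
    obtain ⟨x, hx, h⟩ := h γ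
    exact ⟨_, ⟨x, hx, rfl⟩, h⟩
  exact this ▸ mk_image_le

theorem exists_dense (hI : ℵ₀ < #I) {X : Set U} (hX : #I ≤ #X) :
    ∃ r ∈ X, ∀ s, S.Le r s → ∃ x ∈ X, S.Le s x := by
  suffices h : ∃ r, ∀ s, S.Le r s → ∃ x ∈ X, S.Le s x by
    obtain ⟨r, hr⟩ := h
    obtain ⟨x, hx, hrx⟩ := hr r Le.rfl
    exact ⟨x, hx, fun s hs => hr s (hrx.trans hs)⟩
  by_contra hc
  push Not at hc
  let N := {s | ∀ x ∈ X, ¬ S.Le s x}
  let M := {m ∈ N | ∀ s ∈ N, S.Le s m → s = m}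
  have hM : #M < #I := S.anti _ fun u hu v hv h1 h2 => hv.2 u hu.1 ⟨h1, h2⟩
  obtain ⟨γ, hγ⟩ := bound_fun (fun m : M => S.lev m) hM
  refine (hX.trans (mk_le_mk_of_subset fun x hx => ?_)).not_gt (below_small (S := S) hI γ)
  obtain ⟨s, hs1, hs2⟩ := hc x
  obtain ⟨β, ⟨hβ1, hβ2⟩, hmin⟩ := wellFounded_lt.has_min {β | β ≤ S.lev s ∧ S.res s β ∈ N}
    ⟨S.lev s, le_rfl, by rw [S.res_self]; exact hs2⟩
  have hm : S.res s β ∈ M := by
    refine ⟨hβ2, fun s' hs' hle => hle.eq (not_lt.1 fun hh => ?_)⟩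
    rw [S.lev_res _ _ hβ1] at hh
    refine hmin (S.lev s') ⟨hh.le.trans hβ1, ?_⟩ hh
    rw [(hle.trans (res_le hβ1)).2]
    exact hs'
  refine not_lt.1 fun hh => hβ2 x hx ((res_le hβ1).of_le hs1 ?_)
  exact ((hγ ⟨_, hm⟩).trans hh).le

variable [LinearOrder U] {t : U → Prop}

omit [WellFoundedLT I] [IsRegularCardinalOrder I] in
theorem LexOrd.nomin (L : S.LexOrd t) (u : U) : ∃ v, S.Sib u v ∧ v < u := by
  by_cases hu : t u
  · obtain ⟨z, hz, h⟩ := L.t0 u hu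
    obtain ⟨n, hn⟩ := h u Sib.rfl
    exact ⟨_, hz n, hn⟩
  · obtain ⟨v, hv, h⟩ := L.t1 u hu (fun _ => u) fun _ => Sib.rfl
    exact ⟨v, hv, h 0⟩

omit [WellFoundedLT I] [IsRegularCardinalOrder I] in
theorem LexOrd.convex (L : S.LexOrd t) {s x y z : U} (hx : S.Le s x) (hz : S.Le s z)
    (h1 : x ≤ y) (h2 : y ≤ z) : S.Le s y := by
  rcases ((L.le_of hx).trans h1).eq_or_lt with rfl | h
  · exact Le.rfl
  · rcases L.cases h with h | ⟨a, b, hab, hlt, ha, hb⟩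
    · exact h
    · exact absurd (L.sib_lt hab hlt (ha.trans hz) hb) h2.not_gt

theorem LexOrd.between (hI : ℵ₀ < #I) (L : S.LexOrd t) {r x y : U} (hx : S.Le r x)
    (h : x < y) : ∃ c, S.Le r c ∧ ∀ z, S.Le c z → x < z ∧ z < y := by
  have key : ∀ {c z}, S.Le x c → S.lev x < S.lev c → S.Le c z → x < z := by
    intro c z h1 h2 h3
    refine (L.le_of (h1.trans h3)).lt_of_ne fun e => ?_
    subst e
    exact h2.not_ge h3.1
  rcases L.cases h with h' | ⟨a, b, hab, hlt, ha, hb⟩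
  · have hl : S.lev x < S.lev y := not_le.1 fun hh => h.ne (h'.eq hh)
    obtain ⟨c, hc, hcy⟩ := L.nomin y
    have hxc := hc.le h' hl
    exact ⟨c, hx.trans hxc, fun z hz =>
      ⟨key hxc (hc.1 ▸ hl) hz, L.sib_lt hc.symm hcy hz Le.rfl⟩⟩
  · obtain ⟨α, hα⟩ := exists_gt' hI.le (S.lev x)
    obtain ⟨c, hc, hc'⟩ := exists_le x hα.le
    exact ⟨c, hx.trans hc, fun z hz =>
      ⟨key hc (hc' ▸ hα) hz, L.sib_lt hab hlt (ha.trans (hc.trans hz)) hb⟩⟩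

omit [LinearOrder U] in
theorem unb_of_dense {Y : Type u} {X : Set Y} (f : Y → U) {r c : U}
    (hr : ∀ s, S.Le r s → ∃ x ∈ f '' X, S.Le s x) (hc : S.Le r c) :
    #I ≤ #{x ∈ X | S.Le c (f x)} := by
  refine big_of_unbounded (S := S) f fun γ => ?_
  obtain ⟨s, hs, hs'⟩ := exists_le c (le_max_left _ γ)
  obtain ⟨_, ⟨x, hx, rfl⟩, h⟩ := hr s (hc.trans hs)
  exact ⟨x, ⟨hx, hs.trans h⟩, (le_max_right _ _).trans (hs' ▸ h.1)⟩

theorem small_fst (hI : ℵ₀ < #I) {R : Set (U × U)} (hR : Inc R) (γ : I) :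
    #{p ∈ R | S.lev p.1 ≤ γ} < #I := by
  refine lt_of_le_of_lt ?_ (below_small (S := S) hI γ)
  exact mk_le_of_injective (f := fun p => ⟨p.1.1, p.2.2⟩)
    fun p q e => Subtype.ext (hR.eq_of_fst p.2.1 q.2.1 (congrArg Subtype.val e))

theorem small_snd (hI : ℵ₀ < #I) {R : Set (U × U)} (hR : Inc R) (γ : I) :
    #{p ∈ R | S.lev p.2 ≤ γ} < #I := by
  refine lt_of_le_of_lt ?_ (below_small (S := S) hI γ)
  exact mk_le_of_injective (f := fun p => ⟨p.1.2, p.2.2⟩)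
    fun p q e => Subtype.ext (hR.eq_of_snd p.2.1 q.2.1 (congrArg Subtype.val e))

theorem mk_fst {R : Set (U × U)} (hR : Inc R) : #(Prod.fst '' R) = #R :=
  mk_image_eq_of_injOn _ _ fun _ hp _ hq e => hR.eq_of_fst hp hq e

theorem mk_snd {R : Set (U × U)} (hR : Inc R) : #(Prod.snd '' R) = #R :=
  mk_image_eq_of_injOn _ _ fun _ hp _ hq e => hR.eq_of_snd hp hq e

theorem LexOrd.stepA (hI : ℵ₀ < #I) (L : S.LexOrd t) {R : Set (U × U)} (hR : Inc R)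
    (hb : #I ≤ #R) :
    ∃ a b, S.lev a = S.lev b ∧ a ≠ b ∧ #I ≤ #{p ∈ R | S.Le a p.1 ∧ S.Le b p.2} := by
  by_contra hc
  push Not at hc
  have h1 : ∀ γ,
      #{p ∈ R | ¬ (γ ≤ S.lev p.1 ∧ γ ≤ S.lev p.2 ∧ S.res p.1 γ = S.res p.2 γ)} < #I := by
    intro γ
    let V := {u | S.lev u = γ}
    have hV : #V < #I := level_small γ
    have h2 : #(⋃ ab : V × V, {p ∈ R | ab.1.1 ≠ ab.2.1 ∧ S.Le ab.1 p.1 ∧ S.Le ab.2 p.2}) < #I := by
      refine (card_iUnion_lt_iff_forall_of_isRegular (isRegular_I hI) ?_).2 fun ab => ?_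
      · rw [mk_prod, lift_id]
        exact mul_lt_of_lt hI.le hV hV
      · by_cases h : ab.1.1 = ab.2.1
        · simp [h, aleph0_pos.trans hI]
        · simpa [h] using hc _ _ (ab.1.2.trans ab.2.2.symm) h
    refine lt_of_le_of_lt (mk_le_mk_of_subset (t := ({p ∈ R | S.lev p.1 ≤ γ} ∪
      {p ∈ R | S.lev p.2 ≤ γ}) ∪ _) fun p hp => ?_) ((mk_union_le _ _).trans_lt
        (add_lt_of_lt hI.le ((mk_union_le _ _).trans_lt
          (add_lt_of_lt hI.le (small_fst (S := S) hI hR γ) (small_snd (S := S) hI hR γ))) h2))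
    by_cases a1 : γ ≤ S.lev p.1
    · by_cases a2 : γ ≤ S.lev p.2
      · refine Or.inr (mem_iUnion.2 ⟨(⟨S.res p.1 γ, S.lev_res _ _ a1⟩,
          ⟨S.res p.2 γ, S.lev_res _ _ a2⟩), hp.1, fun e => hp.2 ⟨a1, a2, e⟩, res_le a1, res_le a2⟩)
      · exact Or.inl (Or.inr ⟨hp.1, (not_le.1 a2).le⟩)
    · exact Or.inl (Or.inl ⟨hp.1, (not_le.1 a1).le⟩)
  obtain ⟨r, -, hr⟩ := exists_dense (S := S) hI (X := Prod.fst '' R) (by rw [mk_fst hR]; exact hb)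
  have h2 : ∀ c, S.Le r c → ∃ p ∈ R, S.Le c p.1 ∧ S.Le c p.2 := by
    intro c hc
    by_contra hh
    push Not at hh
    refine ((unb_of_dense Prod.fst hr hc).trans (mk_le_mk_of_subset fun p hp => ?_)).not_gt
      (h1 (S.lev c))
    exact ⟨hp.1, fun h => hh p hp.1 hp.2 ⟨h.2.1, h.2.2.symm.trans hp.2.2⟩⟩
  obtain ⟨p, hp, hp1, hp2⟩ := h2 r Le.rfl
  rcases lt_or_gt_of_ne (hR.1 p hp) with h | h
  · obtain ⟨c, hc, hz⟩ := L.between hI hp1 h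
    obtain ⟨q, hq, hq1, hq2⟩ := h2 c hc
    exact ((hR.2 p hp q hq).1 (hz _ hq1).1).not_gt (hz _ hq2).2
  · obtain ⟨c, hc, hz⟩ := L.between hI hp2 h
    obtain ⟨q, hq, hq1, hq2⟩ := h2 c hc
    exact ((hR.2 q hq p hp).1 (hz _ hq1).2).not_gt (hz _ hq2).1

/-- Closure of `δ` under the data of `R`. -/
def Closed (S : Sys I U) (R : Set (U × U)) (δ : I) : Prop :=
  (∀ p ∈ R, S.lev p.1 < δ → S.lev p.2 < δ) ∧
    ∀ s, S.lev s < δ → (∃ p ∈ R, S.Le s p.2) → ∃ p ∈ R, S.Le s p.2 ∧ S.lev p.2 < δ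

theorem exists_closed (hI : ℵ₀ < #I) {R : Set (U × U)} (hR : Inc R) :
    ∃ F : I → I, ∀ δ, (∀ β < δ, F β < δ) → S.Closed R δ := by
  have h0 : ∀ s, ∃ α, (∃ p ∈ R, S.Le s p.2) → ∃ p ∈ R, S.Le s p.2 ∧ S.lev p.2 = α := by
    intro s
    by_cases h : ∃ p ∈ R, S.Le s p.2
    · obtain ⟨p, hp, h⟩ := h
      exact ⟨_, fun _ => ⟨p, hp, h, rfl⟩⟩
    · exact ⟨S.lev s, fun h' => (h h').elim⟩
  choose α hα using h0
  choose F1 h1 using fun γ => bound_fun (fun p : {p ∈ R | S.lev p.1 ≤ γ} => S.lev p.1.2)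
    (small_fst (S := S) hI hR γ)
  choose F2 h2 using fun γ => bound_fun (fun s : {u | S.lev u ≤ γ} => α s)
    (below_small (S := S) hI γ)
  refine ⟨fun γ => max (F1 γ) (F2 γ), fun δ hδ => ⟨fun p hp h => ?_, fun s hs h => ?_⟩⟩
  · exact (h1 _ ⟨p, hp, le_rfl⟩).trans ((le_max_left _ _).trans_lt (hδ _ h))
  · obtain ⟨p, hp, h3, h4⟩ := hα s h
    exact ⟨p, hp, h3, h4 ▸ (h2 _ ⟨s, le_rfl⟩).trans ((le_max_right _ _).trans_lt (hδ _ hs))⟩

omit [WellFoundedLT I] [IsRegularCardinalOrder I] in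
theorem LexOrd.transfer (L : S.LexOrd t) {R : Set (U × U)} (hR : Inc R) {δ : I}
    (hδ : ∀ β < δ, ∃ β', β < β' ∧ β' < δ) (c1 : S.Closed R δ)
    (c2 : ∀ p ∈ R, S.lev p.2 < δ → S.lev p.1 < δ) {b : U} (hb : S.lev b < δ)
    (hd : ∀ s, S.Le b s → ∃ p ∈ R, S.Le s p.2) {p q : U × U} (hp : p ∈ R) (hq : q ∈ R)
    (hq1 : δ ≤ S.lev q.1) (hq2 : S.Le b q.2) (hpq : p.1 < q.1) (hp1 : δ ≤ S.lev p.1)
    (hs : S.Sib (S.res q.1 δ) (S.res p.1 δ)) :
    δ ≤ S.lev p.2 ∧ S.Sib (S.res q.2 δ) (S.res p.2 δ) := by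
  have a1 : δ ≤ S.lev p.2 := not_lt.1 fun h => (c2 p hp h).not_ge hp1
  have a2 : δ ≤ S.lev q.2 := not_lt.1 fun h => (c2 q hq h).not_ge hq1
  refine ⟨a1, by rw [S.lev_res _ _ a1, S.lev_res _ _ a2], fun β hβ => ?_⟩
  rw [S.lev_res _ _ a2] at hβ
  rw [S.res_res _ _ _ hβ.le a1, S.res_res _ _ _ hβ.le a2]
  obtain ⟨β2, h12, h2⟩ := hδ _ (max_lt hβ hb)
  have b1 : max β (S.lev b) ≤ S.lev q.2 := (h12.trans h2).le.trans a2
  have b2 : β2 ≤ S.lev q.2 := h2.le.trans a2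
  obtain ⟨m, hm, hm'⟩ := L.nomin (S.res q.2 β2)
  have e1 : S.lev (S.res q.2 (max β (S.lev b))) = max β (S.lev b) := S.lev_res _ _ b1
  have e2 : S.lev (S.res q.2 β2) = β2 := S.lev_res _ _ b2
  have c3 : S.Le (S.res q.2 (max β (S.lev b))) m :=
    hm.le ((res_le b1).le_res (e1.trans_le h12.le) b2) (by rw [e1, e2]; exact h12)
  obtain ⟨w, hw, hw1, hw2⟩ := c1.2 m (by rw [hm.1, e2]; exact h2)
    (hd m ((hq2.le_res (le_max_right _ _) b1).trans c3))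
  have d1 : w.1 < q.1 := (hR.2 w hw q hq).2 (L.sib_lt hm.symm hm' hw1 (res_le b2))
  have d2 : w.1 < p.1 := by
    refine not_le.1 fun hh => ?_
    obtain ⟨β3, h31, h3⟩ := hδ _ (c2 w hw hw2)
    have f1 : S.lev (S.res q.1 β3) = β3 := S.lev_res _ _ (h3.le.trans hq1)
    have f2 : S.lev (S.res q.1 δ) = δ := S.lev_res _ _ hq1
    have f3 : S.Le (S.res q.1 β3) p.1 :=
      (hs.le ((res_le (h3.le.trans hq1)).le_res (f1.trans_le h3.le) hq1)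
        (by rw [f1, f2]; exact h3)).trans (res_le hp1)
    have := (L.convex f3 (res_le (h3.le.trans hq1)) hh d1.le).1
    rw [f1] at this
    exact h31.not_ge this
  have g := L.convex (c3.trans hw1) (res_le b1) ((hR.2 w hw p hp).1 d2).le
    ((hR.2 p hp q hq).1 hpq).le
  rw [g.res ((le_max_left _ _).trans e1.ge), S.res_res _ _ _ (le_max_left _ _) b1]

omit [LinearOrder U] in
theorem inK (S : Sys I U) (hI : ℵ₀ < #I) : InK #I := by
  have : Nonempty I := mk_ne_zero_iff.1 (aleph0_pos.trans hI).ne'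
  have : Nonempty U := by
    obtain ⟨u, -⟩ := S.surj (Classical.arbitrary I)
    exact ⟨u⟩
  have hU : #U = #I := S.mk_U hI
  obtain ⟨g, hg⟩ := solovay (U := U) hI hU.le
  let t : U → Prop := fun u => S.lev (g (S.lev u)) < S.lev u ∧ S.Le (g (S.lev u)) u
  obtain ⟨_, L⟩ := exists_lexOrd (S := S) t fun u v h => by
    simp only [t, h.1]
    exact and_congr_right fun hl => ⟨fun h' => h.le h' hl, fun h' => h.symm.le h' (h.1 ▸ hl)⟩
  refine ⟨U, _, hU, stronglyRigid_iff.2 ⟨hU ▸ hI.le, fun R hR => not_le.1 fun hb => ?_⟩⟩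
  rw [hU] at hb
  obtain ⟨a, b, hab, hne, h0⟩ := L.stepA hI hR hb
  set R0 := {p ∈ R | S.Le a p.1 ∧ S.Le b p.2} with hR0
  have i0 : Inc R0 := hR.mono fun p hp => hp.1
  obtain ⟨_, ⟨pa, hpa, rfl⟩, ha'⟩ := exists_dense (S := S) hI (X := Prod.fst '' R0)
    (by rw [mk_fst i0]; exact h0)
  have h1 := unb_of_dense Prod.fst ha' Le.rfl
  set R1 := {p ∈ R0 | S.Le pa.1 p.1} with hR1
  have i1 : Inc R1 := i0.mono fun p hp => hp.1
  obtain ⟨_, ⟨pb, hpb, rfl⟩, hb'⟩ := exists_dense (S := S) hI (X := Prod.snd '' R1)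
    (by rw [mk_snd i1]; exact h1)
  obtain ⟨F1, hF1⟩ := exists_closed (S := S) hI hR
  obtain ⟨F2, hF2⟩ := exists_closed (S := S) hI hR.swap
  choose F3 hF3 using fun β : I => exists_gt' hI.le β
  obtain ⟨δ, ⟨⟨β0, hβ0⟩, hδ⟩, hga⟩ := hg a fun β =>
    max (max (F1 β) (F2 β)) (max (F3 β) (max (S.lev pa.1) (S.lev pb.2)))
  simp only [max_lt_iff] at hδ
  have c1 := hF1 δ fun β hβ => (hδ β hβ).1.1
  have c2 := hF2 δ fun β hβ => (hδ β hβ).1.2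
  have c3 : ∀ β < δ, ∃ β', β < β' ∧ β' < δ := fun β hβ => ⟨_, hF3 β, (hδ β hβ).2.1⟩
  have la : S.lev pa.1 < δ := (hδ _ hβ0).2.2.1
  have lb : S.lev pb.2 < δ := (hδ _ hβ0).2.2.2
  have da : ∀ s, S.Le pa.1 s → ∃ p ∈ R, S.Le s p.1 := fun s hs => by
    obtain ⟨_, ⟨p, hp, rfl⟩, h⟩ := ha' s hs
    exact ⟨p, hp.1, h⟩
  have db : ∀ s, S.Le pb.2 s → ∃ p ∈ R, S.Le s p.2 := fun s hs => by
    obtain ⟨_, ⟨p, hp, rfl⟩, h⟩ := hb' s hs
    exact ⟨p, hp.1.1, h⟩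
  obtain ⟨s, hs1, hs2⟩ := exists_le pb.2 lb.le
  obtain ⟨_, ⟨q, hq, rfl⟩, hsq⟩ := hb' s hs1
  have q2 : δ ≤ S.lev q.2 := hs2 ▸ hsq.1
  have q1 : δ ≤ S.lev q.1 := not_lt.1 fun h => (c1.1 q hq.1.1 h).not_ge q2
  have e1 : S.lev (S.res q.1 δ) = δ := S.lev_res _ _ q1
  have e2 : S.lev (S.res q.2 δ) = δ := S.lev_res _ _ q2
  have la' : S.lev a < δ := hpa.2.1.1.trans_lt la
  have t1 : t (S.res q.1 δ) := by
    simp only [t, e1, hga]
    exact ⟨la', hq.1.2.1.le_res la'.le q1⟩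
  have t2 : ¬ t (S.res q.2 δ) := by
    simp only [t, e2, hga]
    rintro ⟨-, h⟩
    exact hne (((h.trans (res_le q2)).of_le hq.1.2.2 hab.le).eq hab.ge)
  obtain ⟨z, hz1, hz2, hz3⟩ : ∃ z : ℕ → U, (∀ n, S.Sib (S.res q.1 δ) (z n)) ∧
      (∀ n, z n < S.res q.1 δ) ∧ ∀ v, S.Sib (S.res q.1 δ) v → ∃ n, z n < v := by
    obtain ⟨z, hz1, hz2⟩ := L.t0 _ t1
    obtain ⟨n0, hn0⟩ := hz2 _ Sib.rfl
    refine ⟨fun n => min (z n) (z n0), fun n => ?_, fun n => (min_le_right _ _).trans_lt hn0,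
      fun v hv => ?_⟩
    · rcases min_choice (z n) (z n0) with h | h <;> simp only [h, hz1]
    · obtain ⟨n, hn⟩ := hz2 v hv
      exact ⟨n, (min_le_left _ _).trans_lt hn⟩
  choose p hp hzp using fun n => da (z n)
    ((hz1 n).le (hq.2.le_res la.le q1) (by rw [e1]; exact la))
  have lz : ∀ n, S.lev (z n) = δ := fun n => (hz1 n).1.trans e1
  have p1 : ∀ n, δ ≤ S.lev (p n).1 := fun n => lz n ▸ (hzp n).1
  have p2 : ∀ n, S.res (p n).1 δ = z n := fun n => lz n ▸ (hzp n).2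
  have p3 : ∀ n, (p n).1 < q.1 := fun n => L.sib_lt (hz1 n).symm (hz2 n) (hzp n) (res_le q1)
  have tr := fun n => L.transfer hR c3 c1 (fun p hp => c2.1 p.swap hp) lb db (hp n) hq.1.1 q1
    (hs1.trans hsq) (p3 n) (p1 n) (p2 n ▸ hz1 n)
  obtain ⟨w, hw1, hw2⟩ := L.t1 _ t2 _ fun n => (tr n).2
  obtain ⟨r, hr, hwr⟩ := db w (hw1.le ((hs1.trans hsq).le_res lb.le q2) (by rw [e2]; exact lb))
  have lw : S.lev w = δ := hw1.1.trans e2
  have r1 : ∀ n, r.2 < (p n).2 := fun n =>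
    L.sib_lt (hw1.symm.trans (tr n).2) (hw2 n) hwr (res_le (tr n).1)
  have r2 : S.res r.2 δ = w := lw ▸ hwr.2
  have tr' := L.transfer hR.swap c3 c2 (fun p hp => c1.1 p.swap hp) la
    (fun s hs => by
      obtain ⟨p, hp, h⟩ := da s hs
      exact ⟨p.swap, hp, h⟩) (p := r.swap) (q := q.swap) hr hq.1.1 q2 hq.2
    ((r1 0).trans ((hR.2 _ (hp 0) _ hq.1.1).1 (p3 0))) (lw ▸ hwr.1) (r2 ▸ hw1)
  obtain ⟨n, hn⟩ := hz3 _ tr'.2
  exact ((hR.2 _ (hp n) _ hr).1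
    (L.sib_lt ((hz1 n).symm.trans tr'.2) hn (hzp n) (res_le tr'.1))).not_gt (r1 n)

end Sys

end Pool.Agent.Work.MP_4eca4b_lc
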