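import Pool.Agent.Lib.ClubGuess.Basic

/-!
Fodor's lemma and Solovay splitting, in the language of closure points.
-/

universe u

namespace Pool.Agent.Work.MP_4eca4b_lc

open Cardinal Set Pool.Agent.Lib.ClubGuess

variable {I : Type u} [LinearOrder I]

/-- `δ` is a nonzero closure point of `F`. -/
def Good (F : I → I) (δ : I) : Prop := (∃ β, β < δ) ∧ ∀ β < δ, F β < δ

/-- Stationary sets. -/
def Stat (S : Set I) : Prop := ∀ F : I → I, ∃ δ ∈ S, Good F δ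

variable [WellFoundedLT I] [IsRegularCardinalOrder I]

theorem bound_fun {ι : Type u} (G : ι → I) (h : #ι < #I) : ∃ b, ∀ i, G i < b := by
  obtain ⟨b, hb⟩ := exists_gt_of_mk_lt (s := range G) (mk_range_le.trans_lt h)
  exact ⟨b, fun i => hb _ ⟨i, rfl⟩⟩

theorem bound_nat (hI : ℵ₀ < #I) (G : ℕ → I) : ∃ b, ∀ i, G i < b := by
  obtain ⟨b, hb⟩ := exists_gt_of_countable hI (countable_range G)
  exact ⟨b, fun i => hb _ ⟨i, rfl⟩⟩

theorem fodor (hI : ℵ₀ < #I) {S : Set I} (hS : Stat S) (r : I → I) (hr : ∀ δ ∈ S, r δ < δ) :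
    ∃ γ, Stat {δ ∈ S | r δ = γ} := by
  by_contra hc
  simp only [Stat, not_exists, not_forall, not_and] at hc
  choose G hG using hc
  have h1 : ∀ β : I, ∃ b, ∀ γ ≤ β, ∀ β' ≤ β, G γ β' < b := by
    intro β
    obtain ⟨b, hb⟩ := bound_fun (fun p : Iic β × Iic β => G p.1 p.2)
      (by rw [mk_prod, lift_id]
          exact mul_lt_of_lt hI.le (mk_Iic_lt hI.le β) (mk_Iic_lt hI.le β))
    exact ⟨b, fun γ hγ β' hβ' => hb (⟨γ, hγ⟩, ⟨β', hβ'⟩)⟩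
  choose F hF using h1
  obtain ⟨δ, hδ, hg⟩ := hS F
  refine hG (r δ) δ ⟨hδ, rfl⟩ ⟨hg.1, fun β hβ => ?_⟩
  exact (hF (max β (r δ)) _ (le_max_right _ _) _ (le_max_left _ _)).trans
    (hg.2 _ (max_lt hβ (hr δ hδ)))

theorem stat_cof (hI : ℵ₀ < #I) :
    Stat {δ : I | ∃ l : ℕ → I, (∀ n, l n < δ) ∧ ∀ β < δ, ∃ n, β ≤ l n} := by
  intro F
  have hne : Nonempty I := mk_ne_zero_iff.1 (aleph0_pos.trans hI).ne'
  obtain ⟨a⟩ := hne
  have h1 : ∀ x : I, ∃ y, x < y ∧ ∀ i ≤ x, F i < y := by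
    intro x
    obtain ⟨y, hy⟩ := exists_gt_of_mk_lt (s := F '' Iic x)
      (mk_image_le.trans_lt (mk_Iic_lt hI.le x))
    obtain ⟨z, hz⟩ := exists_gt' hI.le x
    exact ⟨max y z, hz.trans_le (le_max_right _ _),
      fun i hi => (hy _ ⟨i, hi, rfl⟩).trans_le (le_max_left _ _)⟩
  choose ψ hψ1 hψ2 using h1
  obtain ⟨c, hc⟩ := bound_nat hI fun n : ℕ => ψ^[n] a
  obtain ⟨b, hb⟩ := exists_isLUB (s := range fun n : ℕ => ψ^[n] a)
    ⟨c, by rintro _ ⟨n, rfl⟩; exact (hc n).le⟩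
  have h2 : ∀ n, ψ (ψ^[n] a) ≤ b := fun n => hb.1 ⟨n + 1, by simp [Function.iterate_succ_apply']⟩
  have h3 : ∀ n, ψ^[n] a < b := fun n => (hψ1 _).trans_le (h2 n)
  refine ⟨b, ⟨fun n => ψ^[n] a, h3, fun β hβ => ?_⟩, ⟨a, h3 0⟩, fun β hβ => ?_⟩
  · obtain ⟨_, ⟨n, rfl⟩, hn⟩ := (lt_isLUB_iff hb).1 hβ
    exact ⟨n, hn.le⟩
  · obtain ⟨_, ⟨n, rfl⟩, hn⟩ := (lt_isLUB_iff hb).1 hβ
    exact (hψ2 _ _ hn.le).trans_le (h2 n)

theorem mk_of_unbounded {Γ : Set I} (h : ∀ γ, ∃ x ∈ Γ, γ ≤ x) : #Γ = #I := by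
  refine le_antisymm (mk_set_le _) (not_lt.1 fun hh => ?_)
  obtain ⟨b, hb⟩ := exists_gt_of_mk_lt hh
  obtain ⟨x, hx, hbx⟩ := h b
  exact (hb x hx).not_ge hbx

theorem solovay (hI : ℵ₀ < #I) {U : Type u} (hU : #U ≤ #I) [Nonempty U] :
    ∃ g : I → U, ∀ a F, ∃ δ, Good F δ ∧ g δ = a := by
  classical
  set E := {δ : I | ∃ l : ℕ → I, (∀ n, l n < δ) ∧ ∀ β < δ, ∃ n, β ≤ l n} with hE
  have h0 : ∀ δ : I, ∃ l : ℕ → I, δ ∈ E → (∀ n, l n < δ) ∧ ∀ β < δ, ∃ n, β ≤ l n := by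
    intro δ
    by_cases h : δ ∈ E
    · obtain ⟨l, hl⟩ := h
      exact ⟨l, fun _ => hl⟩
    · exact ⟨fun _ => δ, fun h' => (h h').elim⟩
  choose l hl using h0
  have h1 : ∃ n, ∀ γ, Stat {δ ∈ E | γ ≤ l δ n} := by
    by_contra hc
    simp only [Stat, not_exists, not_forall, not_and] at hc
    choose γ G hG using hc
    have h2 : ∀ β, ∃ b, ∀ n, max (γ n) (G n β) < b := fun β => bound_nat hI _
    choose F hF using h2
    obtain ⟨δ, hδ, ⟨β0, hβ0⟩, hg⟩ := stat_cof hI F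
    obtain ⟨n, hn⟩ := (hl δ hδ).2 _ (hg β0 hβ0)
    refine hG n δ ⟨hδ, ((le_max_left _ _).trans (hF β0 n).le).trans hn⟩ ⟨⟨β0, hβ0⟩, fun β hβ => ?_⟩
    exact ((le_max_right _ _).trans_lt (hF β n)).trans (hg β hβ)
  obtain ⟨n, hn⟩ := h1
  have h2 : #{γ : I | Stat {δ | l δ n = γ}} = #I := by
    refine mk_of_unbounded fun γ => ?_
    obtain ⟨γ', h'⟩ := fodor hI (hn γ) (fun δ => l δ n) fun δ hδ => (hl δ hδ.1).1 n
    refine ⟨γ', fun F => ?_, ?_⟩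
    · obtain ⟨δ, hδ, hg⟩ := h' F
      exact ⟨δ, hδ.2, hg⟩
    · obtain ⟨δ, hδ, -⟩ := h' id
      exact hδ.2 ▸ hδ.1.2
  obtain ⟨e⟩ : Nonempty (U ↪ {γ : I | Stat {δ | l δ n = γ}}) := by
    rw [← le_def, h2]; exact hU
  have he : Function.Injective fun a => (e a).1 := Subtype.val_injective.comp e.injective
  refine ⟨fun δ => Function.invFun (fun a => (e a).1) (l δ n), fun a F => ?_⟩
  obtain ⟨δ, hδ, hg⟩ := (e a).2 F
  refine ⟨δ, hg, ?_⟩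
  have : l δ n = (e a).1 := hδ
  simp only [this]
  exact Function.leftInverse_invFun he a

end Pool.Agent.Work.MP_4eca4b_lc
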