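import Pool.Agent.Work.MP_4eca4b_lc.Stat
import Mathlib.Order.PiLex
import Mathlib.Data.Prod.Lex

/-!
Level systems (normal trees with uncountable sibling classes) and their lexicographic orders.
-/

universe u

namespace Pool.Agent.Work.MP_4eca4b_lc

open Cardinal Set Pool.Agent.Lib.ClubGuess

/-- A tree given by a level function and restriction maps. -/
structure Sys (I U : Type u) [LinearOrder I] where
  lev : U → I
  res : U → I → U
  lev_res : ∀ u β, β ≤ lev u → lev (res u β) = β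
  res_res : ∀ u β γ, γ ≤ β → β ≤ lev u → res (res u β) γ = res u γ
  res_self : ∀ u, res u (lev u) = u
  ext : ∀ u α, lev u ≤ α → ∃ v, lev v = α ∧ res v (lev u) = u
  surj : ∀ α, ∃ u, lev u = α
  anti : ∀ A : Set U, (∀ u ∈ A, ∀ v ∈ A, lev u ≤ lev v → res v (lev u) = u → u = v) → #A < #I
  sib : ∀ u, ℵ₁ ≤ #{v | lev v = lev u ∧ ∀ β < lev u, res v β = res u β}

namespace Sys

variable {I U : Type u} [LinearOrder I] (S : Sys I U)

/-- The tree order. -/
def Le (u v : U) : Prop := S.lev u ≤ S.lev v ∧ S.res v (S.lev u) = u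

/-- Siblings. -/
def Sib (u v : U) : Prop := S.lev v = S.lev u ∧ ∀ β < S.lev u, S.res v β = S.res u β

variable {S}

theorem Le.rfl {u : U} : S.Le u u := ⟨le_rfl, S.res_self u⟩

theorem Le.res {u v : U} (h : S.Le u v) {β : I} (hβ : β ≤ S.lev u) : S.res v β = S.res u β := by
  conv_rhs => rw [← h.2]
  rw [S.res_res _ _ _ hβ h.1]

theorem Le.trans {u v w : U} (h : S.Le u v) (h' : S.Le v w) : S.Le u w :=
  ⟨h.1.trans h'.1, (h'.res h.1).trans h.2⟩

theorem res_le {u : U} {β : I} (h : β ≤ S.lev u) : S.Le (S.res u β) u := by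
  refine ⟨by rw [S.lev_res _ _ h]; exact h, by rw [S.lev_res _ _ h]⟩

theorem Le.of_le {u v w : U} (h : S.Le u w) (h' : S.Le v w) (e : S.lev u ≤ S.lev v) :
    S.Le u v :=
  ⟨e, (h'.res e).symm.trans h.2⟩

theorem Le.eq {u v : U} (h : S.Le u v) (e : S.lev v ≤ S.lev u) : u = v := by
  rw [← h.2, le_antisymm h.1 e, S.res_self]

theorem Le.le_res {u v : U} (h : S.Le u v) {β : I} (h1 : S.lev u ≤ β) (h2 : β ≤ S.lev v) :
    S.Le u (S.res v β) :=
  h.of_le (res_le h2) (by rw [S.lev_res _ _ h2]; exact h1)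

theorem Sib.rfl {u : U} : S.Sib u u := ⟨_root_.rfl, fun _ _ => _root_.rfl⟩

theorem Sib.symm {u v : U} (h : S.Sib u v) : S.Sib v u :=
  ⟨h.1.symm, fun β hβ => (h.2 β (h.1 ▸ hβ)).symm⟩

theorem Sib.trans {u v w : U} (h : S.Sib u v) (h' : S.Sib v w) : S.Sib u w :=
  ⟨h'.1.trans h.1, fun β hβ => (h'.2 β (h.1 ▸ hβ)).trans (h.2 β hβ)⟩

theorem Sib.le {u v s : U} (h : S.Sib u v) (hs : S.Le s u) (hl : S.lev s < S.lev u) :
    S.Le s v :=
  ⟨h.1 ▸ hl.le, (h.2 _ hl).trans hs.2⟩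

theorem exists_le (u : U) {α : I} (h : S.lev u ≤ α) : ∃ v, S.Le u v ∧ S.lev v = α := by
  obtain ⟨v, h1, h2⟩ := S.ext u α h
  exact ⟨v, ⟨h1 ▸ h, h2⟩, h1⟩

theorem exists_key (t : U → Prop) (ht : ∀ u v, S.Sib u v → (t u ↔ t v)) :
    ∃ (K : Type u) (_ : LinearOrder K) (key : U → K), Function.Injective key ∧
      (∀ u, t u → ∃ z : ℕ → U, (∀ n, S.Sib u (z n)) ∧ ∀ v, S.Sib u v → ∃ n, key (z n) < key v) ∧
      (∀ u, ¬ t u → ∀ z : ℕ → U, (∀ n, S.Sib u (z n)) →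
        ∃ v, S.Sib u v ∧ ∀ n, key v < key (z n)) := by
  classical
  let W := (ℵ₁ : Cardinal.{u}).ord.ToType
  have hW : #W = ℵ₁ := mk_ord_toType _
  have : IsRegularCardinalOrder W := isRegularCardinalOrder_toType isRegular_aleph_one
  have hW' : ℵ₀ < #W := hW ▸ aleph0_lt_aleph_one
  have : Infinite W := infinite_iff.2 hW'.le
  let st : Setoid U := ⟨S.Sib, ⟨fun _ => Sib.rfl, Sib.symm, Sib.trans⟩⟩
  have h1 : ∀ q : Quotient st, ∃ s : U → W, ∀ w, ∃ v, S.Sib q.out v ∧ s v = w := by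
    intro q
    obtain ⟨e⟩ : Nonempty (W ↪ {v | S.Sib q.out v}) := by
      rw [← le_def, hW]; exact S.sib _
    have he : Function.Injective fun a => (e a).1 := Subtype.val_injective.comp e.injective
    exact ⟨Function.invFun fun a => (e a).1, fun w => ⟨(e w).1, (e w).2,
      Function.leftInverse_invFun he w⟩⟩
  choose s hs using h1
  let σ : U → W := fun u => s (Quotient.mk st u) u
  have hσ : ∀ u w, ∃ v, S.Sib u v ∧ σ v = w := by
    intro u w
    obtain ⟨v, hv, hw⟩ := hs (Quotient.mk st u) w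
    have h2 : S.Sib (Quotient.mk st u).out u := Quotient.mk_out (s := st) u
    have h3 : S.Sib u v := h2.symm.trans hv
    refine ⟨v, h3, ?_⟩
    have : Quotient.mk st v = Quotient.mk st u := Quotient.sound h3.symm
    simp only [σ, this, hw]
  obtain ⟨φ, hφ⟩ : ∃ φ : W → ℕ, Function.Surjective φ :=
    ⟨_, Function.invFun_surjective (Infinite.natEmbedding W).injective⟩
  let _ : LinearOrder U := linearOrderOfSTO WellOrderingRel
  let j : U → ℕ ×ₗ W := fun u => toLex (if t u then φ (σ u) else 0, σ u)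
  refine ⟨(ℕ ×ₗ W)ᵒᵈ ×ₗ U, inferInstance, fun u => toLex (OrderDual.toDual (j u), u),
    fun u v h => congrArg (fun p => (ofLex p).2) h, fun u hu => ?_, fun u hu z hz => ?_⟩
  · have h2 : ∀ n : ℕ, ∃ v, S.Sib u v ∧ φ (σ v) = n := by
      intro n
      obtain ⟨w, hw⟩ := hφ n
      obtain ⟨v, hv, h⟩ := hσ u w
      exact ⟨v, hv, h ▸ hw⟩
    choose z hz1 hz2 using h2
    refine ⟨z, hz1, fun v hv => ⟨φ (σ v) + 1, ?_⟩⟩
    refine Prod.Lex.toLex_lt_toLex.2 (Or.inl ?_)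
    refine OrderDual.toDual_lt_toDual.2 (Prod.Lex.toLex_lt_toLex.2 (Or.inl ?_))
    simp [(ht _ _ hv).1 hu, (ht _ _ (hz1 _)).1 hu, hz2]
  · obtain ⟨w, hw⟩ := bound_nat hW' fun n => σ (z n)
    obtain ⟨v, hv, h⟩ := hσ u w
    refine ⟨v, hv, fun n => ?_⟩
    refine Prod.Lex.toLex_lt_toLex.2 (Or.inl ?_)
    refine OrderDual.toDual_lt_toDual.2 (Prod.Lex.toLex_lt_toLex.2 (Or.inr ?_))
    have h3 : ¬ t v := fun hh => hu ((ht _ _ hv).2 hh)
    have h4 : ¬ t (z n) := fun hh => hu ((ht _ _ (hz n)).2 hh)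
    simp [h3, h4, h, hw]

/-- The properties of a lexicographic order on the tree. -/
structure LexOrd (S : Sys I U) [LinearOrder U] (t : U → Prop) : Prop where
  sib_lt : ∀ {s s' u v}, S.Sib s s' → s < s' → S.Le s u → S.Le s' v → u < v
  le_of : ∀ {u v}, S.Le u v → u ≤ v
  cases : ∀ {u v}, u < v → S.Le u v ∨ ∃ s s', S.Sib s s' ∧ s < s' ∧ S.Le s u ∧ S.Le s' v
  t0 : ∀ u, t u → ∃ z : ℕ → U, (∀ n, S.Sib u (z n)) ∧ ∀ v, S.Sib u v → ∃ n, z n < v
  t1 : ∀ u, ¬ t u → ∀ z : ℕ → U, (∀ n, S.Sib u (z n)) → ∃ v, S.Sib u v ∧ ∀ n, v < z n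

theorem exists_lexOrd [WellFoundedLT I] (t : U → Prop) (ht : ∀ u v, S.Sib u v → (t u ↔ t v)) :
    ∃ _ : LinearOrder U, S.LexOrd t := by
  classical
  obtain ⟨K, _, key, hk, h0, h1⟩ := exists_key t ht
  let sq : U → Lex (I → WithBot K) := fun u =>
    toLex fun β => if β ≤ S.lev u then (key (S.res u β) : WithBot K) else ⊥
  have hlt : ∀ u v, sq u < sq v ↔ ∃ i, (∀ j < i, sq u j = sq v j) ∧ sq u i < sq v i :=
    fun _ _ => Iff.rfl
  have e1 : ∀ u β, β ≤ S.lev u → sq u β = key (S.res u β) := fun u β h => by simp [sq, h]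
  have e2 : ∀ u β, ¬ β ≤ S.lev u → sq u β = ⊥ := fun u β h => by simp [sq, h]
  have e3 : ∀ u v β, β ≤ S.lev u → sq u β = sq v β → β ≤ S.lev v ∧ S.res u β = S.res v β := by
    intro u v β h e
    by_cases h' : β ≤ S.lev v
    · rw [e1 _ _ h, e1 _ _ h'] at e
      exact ⟨h', hk (WithBot.coe_injective e)⟩
    · rw [e1 _ _ h, e2 _ _ h'] at e
      exact absurd e WithBot.coe_ne_bot
  have hinj : Function.Injective sq := by
    intro u v e
    have a1 := e3 u v _ le_rfl (congrFun e _)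
    have a2 := e3 v u _ le_rfl (congrFun e.symm _)
    have a3 := a1.2
    rw [S.res_self, le_antisymm a1.1 a2.1, S.res_self] at a3
    exact a3
  have k1 : ∀ {s s' u v}, S.Sib s s' → key s < key s' → S.Le s u → S.Le s' v → sq u < sq v := by
    intro s s' u v hs hk' hu hv
    have hv1 : S.lev s ≤ S.lev v := hs.1 ▸ hv.1
    refine (hlt _ _).2 ⟨S.lev s, fun j hj => ?_, ?_⟩
    · rw [e1 _ _ (hj.le.trans hu.1), e1 _ _ (hj.le.trans hv1), hu.res hj.le,
        hv.res (hs.1 ▸ hj.le), hs.2 j hj]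
    · rw [e1 _ _ hu.1, e1 _ _ hv1, hu.2, ← hs.1, hv.2]
      exact WithBot.coe_lt_coe.2 hk'
  have k2 : ∀ {s s'}, S.Sib s s' → (sq s < sq s' ↔ key s < key s') := by
    intro s s' hs
    refine ⟨fun h => ?_, fun h => k1 hs h Le.rfl Le.rfl⟩
    rcases lt_trichotomy (key s) (key s') with h' | h' | h'
    · exact h'
    · rw [hk h'] at h; exact absurd h (lt_irrefl _)
    · exact absurd (k1 hs.symm h' Le.rfl Le.rfl) h.not_gt
  let _ : LinearOrder U := LinearOrder.lift' sq hinj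
  have k3 : ∀ {u v : U}, u < v ↔ sq u < sq v := Iff.rfl
  have k4 : ∀ {u v : U}, u ≤ v ↔ sq u ≤ sq v := Iff.rfl
  refine ⟨inferInstance, fun hs h hu hv => k3.2 (k1 hs ((k2 hs).1 (k3.1 h)) hu hv),
    fun {u v} h => k4.2 ?_, fun {u v} h => ?_, fun u hu => ?_, fun u hu z hz => ?_⟩
  · refine not_lt.1 fun hh => ?_
    obtain ⟨i, -, hi⟩ := (hlt _ _).1 hh
    by_cases h' : i ≤ S.lev u
    · rw [e1 _ _ h', e1 _ _ (h'.trans h.1), h.res h'] at hi
      exact lt_irrefl _ hi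
    · rw [e2 _ _ h'] at hi
      exact not_lt_bot hi
  · obtain ⟨i, hj, hi⟩ := (hlt _ _).1 (k3.1 h)
    by_cases h' : i ≤ S.lev u
    · have h'' : i ≤ S.lev v := by
        by_contra hh
        rw [e2 _ _ hh] at hi
        exact not_lt_bot hi
      rw [e1 _ _ h', e1 _ _ h''] at hi
      have hs : S.Sib (S.res u i) (S.res v i) := by
        refine ⟨by rw [S.lev_res _ _ h', S.lev_res _ _ h''], fun β hβ => ?_⟩
        rw [S.lev_res _ _ h'] at hβ
        rw [S.res_res _ _ _ hβ.le h', S.res_res _ _ _ hβ.le h'']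
        exact (e3 u v β (hβ.le.trans h') (hj β hβ)).2.symm
      exact Or.inr ⟨_, _, hs, k3.2 ((k2 hs).2 (WithBot.coe_lt_coe.1 hi)), res_le h', res_le h''⟩
    · have a := e3 u v _ le_rfl (hj _ (not_le.1 h'))
      exact Or.inl ⟨a.1, by rw [← a.2, S.res_self]⟩
  · obtain ⟨z, hz1, hz2⟩ := h0 u hu
    refine ⟨z, hz1, fun v hv => ?_⟩
    obtain ⟨n, hn⟩ := hz2 v hv
    exact ⟨n, k3.2 ((k2 ((hz1 n).symm.trans hv)).2 hn)⟩
  · obtain ⟨v, hv, hn⟩ := h1 u hu z hz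
    exact ⟨v, hv, fun n => k3.2 ((k2 (hv.symm.trans (hz n))).2 (hn n))⟩

end Sys

end Pool.Agent.Work.MP_4eca4b_lc
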